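import Mathlib
import Pool.Agent.MP_2033ac_nt.Mg.Main

/-! Chowla correlations over `k[X]` in odd characteristic: definitions, boxes, entropy decrement. -/

section

/-! h4o definitions and boxes (boxes: helper27, row BOX of h58c) -/

set_option autoImplicit false

open Polynomial Finset Filter
open scoped Classical BigOperators

noncomputable section
namespace Pool.Agent.H4O

section
variable (k : Type) [Field k] [Fintype k]

/-- The number of elements of `k`. -/
def qq : ℝ := (Fintype.card k : ℝ)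

/-- Polynomials of degree `< N`. -/
def box (N : ℕ) : Finset k[X] :=
  univ.image fun c : Fin N → k => ∑ i : Fin N, monomial (i : ℕ) (c i)

/-- Monic polynomials of degree `N`. -/
def mon (N : ℕ) : Finset k[X] := (box k N).image fun a => X ^ N + a

/-- Monic primes of degree `e`. -/
def prs (e : ℕ) : Finset k[X] := {π ∈ mon k e | Irreducible π}

/-- The additive parametrisation of `box k N`. -/
def emb (N : ℕ) : (Fin N → k) →+ k[X] := (Polynomial.ofFn (R := k) N).toAddMonoidHom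

variable {k}

/-- The Liouville function. -/
def lam (f : k[X]) : ℝ := (-1) ^ (UniqueFactorizationMonoid.factors f).card

/-- A large square divides `f`. -/
def Big (L : ℕ) (f : k[X]) : Prop := ∃ d : k[X], d.Monic ∧ L ≤ d.natDegree ∧ d ^ 2 ∣ f

/-- The Jacobi symbol `(w / u)` for monic `u`. -/
def J (u w : k[X]) : ℝ := ((quadraticChar k (resultant u w) : ℤ) : ℝ)

/-- Well factorable polynomials with one simple prime of medium degree. -/
def Good (p n : ℕ) (B : k[X]) : Prop := ∃ π C : k[X], B = π * C ∧ π.Monic ∧ Irreducible π ∧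
  ¬ π ∣ C ∧ n / p ≤ 2 * π.natDegree ∧ 2 * π.natDegree ≤ 3 * (n / p) ∧
  ∀ ϖ : k[X], Irreducible ϖ → ϖ ∣ C → ϖ.natDegree + n / p / (4 * p ^ 2) ≤ n / p

/-- A weight that is constant on the lines `f + y ^ (p - 1) * s ^ p` and lives on good lines. -/
def Wt (p n γ : ℕ) (y : k[X]) (W : k[X] → ℝ) : Prop :=
  (∀ f ∈ mon k n, ∀ s ∈ box k (n / p - γ), W (f + y ^ (p - 1) * s ^ p) = W f) ∧
    ∀ f ∈ mon k n, W f ≠ 0 → Good p n (derivative (f * y))

end

section
variable {k : Type} [Field k] [Fintype k]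

theorem two_le_qq : 2 ≤ qq k := by
  unfold qq
  exact_mod_cast Fintype.one_lt_card (α := k)

theorem box_eq_map (N : ℕ) : box k N =
    Finset.univ.map ⟨Polynomial.ofFn (R := k) N, Polynomial.injective_ofFn N⟩ := by
  ext a
  unfold box
  simp only [Finset.mem_image, Finset.mem_map, Finset.mem_univ, true_and,
    Function.Embedding.coeFn_mk, Polynomial.ofFn_eq_sum_monomial]

theorem mem_box {N : ℕ} {a : k[X]} : a ∈ box k N ↔ a.degree < N := by
  rw [box_eq_map]
  simp only [Finset.mem_map, Finset.mem_univ, true_and, Function.Embedding.coeFn_mk]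
  constructor
  · rintro ⟨v, rfl⟩
    exact Polynomial.ofFn_degree_lt v
  · intro h
    by_cases hp : a = 0
    · exact ⟨0, by simp [hp]⟩
    · exact ⟨_, Polynomial.ofFn_comp_toFn_eq_id_of_natDegree_lt
        ((Polynomial.natDegree_lt_iff_degree_lt hp).2 h)⟩

theorem mem_mon {N : ℕ} {a : k[X]} : a ∈ mon k N ↔ a.Monic ∧ a.natDegree = N := by
  unfold mon
  simp only [Finset.mem_image, mem_box]
  constructor
  · rintro ⟨b, hb, rfl⟩
    have h1 : b.degree < (X ^ N : k[X]).degree := by rwa [Polynomial.degree_X_pow]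
    refine ⟨(Polynomial.monic_X_pow N).add_of_left h1, ?_⟩
    rw [Polynomial.natDegree_add_eq_left_of_degree_lt h1, Polynomial.natDegree_X_pow]
  · rintro ⟨hm, hd⟩
    refine ⟨a - X ^ N, ?_, by ring⟩
    have h1 : a.degree = (X ^ N : k[X]).degree := by
      rw [Polynomial.degree_X_pow, Polynomial.degree_eq_natDegree hm.ne_zero, hd]
    have := Polynomial.degree_sub_lt_left h1 hm.ne_zero
      (by rw [hm.leadingCoeff, (Polynomial.monic_X_pow N).leadingCoeff])
    rwa [h1, Polynomial.degree_X_pow] at this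

theorem card_box (N : ℕ) : (#(box k N) : ℝ) = qq k ^ N := by
  rw [box_eq_map]
  simp [qq]

theorem card_mon (N : ℕ) : (#(mon k N) : ℝ) = qq k ^ N := by
  unfold mon
  rw [Finset.card_image_of_injective _ (add_right_injective _), card_box]

theorem box_nonempty (N : ℕ) : (box k N).Nonempty := ⟨0, mem_box.2 (by simp)⟩

theorem mon_nonempty (N : ℕ) : (mon k N).Nonempty := (box_nonempty N).image _

theorem box_exp (N : ℕ) (F : k[X] → ℝ) :
    𝔼 f ∈ box k N, F f = (∑ f ∈ box k N, F f) / qq k ^ N := by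
  rw [Finset.expect_eq_sum_div_card, card_box]

theorem box_exp_mon (N : ℕ) (F : k[X] → ℝ) :
    𝔼 f ∈ mon k N, F f = (∑ f ∈ mon k N, F f) / qq k ^ N := by
  rw [Finset.expect_eq_sum_div_card, card_mon]

theorem box_sum_shift {N : ℕ} {t : k[X]} (ht : t.degree < N) (F : k[X] → ℝ) :
    ∑ f ∈ box k N, F (f + t) = ∑ f ∈ box k N, F f := by
  refine Finset.sum_nbij' (fun f => f + t) (fun f => f - t) ?_ ?_ ?_ ?_ ?_
  · intro f hf
    rw [mem_box] at *
    exact (Polynomial.degree_add_le f t).trans_lt (max_lt hf ht)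
  · intro f hf
    rw [mem_box] at *
    exact (Polynomial.degree_sub_le f t).trans_lt (max_lt hf ht)
  · intro f _; simp
  · intro f _; simp
  · intro f _; rfl

theorem exp_box_shift {N : ℕ} {t : k[X]} (ht : t.degree < N) (F : k[X] → ℝ) :
    𝔼 f ∈ box k N, F (f + t) = 𝔼 f ∈ box k N, F f := by
  rw [box_exp, box_exp, box_sum_shift ht]

theorem box_sum_mon (N : ℕ) (F : k[X] → ℝ) :
    ∑ f ∈ mon k N, F f = ∑ a ∈ box k N, F (X ^ N + a) := by
  unfold mon
  exact Finset.sum_image fun _ _ _ _ h => add_right_injective _ h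

theorem exp_mon_shift {N : ℕ} {t : k[X]} (ht : t.degree < N) (F : k[X] → ℝ) :
    𝔼 f ∈ mon k N, F (f + t) = 𝔼 f ∈ mon k N, F f := by
  rw [box_exp_mon, box_exp_mon, box_sum_mon, box_sum_mon,
    ← box_sum_shift ht (fun a => F (X ^ N + a))]
  simp only [add_assoc]

theorem box_card_dvd {N : ℕ} {M : k[X]} (hM : M ≠ 0) (hN : M.natDegree ≤ N) :
    ∑ s ∈ box k N, (if M ∣ s then (1 : ℝ) else 0) = qq k ^ (N - M.natDegree) := by
  rw [Finset.sum_boole, ← card_box]
  congr 1
  symm
  refine Finset.card_bij (fun u _ => M * u) ?_ ?_ ?_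
  · intro u hu
    rw [Finset.mem_filter]
    refine ⟨?_, dvd_mul_right _ _⟩
    rw [mem_box] at *
    by_cases h0 : u = 0
    · simp [h0]
    · rw [← Polynomial.natDegree_lt_iff_degree_lt h0] at hu
      rw [← Polynomial.natDegree_lt_iff_degree_lt (mul_ne_zero hM h0), natDegree_mul hM h0]
      omega
  · intro u _ v _ h
    exact mul_left_cancel₀ hM h
  · intro s hs
    rw [Finset.mem_filter] at hs
    obtain ⟨hs, u, rfl⟩ := hs
    refine ⟨u, ?_, rfl⟩
    rw [mem_box] at *
    by_cases h0 : u = 0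
    · simp [h0]
    · rw [← Polynomial.natDegree_lt_iff_degree_lt (mul_ne_zero hM h0), natDegree_mul hM h0] at hs
      rw [← Polynomial.natDegree_lt_iff_degree_lt h0]
      omega

theorem exp_box_dvd {N : ℕ} {M c : k[X]} (hM : M ≠ 0) (hN : M.natDegree ≤ N) (hc : IsCoprime c M)
    (b : k[X]) : 𝔼 s ∈ box k N, (if M ∣ b + c * s then (1 : ℝ) else 0) = 1 / qq k ^ M.natDegree := by
  obtain ⟨u, v, huv⟩ := id hc
  have ht : ((u * b) % M).degree < N :=
    (Polynomial.degree_mod_lt _ hM).trans_le (Polynomial.degree_le_of_natDegree_le hN)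
  have h1 : ∀ s : k[X], M ∣ b + c * s ↔ M ∣ s + (u * b) % M := fun s => by
    have e : c * (s + (u * b) % M) = b + c * s - M * (v * b + c * (u * b / M)) := by
      have h2 := EuclideanDomain.div_add_mod (u * b) M
      linear_combination c * h2 + b * huv
    constructor
    · intro h
      refine hc.symm.dvd_of_dvd_mul_left ?_
      rw [e]
      exact dvd_sub h (dvd_mul_right _ _)
    · intro h
      have h3 : M ∣ c * (s + (u * b) % M) := h.mul_left c
      rw [e] at h3
      exact (dvd_sub_left (dvd_mul_right _ _)).1 h3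
  simp only [h1]
  rw [exp_box_shift ht (fun s => if M ∣ s then (1 : ℝ) else 0), box_exp, box_card_dvd hM hN]
  have h2 := two_le_qq (k := k)
  have h3 : qq k ^ N = qq k ^ (N - M.natDegree) * qq k ^ M.natDegree := by
    rw [← pow_add, Nat.sub_add_cancel hN]
  rw [h3]
  field_simp

theorem exp_mon_mul {n : ℕ} {P : k[X]} (hP : P.Monic) (F : k[X] → ℝ) :
    𝔼 f ∈ mon k n, F (P * f) =
      qq k ^ P.natDegree * 𝔼 f ∈ mon k (n + P.natDegree), (if P ∣ f then F f else 0) := by
  have h2 := two_le_qq (k := k)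
  have h : ∑ f ∈ mon k n, F (P * f) =
      ∑ f ∈ mon k (n + P.natDegree), (if P ∣ f then F f else 0) := by
    rw [← Finset.sum_filter]
    refine Finset.sum_bij (fun f _ => P * f) ?_ ?_ ?_ ?_
    · intro f hf
      rw [mem_mon] at hf
      rw [Finset.mem_filter, mem_mon]
      exact ⟨⟨hP.mul hf.1, by rw [hP.natDegree_mul hf.1, hf.2, add_comm]⟩, dvd_mul_right _ _⟩
    · intro f _ g _ h
      exact mul_left_cancel₀ hP.ne_zero h
    · intro g hg
      rw [Finset.mem_filter, mem_mon] at hg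
      obtain ⟨⟨h1, h3⟩, f, rfl⟩ := hg
      have hf : f.Monic := hP.of_mul_monic_left h1
      refine ⟨f, mem_mon.2 ⟨hf, ?_⟩, rfl⟩
      rw [hP.natDegree_mul hf] at h3
      omega
    · intro f _; rfl
  rw [box_exp_mon, box_exp_mon, h, pow_add]
  field_simp


theorem mem_prs {e : ℕ} {π : k[X]} : π ∈ prs k e ↔ π.Monic ∧ Irreducible π ∧ π.natDegree = e := by
  unfold prs
  rw [Finset.mem_filter, mem_mon]
  tauto

theorem emb_inj (N : ℕ) : Function.Injective (emb k N) := Polynomial.injective_ofFn N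

theorem emb_mem (N : ℕ) (v : Fin N → k) : emb k N v ∈ box k N :=
  mem_box.2 (Polynomial.ofFn_degree_lt v)

theorem image_emb (N : ℕ) : univ.image (emb k N) = box k N := by
  rw [box_eq_map, Finset.map_eq_image]; rfl

theorem box_mono {N N' : ℕ} (h : N ≤ N') : box k N ⊆ box k N' := fun _ ha =>
  mem_box.2 ((mem_box.1 ha).trans_le (by exact_mod_cast h))

theorem Wt.mono {p n γ γ' : ℕ} {y : k[X]} {W : k[X] → ℝ} (h : Wt p n γ y W) (hγ : γ ≤ γ') :
    Wt p n γ' y W :=
  ⟨fun f hf s hs => h.1 f hf s (box_mono (Nat.sub_le_sub_left hγ _) hs), h.2⟩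

end

end Pool.Agent.H4O

end

end

section

/-! h4o arithmetic lemmas (helper34, row ARI of h58c) -/

set_option autoImplicit false

open Polynomial Finset Filter
open scoped Classical BigOperators

noncomputable section
namespace Pool.Agent.H4O

variable {k : Type} [Field k] [Fintype k]

theorem lam_mul {f g : k[X]} (hf : f ≠ 0) (hg : g ≠ 0) : lam (f * g) = lam f * lam g := by
  unfold lam
  rw [Multiset.card_eq_card_of_rel (UniqueFactorizationMonoid.factors_mul hf hg),
    Multiset.card_add, pow_add]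

theorem lam_mul_self (f : k[X]) : lam f * lam f = 1 := by
  unfold lam
  rw [← mul_pow]
  norm_num

theorem abs_lam (f : k[X]) : |lam f| = 1 := by
  unfold lam
  rw [abs_pow]
  norm_num

omit [Fintype k] in
theorem ari_fac {d : k[X]} (hm : d.Monic) (hs : Squarefree d) :
    ∃ S : Finset k[X], (∀ p ∈ S, p.Monic ∧ Irreducible p ∧ p ∣ d) ∧ ∏ p ∈ S, p = d := by
  refine ⟨⟨UniqueFactorizationMonoid.normalizedFactors d,
    (UniqueFactorizationMonoid.squarefree_iff_nodup_normalizedFactors hm.ne_zero).1 hs⟩,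
    fun p hp => ?_, ?_⟩
  · have := (Polynomial.mem_normalizedFactors_iff hm.ne_zero).1 hp
    exact ⟨this.2.1, this.1, this.2.2⟩
  · rw [Finset.prod_mk, Multiset.map_id',
      UniqueFactorizationMonoid.prod_normalizedFactors_eq hm.ne_zero, hm.normalize_eq_self]

theorem ari_geom {q : ℕ} (hq : 2 ≤ q) (m : ℕ) : 2 * ∑ i ∈ range m, q ^ (i + 1) ≤ q ^ (2 * m) := by
  induction m with
  | zero => simp
  | succ m ih =>
    rcases Nat.eq_zero_or_pos m with rfl | hm
    · simp only [zero_add, range_one, sum_singleton, pow_one, mul_one]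
      nlinarith
    · have h1 : q ^ (m + 1) ≤ q ^ (2 * m) := Nat.pow_le_pow_right (by omega) (by omega)
      have h2 : q ^ (2 * (m + 1)) = q ^ (2 * m) * (q * q) := by ring
      have h3 : q ^ (2 * m) * 4 ≤ q ^ (2 * m) * (q * q) :=
        Nat.mul_le_mul_left _ (by nlinarith)
      rw [sum_range_succ]
      omega

theorem card_prs {e : ℕ} (he : 0 < e) : qq k ^ e ≤ 2 * e * (#(prs k e) : ℝ) := by
  have h1 : 1 < Fintype.card k := Fintype.one_lt_card
  obtain ⟨p, hp⟩ := CharP.exists k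
  obtain ⟨c, hpp, hc⟩ := FiniteField.card k p
  have hd := FiniteField.X_pow_card_pow_sub_X_natDegree_eq k he.ne' h1
  have hm : (X ^ Fintype.card k ^ e - X : k[X]).Monic := monic_X_pow_sub (by
    rw [degree_X]; exact_mod_cast Nat.one_lt_pow he.ne' h1)
  obtain ⟨S, hS, hP⟩ := ari_fac hm (galois_poly_separable p _ (by
    rw [hc]; exact dvd_pow (dvd_pow_self p c.ne_zero) he.ne')).squarefree
  rw [← hP, natDegree_prod_of_monic _ _ fun p hp => (hS p hp).1,
    ← sum_filter_add_sum_filter_not S (fun p => p.natDegree = e)] at hd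
  have h2 : ∑ p ∈ S with p.natDegree = e, p.natDegree ≤ e * #(prs k e) := by
    rw [sum_congr rfl fun p hp => (mem_filter.1 hp).2, sum_const, smul_eq_mul, mul_comm]
    exact Nat.mul_le_mul_left e (card_le_card fun p hp => mem_filter.2
      ⟨mem_mon.2 ⟨(hS p (mem_filter.1 hp).1).1, (mem_filter.1 hp).2⟩,
        (hS p (mem_filter.1 hp).1).2.1⟩)
  have h3 : ∏ p ∈ S with ¬ p.natDegree = e, p ∣ MP_2033ac_nt.lcmP k (e / 2) := by
    refine Finset.prod_dvd_of_coprime (fun a ha b hb hab => ?_) fun a ha => ?_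
    · have h4 := hS a (mem_filter.1 ha).1
      have h5 := hS b (mem_filter.1 hb).1
      exact h4.2.1.coprime_iff_not_dvd.2 fun hd => hab (eq_of_monic_of_associated h4.1 h5.1
        (h4.2.1.associated_of_dvd h5.2.1 hd))
    · have h4 := hS a (mem_filter.1 ha).1
      have h5 := (mem_filter.1 ha).2
      obtain ⟨c, hc⟩ : a.natDegree ∣ e := h4.2.1.natDegree_dvd_of_dvd_X_pow_card_pow_sub_X
        (Nat.card_eq_fintype_card (α := k) ▸ h4.2.2)
      have h6 : 2 ≤ c := by
        rcases c with _ | _ | c <;> simp_all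
      have h7 := Nat.mul_le_mul_left a.natDegree h6
      exact MP_2033ac_nt.dvd_lcmP (e / 2) a h4.1.ne_zero (by omega)
  have h4 := natDegree_le_of_dvd h3 (MP_2033ac_nt.lcmP_monic _).ne_zero
  rw [natDegree_prod_of_monic _ _ fun p hp => (hS p (mem_filter.1 hp).1).1,
    MP_2033ac_nt.lcmP_natDegree] at h4
  have h5 := ari_geom (q := Fintype.card k) h1 (e / 2)
  have h6 : Fintype.card k ^ (2 * (e / 2)) ≤ Fintype.card k ^ e :=
    Nat.pow_le_pow_right (by omega) (by omega)
  have h7 : Fintype.card k ^ e ≤ 2 * e * #(prs k e) := by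
    rw [mul_assoc]
    omega
  unfold qq
  exact_mod_cast h7

theorem ari_geom2 (L n : ℕ) :
    ∑ j ∈ range n, 1 / qq k ^ (L + j) ≤ 2 / qq k ^ L - 2 / qq k ^ (L + n) := by
  have h2 := two_le_qq (k := k)
  induction n with
  | zero => simp
  | succ n ih =>
    rw [sum_range_succ, ← add_assoc, pow_succ]
    have hp : 0 < qq k ^ (L + n) := by positivity
    have h3 : 2 / (qq k ^ (L + n) * qq k) ≤ 1 / qq k ^ (L + n) := by
      rw [div_le_div_iff₀ (by positivity) hp]
      nlinarith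
    have h4 : 2 / qq k ^ (L + n) = 2 * (1 / qq k ^ (L + n)) := by ring
    linarith

theorem ari_sq (n : ℕ) {d : k[X]} (hd : d.Monic) :
    𝔼 f ∈ mon k n, (if d ^ 2 ∣ f then (1 : ℝ) else 0) ≤ 1 / qq k ^ (2 * d.natDegree) := by
  have h2 := two_le_qq (k := k)
  have hp : 0 < qq k ^ (2 * d.natDegree) := by positivity
  by_cases h : 2 * d.natDegree ≤ n
  · obtain ⟨m, rfl⟩ := Nat.exists_eq_add_of_le' h
    have h1 := exp_mon_mul (n := m) (hd.pow 2) (fun _ => (1 : ℝ))
    rw [expect_const (mon_nonempty m), hd.natDegree_pow] at h1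
    rw [le_div_iff₀ hp, mul_comm]
    exact h1.ge
  · refine expect_le (mon_nonempty n) fun f hf => ?_
    have h3 := mem_mon.1 hf
    rw [if_neg fun h4 => h (by
      have := natDegree_le_of_dvd h4 h3.1.ne_zero
      rwa [hd.natDegree_pow, h3.2] at this)]
    positivity

theorem exp_big (n L : ℕ) :
    𝔼 f ∈ mon k n, (if Big L f then (1 : ℝ) else 0) ≤ 2 / qq k ^ L := by
  have h2 := two_le_qq (k := k)
  have h1 : 𝔼 f ∈ mon k n, (if Big L f then (1 : ℝ) else 0) ≤ 𝔼 f ∈ mon k n,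
      ∑ j ∈ range (n + 1), ∑ d ∈ mon k (L + j), (if d ^ 2 ∣ f then (1 : ℝ) else 0) := by
    refine expect_le_expect fun f hf => ?_
    have h0 : ∀ (d : k[X]), (0 : ℝ) ≤ if d ^ 2 ∣ f then 1 else 0 := fun d => by positivity
    split_ifs with h
    · obtain ⟨d, h3, h4, h5⟩ := h
      have h6 := natDegree_le_of_dvd h5 (mem_mon.1 hf).1.ne_zero
      rw [h3.natDegree_pow, (mem_mon.1 hf).2] at h6
      refine le_trans ?_ (single_le_sum (f := fun j => ∑ d ∈ mon k (L + j),
        (if d ^ 2 ∣ f then (1 : ℝ) else 0)) (fun j _ => sum_nonneg fun d _ => h0 d)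
        (mem_range.2 (show d.natDegree - L < n + 1 by omega)))
      refine le_trans ?_ (single_le_sum (fun d _ => h0 d)
        (mem_mon.2 ⟨h3, (show d.natDegree = L + (d.natDegree - L) by omega)⟩))
      rw [if_pos h5]
    · exact sum_nonneg fun j _ => sum_nonneg fun d _ => h0 d
  refine h1.trans ?_
  rw [expect_sum_comm]
  refine (sum_le_sum fun j _ => (?_ : _ ≤ 1 / qq k ^ (L + j))).trans
    ((ari_geom2 L (n + 1)).trans (sub_le_self _ (by positivity)))
  rw [expect_sum_comm]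
  refine (sum_le_card_nsmul _ _ (1 / qq k ^ (2 * (L + j))) fun d hd => ?_).trans ?_
  · rw [← (mem_mon.1 hd).2]
    exact ari_sq n (mem_mon.1 hd).1
  · rw [nsmul_eq_mul, card_mon, two_mul, pow_add (qq k) (L + j)]
    apply le_of_eq
    field_simp


end Pool.Agent.H4O

end

end

section

/-! Entropy on a finite uniform probability space `S` (helper76, row ENT of h58c). -/

set_option autoImplicit false
open Finset
open scoped Classical

noncomputable section
namespace Ent76

variable {Ω : Type*} (S : Finset Ω) {A B C : Type*}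

/-- probability of the value `a` -/
def pr (φ : Ω → A) (a : A) : ℝ := ((S.filter (fun ω => φ ω = a)).card : ℝ) / S.card

/-- Shannon entropy -/
def ent (φ : Ω → A) : ℝ := (∑ ω ∈ S, -Real.log (pr S φ (φ ω))) / S.card

variable {S}

lemma pr_nonneg (φ : Ω → A) (a : A) : 0 ≤ pr S φ a := by
  unfold pr; positivity

lemma pr_pos (φ : Ω → A) {ω : Ω} (h : ω ∈ S) : 0 < pr S φ (φ ω) := by
  unfold pr
  have h1 : 0 < (S.filter (fun ω' => φ ω' = φ ω)).card :=
    card_pos.2 ⟨ω, mem_filter.2 ⟨h, rfl⟩⟩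
  have h2 : 0 < S.card := card_pos.2 ⟨ω, h⟩
  positivity

lemma pr_le_one (φ : Ω → A) (a : A) : pr S φ a ≤ 1 := by
  unfold pr
  refine div_le_one_of_le₀ ?_ (by positivity)
  exact_mod_cast card_filter_le _ _

lemma sum_comp' (hS : S.Nonempty) (φ : Ω → A) (F : A → ℝ) :
    (∑ ω ∈ S, F (φ ω)) / S.card = ∑ a ∈ S.image φ, pr S φ a * F a := by
  have h2 : (S.card : ℝ) ≠ 0 := by exact_mod_cast (card_pos.2 hS).ne'
  rw [Finset.sum_comp F φ, Finset.sum_div]
  refine sum_congr rfl fun a _ => ?_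
  unfold pr
  rw [nsmul_eq_mul]
  field_simp

lemma sum_pr (hS : S.Nonempty) (φ : Ω → A) : ∑ a ∈ S.image φ, pr S φ a = 1 := by
  have h2 : (S.card : ℝ) ≠ 0 := by exact_mod_cast (card_pos.2 hS).ne'
  have := sum_comp' hS φ (fun _ => 1)
  simp only [sum_const, nsmul_eq_mul, mul_one] at this
  rw [← this, div_self h2]

lemma sum_pr_fst (φ : Ω → A) (ψ : Ω → B) (b : B) :
    ∑ a ∈ S.image φ, pr S (fun ω => (φ ω, ψ ω)) (a, b) = pr S ψ b := by
  unfold pr
  rw [← Finset.sum_div]
  congr 1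
  rw [card_eq_sum_card_fiberwise (f := φ) (t := S.image φ)
    (fun ω hω => mem_image_of_mem φ (mem_filter.1 hω).1)]
  push_cast
  refine sum_congr rfl fun a _ => ?_
  congr 2
  ext ω
  simp only [mem_filter, Prod.mk.injEq]
  tauto

lemma pr_mono {φ : Ω → A} {ψ : Ω → B} {a : A} {b : B} (h : ∀ ω ∈ S, φ ω = a → ψ ω = b) :
    pr S φ a ≤ pr S ψ b := by
  unfold pr
  refine div_le_div_of_nonneg_right ?_ (by positivity)
  exact_mod_cast card_le_card (fun x hx => mem_filter.2
    ⟨(mem_filter.1 hx).1, h x (mem_filter.1 hx).1 (mem_filter.1 hx).2⟩)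

theorem gibbs (hS : S.Nonempty) (φ : Ω → A) (g : A → ℝ) (h0 : ∀ ω ∈ S, 0 < g (φ ω))
    (T : Finset A) (hT : ∀ ω ∈ S, φ ω ∈ T) (hg0 : ∀ a ∈ T, 0 ≤ g a) (hg1 : ∑ a ∈ T, g a ≤ 1) :
    ent S φ ≤ (∑ ω ∈ S, -Real.log (g (φ ω))) / S.card := by
  have h1 : ∑ a ∈ S.image φ, g a ≤ 1 := by
    refine (sum_le_sum_of_subset_of_nonneg (fun z hz => ?_) (fun z hz _ => hg0 z hz)).trans hg1
    obtain ⟨ω, hω, rfl⟩ := mem_image.1 hz
    exact hT ω hω
  have h2 : (0 : ℝ) < S.card := by exact_mod_cast card_pos.2 hS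
  have key : (∑ ω ∈ S, (g (φ ω) / pr S φ (φ ω) - 1)) / S.card ≤ 0 := by
    rw [sum_comp' hS φ (fun a => g a / pr S φ a - 1)]
    have : ∑ a ∈ S.image φ, pr S φ a * (g a / pr S φ a - 1)
        = ∑ a ∈ S.image φ, g a - ∑ a ∈ S.image φ, pr S φ a := by
      rw [← sum_sub_distrib]
      refine sum_congr rfl fun a ha => ?_
      obtain ⟨ω, hω, rfl⟩ := mem_image.1 ha
      have := (pr_pos φ hω).ne'
      field_simp
    rw [this, sum_pr hS]; linarith
  have key2 : ∑ ω ∈ S, (g (φ ω) / pr S φ (φ ω) - 1) ≤ 0 := by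
    rwa [div_nonpos_iff, or_iff_right (by rintro ⟨_, h⟩; linarith), and_iff_left h2.le] at key
  unfold ent
  refine div_le_div_of_nonneg_right ?_ h2.le
  have : ∑ ω ∈ S, (-Real.log (pr S φ (φ ω)) - -Real.log (g (φ ω)))
      ≤ ∑ ω ∈ S, (g (φ ω) / pr S φ (φ ω) - 1) := by
    refine sum_le_sum fun ω hω => ?_
    have hp := pr_pos φ hω
    have hg := h0 ω hω
    have := Real.log_le_sub_one_of_pos (div_pos hg hp)
    rw [Real.log_div hg.ne' hp.ne'] at this
    linarith
  rw [sum_sub_distrib] at this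
  linarith

lemma ent_nonneg (φ : Ω → A) : 0 ≤ ent S φ := by
  unfold ent
  refine div_nonneg (sum_nonneg fun ω _ => ?_) (by positivity)
  have := Real.log_nonpos (pr_nonneg (S := S) φ (φ ω)) (pr_le_one φ (φ ω))
  linarith

/-- entropy depends only on the partition -/
theorem ent_congr {φ : Ω → A} {ψ : Ω → B}
    (h : ∀ ω ∈ S, ∀ ω' ∈ S, (φ ω' = φ ω ↔ ψ ω' = ψ ω)) : ent S φ = ent S ψ := by
  unfold ent
  congr 1
  refine sum_congr rfl fun ω hω => ?_
  unfold pr
  rw [filter_congr (fun ω' hω' => h ω hω ω' hω')]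

/-- entropy is invariant under a bijection of the space -/
theorem ent_comp (φ : Ω → A) (τ : Ω → Ω) (hm : ∀ ω ∈ S, τ ω ∈ S) (hi : Set.InjOn τ S) :
    ent S (fun ω => φ (τ ω)) = ent S φ := by
  have hsurj : ∀ b ∈ S, ∃ a ∈ S, τ a = b := by
    intro b hb
    have himg : S.image τ = S := by
      refine eq_of_subset_of_card_le (fun x hx => ?_) ?_
      · obtain ⟨a, ha, rfl⟩ := mem_image.1 hx; exact hm a ha
      · rw [card_image_of_injOn hi]
    rw [← himg] at hb
    exact mem_image.1 hb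
  have hpr : ∀ a, pr S (fun ω => φ (τ ω)) a = pr S φ a := by
    intro a
    unfold pr
    congr 2
    refine card_bij (fun ω _ => τ ω) (fun ω hω => ?_) (fun a ha b hb h => ?_) (fun b hb => ?_)
    · exact mem_filter.2 ⟨hm ω (mem_filter.1 hω).1, (mem_filter.1 hω).2⟩
    · exact hi (mem_filter.1 ha).1 (mem_filter.1 hb).1 h
    · obtain ⟨x, hx, rfl⟩ := hsurj b (mem_filter.1 hb).1
      exact ⟨x, mem_filter.2 ⟨hx, (mem_filter.1 hb).2⟩, rfl⟩
  unfold ent
  congr 1
  simp only [hpr]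
  exact sum_bij (fun ω _ => τ ω) hm (fun a ha b hb h => hi ha hb h)
    (fun b hb => by obtain ⟨x, hx, h⟩ := hsurj b hb; exact ⟨x, hx, h⟩) (fun _ _ => rfl)

/-- Gibbs variational inequality -/
theorem variational [Fintype B] [Nonempty B] (hS : S.Nonempty) (φ : Ω → A) (W : Ω → B)
    (G : A → B → ℝ) :
    (∑ ω ∈ S, G (φ ω) (W ω)) / S.card ≤
      ent S φ + Real.log (Fintype.card B) - ent S (fun ω => (φ ω, W ω)) +
        (∑ ω ∈ S, Real.log ((∑ w, Real.exp (G (φ ω) w)) / Fintype.card B)) / S.card := by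
  have h2 : (0 : ℝ) < S.card := by exact_mod_cast card_pos.2 hS
  have hB : (0 : ℝ) < Fintype.card B := by exact_mod_cast Fintype.card_pos
  have hZ : ∀ a, 0 < ∑ w, Real.exp (G a w) := fun a =>
    sum_pos (fun w _ => Real.exp_pos _) univ_nonempty
  have hg := gibbs hS (fun ω => (φ ω, W ω))
    (fun z => pr S φ z.1 * (Real.exp (G z.1 z.2) / ∑ w, Real.exp (G z.1 w)))
    (fun ω hω => mul_pos (pr_pos φ hω) (div_pos (Real.exp_pos _) (hZ _)))
    (S.image φ ×ˢ univ) (fun ω hω => mem_product.2 ⟨mem_image_of_mem φ hω, mem_univ _⟩)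
    (fun z _ => mul_nonneg (pr_nonneg _ _) (div_pos (Real.exp_pos _) (hZ _)).le) (by
      rw [sum_product, ← sum_pr hS φ]
      refine le_of_eq (sum_congr rfl fun a _ => ?_)
      simp only
      rw [← mul_sum, ← Finset.sum_div, div_self (hZ a).ne', mul_one])
  have e : ∑ ω ∈ S, -Real.log (pr S φ (φ ω) *
        (Real.exp (G (φ ω) (W ω)) / ∑ w, Real.exp (G (φ ω) w)))
      = ∑ ω ∈ S, -Real.log (pr S φ (φ ω)) + S.card * Real.log (Fintype.card B)
        - ∑ ω ∈ S, G (φ ω) (W ω)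
        + ∑ ω ∈ S, Real.log ((∑ w, Real.exp (G (φ ω) w)) / Fintype.card B) := by
    rw [← nsmul_eq_mul, ← sum_const, ← sum_add_distrib, ← sum_sub_distrib, ← sum_add_distrib]
    refine sum_congr rfl fun ω hω => ?_
    rw [Real.log_mul (pr_pos φ hω).ne' (div_pos (Real.exp_pos _) (hZ _)).ne',
      Real.log_div (Real.exp_pos _).ne' (hZ _).ne', Real.log_exp,
      Real.log_div (hZ _).ne' hB.ne']
    ring
  simp only at hg
  rw [e, add_div, sub_div, add_div, mul_div_cancel_left₀ _ h2.ne'] at hg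
  unfold ent at hg ⊢
  linarith

/-- `H(φ, W) ≤ H(φ) + log |B|` -/
theorem ent_pair_le [Fintype B] [Nonempty B] (hS : S.Nonempty) (φ : Ω → A) (W : Ω → B) :
    ent S (fun ω => (φ ω, W ω)) ≤ ent S φ + Real.log (Fintype.card B) := by
  have hB : (Fintype.card B : ℝ) ≠ 0 := by exact_mod_cast Fintype.card_ne_zero
  have := variational hS φ W (fun _ _ => 0)
  simp only [Real.exp_zero, sum_const, card_univ, nsmul_eq_mul, mul_one, mul_zero, zero_div,
    div_self hB, Real.log_one, add_zero] at this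
  linarith

/-- `H(φ) ≤ H(φ, ψ)` -/
theorem ent_le_pair (φ : Ω → A) (ψ : Ω → B) : ent S φ ≤ ent S (fun ω => (φ ω, ψ ω)) := by
  unfold ent
  refine div_le_div_of_nonneg_right (sum_le_sum fun ω hω => ?_) (by positivity)
  have h1 := pr_pos (fun ω => (φ ω, ψ ω)) hω
  have h3 : pr S (fun ω => (φ ω, ψ ω)) (φ ω, ψ ω) ≤ pr S φ (φ ω) :=
    pr_mono fun x _ hx => (Prod.mk.inj hx).1
  have := Real.log_le_log h1 h3
  linarith

/-- `W` uniform and independent of `Y` -/
theorem ent_indep [Fintype B] (hS : S.Nonempty) (Y : Ω → C) (W : Ω → B)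
    (h : ∀ ω ∈ S, pr S (fun ω => (Y ω, W ω)) (Y ω, W ω) = pr S Y (Y ω) / Fintype.card B) :
    ent S (fun ω => (Y ω, W ω)) = ent S Y + Real.log (Fintype.card B) := by
  have h2 : (0 : ℝ) < S.card := by exact_mod_cast card_pos.2 hS
  obtain ⟨ω0, -⟩ := hS
  have : Nonempty B := ⟨W ω0⟩
  have hB : (Fintype.card B : ℝ) ≠ 0 := by exact_mod_cast Fintype.card_ne_zero
  unfold ent
  have : ∑ ω ∈ S, -Real.log (pr S (fun ω => (Y ω, W ω)) (Y ω, W ω))
      = ∑ ω ∈ S, -Real.log (pr S Y (Y ω)) + S.card * Real.log (Fintype.card B) := by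
    rw [← nsmul_eq_mul, ← sum_const, ← sum_add_distrib]
    refine sum_congr rfl fun ω hω => ?_
    rw [h ω hω, Real.log_div (pr_pos Y hω).ne' hB]
    ring
  rw [this, add_div, mul_div_cancel_left₀ _ h2.ne']

/-- conditional subadditivity -/
theorem ent_pi_le {ι : Type*} [Fintype ι] (hS : S.Nonempty) (X : ι → Ω → A) (Y : Ω → C) :
    ent S (fun ω => ((fun i => X i ω), Y ω)) - ent S Y ≤
      ∑ i, (ent S (fun ω => (X i ω, Y ω)) - ent S Y) := by
  have h2 : (0 : ℝ) < S.card := by exact_mod_cast card_pos.2 hS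
  have hg := gibbs hS (fun ω => ((fun i => X i ω), Y ω))
    (fun z => pr S Y z.2 * ∏ i, (pr S (fun ω => (X i ω, Y ω)) (z.1 i, z.2) / pr S Y z.2))
    (fun ω hω => mul_pos (pr_pos Y hω) (prod_pos fun i _ =>
      div_pos (pr_pos (fun ω => (X i ω, Y ω)) hω) (pr_pos Y hω)))
    ((Fintype.piFinset fun i => S.image (X i)) ×ˢ S.image Y)
    (fun ω hω => mem_product.2 ⟨Fintype.mem_piFinset.2 fun i => mem_image_of_mem _ hω,
      mem_image_of_mem _ hω⟩)
    (fun z _ => mul_nonneg (pr_nonneg _ _) (prod_nonneg fun i _ =>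
      div_nonneg (pr_nonneg _ _) (pr_nonneg _ _))) (by
      rw [sum_product_right, ← sum_pr hS Y]
      refine le_of_eq (sum_congr rfl fun y hy => ?_)
      obtain ⟨ω, hω, rfl⟩ := mem_image.1 hy
      simp only
      rw [← mul_sum, ← Finset.prod_univ_sum (fun i => S.image (X i))
        (fun i a => pr S (fun ω => (X i ω, Y ω)) (a, Y ω) / pr S Y (Y ω))]
      rw [prod_eq_one, mul_one]
      intro i _
      rw [← Finset.sum_div, sum_pr_fst, div_self (pr_pos Y hω).ne'])
  have e : ∑ ω ∈ S, -Real.log (pr S Y (Y ω) *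
        ∏ i, (pr S (fun ω => (X i ω, Y ω)) (X i ω, Y ω) / pr S Y (Y ω)))
      = ∑ ω ∈ S, -Real.log (pr S Y (Y ω)) +
        ∑ i, (∑ ω ∈ S, -Real.log (pr S (fun ω => (X i ω, Y ω)) (X i ω, Y ω))
          - ∑ ω ∈ S, -Real.log (pr S Y (Y ω))) := by
    simp only [← sum_sub_distrib]
    rw [sum_comm, ← sum_add_distrib]
    refine sum_congr rfl fun ω hω => ?_
    have hy := pr_pos Y hω
    have hx := fun i => pr_pos (fun ω => (X i ω, Y ω)) hω
    rw [Real.log_mul hy.ne' (prod_pos fun i _ => div_pos (hx i) hy).ne',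
      Real.log_prod (fun i _ => (div_pos (hx i) hy).ne'), neg_add, ← sum_neg_distrib]
    congr 1
    refine sum_congr rfl fun i _ => ?_
    rw [Real.log_div (hx i).ne' hy.ne']
    ring
  have e2 : (∑ i, (∑ ω ∈ S, -Real.log (pr S (fun ω => (X i ω, Y ω)) (X i ω, Y ω))
          - ∑ ω ∈ S, -Real.log (pr S Y (Y ω)))) / (S.card : ℝ)
      = ∑ i, (ent S (fun ω => (X i ω, Y ω)) - ent S Y) := by
    rw [Finset.sum_div]
    refine sum_congr rfl fun i _ => ?_
    rw [sub_div]
    rfl
  simp only at hg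
  rw [e, add_div, e2] at hg
  have e3 : (∑ ω ∈ S, -Real.log (pr S Y (Y ω))) / (S.card : ℝ) = ent S Y := rfl
  rw [e3] at hg
  linarith

/-- Hoeffding on a product space -/
theorem log_mean_exp_le {ι : Type*} [Fintype ι] {T : ι → Type*} [∀ i, Fintype (T i)]
    [∀ i, Nonempty (T i)] (u : ∀ i, T i → ℝ) (h0 : ∀ i, ∑ t, u i t = 0)
    (h1 : ∀ i t, |u i t| ≤ 1) :
    Real.log ((∑ w : ∀ i, T i, Real.exp (∑ i, u i (w i))) / Fintype.card (∀ i, T i)) ≤
      ∑ i, (∑ t, u i t ^ 2) / Fintype.card (T i) := by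
  have hT : ∀ i, (0 : ℝ) < Fintype.card (T i) := fun i => by exact_mod_cast Fintype.card_pos
  have e : (∑ w : ∀ i, T i, Real.exp (∑ i, u i (w i))) / Fintype.card (∀ i, T i)
      = ∏ i, (∑ t, Real.exp (u i t)) / Fintype.card (T i) := by
    rw [prod_div_distrib, Fintype.card_pi, Fintype.prod_sum]
    push_cast
    simp only [Real.exp_sum]
  have hp : ∀ i, 0 < (∑ t, Real.exp (u i t)) / Fintype.card (T i) := fun i =>
    div_pos (sum_pos (fun _ _ => Real.exp_pos _) univ_nonempty) (hT i)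
  rw [e, Real.log_prod (fun i _ => (hp i).ne')]
  refine sum_le_sum fun i _ => (Real.log_le_sub_one_of_pos (hp i)).trans ?_
  have : ∑ t, Real.exp (u i t) ≤ ∑ t, (1 + u i t + u i t ^ 2) := by
    refine sum_le_sum fun t _ => ?_
    have := Real.abs_exp_sub_one_sub_id_le (h1 i t)
    have := (abs_le.1 this).2
    linarith
  rw [sum_add_distrib, sum_add_distrib, h0 i, sum_const, card_univ, nsmul_eq_mul, mul_one,
    add_zero] at this
  rw [sub_le_iff_le_add, div_le_iff₀ (hT i), add_mul, div_mul_cancel₀ _ (hT i).ne']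
  linarith

end Ent76

end

end

section

/-! h4o section E: entropy decrement and final summation (helper81). -/

set_option autoImplicit false

open Polynomial Finset Filter
open scoped Classical BigOperators

noncomputable section
namespace Pool.Agent.H4O
open Ent76

section DEC
variable {k : Type} [Field k] [Fintype k]

/-- The correlation in degree `n`. -/
def cor {ι : Type*} [Fintype ι] (h : ι → k[X]) (M a : k[X]) (n : ℕ) : ℝ :=
  𝔼 f ∈ mon k n, (if M ∣ f - a then 1 else 0) * ∏ i, lam (f + h i)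

theorem dec_mono {Ω A B : Type*} {S : Finset Ω} {φ : Ω → A} {ψ : Ω → B}
    (h : ∀ ω ∈ S, ∀ ω' ∈ S, ψ ω' = ψ ω → φ ω' = φ ω) : ent S φ ≤ ent S ψ := by
  unfold ent
  refine div_le_div_of_nonneg_right (sum_le_sum fun ω hω => ?_) (by positivity)
  exact neg_le_neg (Real.log_le_log (pr_pos ψ hω) (pr_mono fun ω' hω' => h ω hω ω' hω'))

theorem dec_var {Ω A I T : Type*} [Fintype I] [Fintype T] [Nonempty T] {S : Finset Ω}
    (hS : S.Nonempty) (φ : Ω → A) (W : Ω → I → T) (u : A → I → T → ℝ) {b : ℝ} (hb : b ≤ 1)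
    (h0 : ∀ ω i, ∑ t, u (φ ω) i t = 0) (h1 : ∀ ω i t, |u (φ ω) i t| ≤ b) :
    𝔼 ω ∈ S, ∑ i, u (φ ω) i (W ω i) ≤ ent S φ + Fintype.card I * Real.log (Fintype.card T)
      - ent S (fun ω => (φ ω, W ω)) + b ^ 2 * Fintype.card I := by
  have key := variational hS φ W fun z w => ∑ i, u z i (w i)
  have cT : (0 : ℝ) < Fintype.card T := by exact_mod_cast Fintype.card_pos
  have cS : (0 : ℝ) < #S := by exact_mod_cast card_pos.2 hS
  have e := sum_le_card_nsmul S _ (b ^ 2 * Fintype.card I) fun ω _ =>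
    (log_mean_exp_le (T := fun _ : I => T) (u (φ ω)) (h0 ω)
      fun i t => (h1 ω i t).trans hb).trans (by
      refine (sum_le_card_nsmul _ _ (b ^ 2) fun i _ => ?_).trans (by simp [mul_comm])
      rw [div_le_iff₀ cT]
      refine (sum_le_card_nsmul _ _ (b ^ 2) fun t _ => ?_).trans (by simp [mul_comm])
      exact sq_le_sq' (abs_le.1 (h1 ω i t)).1 (abs_le.1 (h1 ω i t)).2)
  rw [nsmul_eq_mul, ← div_le_iff₀' cS] at e
  rw [Fintype.card_fun, Nat.cast_pow, Real.log_pow] at key
  rw [Fintype.card_fun, Nat.cast_pow] at e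
  rw [expect_eq_sum_div_card]
  linarith

theorem dec_q : (0 : ℝ) < qq k := by linarith [two_le_qq (k := k)]

theorem dec_entY {N : k[X]} (hN : N ≠ 0) {n : ℕ} (hn : N.natDegree ≤ n) :
    ent (mon k n) (AdjoinRoot.mk N) = N.natDegree * Real.log (qq k) := by
  have e : ∀ x, pr (mon k n) (AdjoinRoot.mk N) (AdjoinRoot.mk N x) = 1 / qq k ^ N.natDegree := by
    intro x
    have e1 : pr (mon k n) (AdjoinRoot.mk N) (AdjoinRoot.mk N x) =
        𝔼 f ∈ mon k n, (if N ∣ f - x then (1 : ℝ) else 0) := by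
      rw [expect_eq_sum_div_card, sum_boole]
      simp only [pr, AdjoinRoot.mk_eq_mk]
    have e2 : ∀ t ∈ box k n, 𝔼 f ∈ mon k n, (if N ∣ f - x then (1 : ℝ) else 0) =
        𝔼 f ∈ mon k n, (if N ∣ f - x + 1 * t then (1 : ℝ) else 0) := fun t ht => by
      rw [← exp_mon_shift (mem_box.1 ht)]
      simp only [one_mul, add_sub_right_comm]
    rw [e1, ← expect_const (box_nonempty (k := k) n) (𝔼 f ∈ mon k n, _), expect_congr rfl e2, expect_comm]
    simp only [exp_box_dvd hN hn isCoprime_one_left, expect_const (mon_nonempty (k := k) n)]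
  have c : (#(mon k n) : ℝ) ≠ 0 := by exact_mod_cast (card_pos.2 (mon_nonempty n)).ne'
  simp only [ent, e, one_div, Real.log_inv, neg_neg, Real.log_pow, sum_const, nsmul_eq_mul]
  field_simp

/-- the window of values -/
def decX (H : ℕ) (x : k[X]) : k[X] → ℝ := fun u => if u.degree < H then lam (x + u) else 0

/-- the conditional entropy of the window given the residue class -/
def decH (n H : ℕ) (N : k[X]) : ℝ :=
  ent (mon k n) (fun x => (decX H x, AdjoinRoot.mk N x)) - N.natDegree * Real.log (qq k)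

theorem dec_lam (f : k[X]) : lam f = 1 ∨ lam f = -1 := by
  have := abs_lam f
  rwa [abs_eq zero_le_one] at this

theorem decH_nonneg {N : k[X]} (hN : N ≠ 0) {n : ℕ} (hn : N.natDegree ≤ n) (H : ℕ) :
    0 ≤ decH n H N := by
  rw [decH, ← dec_entY hN hn, sub_nonneg]
  exact dec_mono fun _ _ _ _ h => (Prod.ext_iff.1 h).2

theorem dec_mem {n : ℕ} {x t : k[X]} (hx : x ∈ mon k n) (ht : t.degree < n) : x + t ∈ mon k n := by
  obtain ⟨h1, h2⟩ := mem_mon.1 hx
  have : t.degree < x.degree := by rwa [degree_eq_natDegree h1.ne_zero, h2]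
  exact mem_mon.2 ⟨h1.add_of_left this, by rw [natDegree_add_eq_left_of_degree_lt this, h2]⟩

theorem decH_succ {N : k[X]} (hN : N ≠ 0) {n : ℕ} (hn : N.natDegree ≤ n) {H : ℕ} (hH : H < n) :
    decH n (H + 1) N ≤ qq k * decH n H N := by
  have key := ent_pi_le (mon_nonempty (k := k) n) (fun (t : k) x => decX H (x + monomial H t))
    (AdjoinRoot.mk N)
  have e : ∀ t : k, ent (mon k n) (fun x => (decX H (x + monomial H t), AdjoinRoot.mk N x)) =
      ent (mon k n) (fun x => (decX H x, AdjoinRoot.mk N x)) := fun t => by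
    rw [← ent_comp (fun x => (decX H x, AdjoinRoot.mk N x)) (fun x => x + monomial H t)
      (fun x hx => dec_mem hx ((degree_monomial_le _ _).trans_lt (by exact_mod_cast hH)))
      (fun _ _ _ _ h => add_right_cancel h)]
    exact ent_congr fun x _ y _ => by simp
  simp only [e, sum_const, card_univ, nsmul_eq_mul, dec_entY hN hn] at key
  refine le_trans (sub_le_sub_right (dec_mono fun x _ y _ h => ?_) _) key
  obtain ⟨h1, h2⟩ := Prod.ext_iff.1 h
  refine Prod.ext (_root_.funext fun u => ?_) h2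
  have h3 := congrFun (congrFun h1 (u.coeff H)) (u - monomial H (u.coeff H))
  simp only [decX] at h3 ⊢
  split_ifs with c
  · have : (u - monomial H (u.coeff H)).degree < H := by
      rw [degree_lt_iff_coeff_zero] at c ⊢
      intro m hm
      rcases hm.eq_or_lt with rfl | hm
      · simp
      · rw [coeff_sub, c m hm, coeff_monomial, if_neg hm.ne, sub_zero]
    simpa [this, add_assoc] using h3
  · rfl

theorem decH_le {N : k[X]} (hN : N ≠ 0) {n : ℕ} (hn : N.natDegree ≤ n) {H : ℕ} (hH : H ≤ n) :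
    decH n H N ≤ qq k ^ H * Real.log 2 := by
  induction H with
  | zero =>
    have key := ent_pair_le (mon_nonempty (k := k) n) (AdjoinRoot.mk N)
      fun x => decide (lam x = 1)
    rw [dec_entY hN hn, Fintype.card_bool] at key
    have : ent (mon k n) (fun x => (decX 0 x, AdjoinRoot.mk N x)) ≤
        ent (mon k n) fun x => (AdjoinRoot.mk N x, decide (lam x = 1)) := by
      refine dec_mono fun x _ y _ h => ?_
      obtain ⟨h1, h2⟩ := Prod.ext_iff.1 h
      refine Prod.ext (_root_.funext fun u => ?_) h1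
      simp only [decX, decide_eq_decide] at h2 ⊢
      split_ifs with c
      · have : u = 0 := by
          by_contra h0
          rw [degree_eq_natDegree h0] at c
          exact absurd (by exact_mod_cast c) (Nat.not_lt_zero u.natDegree)
        subst this
        rw [add_zero, add_zero]
        rcases dec_lam x with a | a <;> rcases dec_lam y with b | b <;> rw [a, b] at h2 ⊢
        · norm_num at h2
        · norm_num at h2
      · rfl
    simp only [decH, pow_zero, one_mul]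
    push_cast at key
    linarith
  | succ H ih =>
    refine (decH_succ hN hn hH).trans ?_
    rw [pow_succ', mul_assoc]
    exact mul_le_mul_of_nonneg_left (ih (by omega)) dec_q.le

variable {ι : Type*} [Fintype ι]

/-- the dilated product -/
def decF (h : ι → k[X]) (M a P x : k[X]) : ℝ :=
  (if M ∣ x - a * P then 1 else 0) * ∏ i, lam (x + P * h i)

theorem decF_le (h : ι → k[X]) (M a P x : k[X]) : |decF h M a P x| ≤ 1 := by
  rw [decF, abs_mul, abs_prod]
  simp only [abs_lam, prod_const_one, mul_one]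
  split_ifs <;> simp

theorem dec_prs {d : ℕ} {P : k[X]} (hP : P ∈ prs k d) :
    P.Monic ∧ Irreducible P ∧ P.natDegree = d :=
  ⟨(mem_mon.1 (mem_filter.1 hP).1).1, (mem_filter.1 hP).2, (mem_mon.1 (mem_filter.1 hP).1).2⟩

theorem dec_mod {d : ℕ} {P : k[X]} (hP : P ∈ prs k d) (x : k[X]) : x %ₘ P ∈ box k d := by
  obtain ⟨h1, -, h3⟩ := dec_prs hP
  rw [mem_box, ← h3, ← degree_eq_natDegree h1.ne_zero]
  exact degree_modByMonic_lt _ h1

theorem dec_main (h : ι → k[X]) (M a : k[X]) {c d m : ℕ} (hc : ∀ i, (h i).degree < c)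
    (hd : M.natDegree < d) (hM : M ≠ 0) (hm : c ≤ m) {P : k[X]} (hP : P ∈ prs k d) :
    lam P ^ Fintype.card ι * 𝔼 x ∈ mon k (m + d), decF h M a P (x - x %ₘ P) = cor h M a m := by
  obtain ⟨h1, h2, h3⟩ := dec_prs hP
  have e1 : ∀ x, decF h M a P (x - x %ₘ P) =
      ∑ w ∈ box k d, (if P ∣ x + -w then decF h M a P (x + -w) else 0) := fun x => by
    rw [sum_eq_single_of_mem (x %ₘ P) (dec_mod hP x) fun w hw hne => if_neg fun hd => hne ?_,
      if_pos ⟨x /ₘ P, by linear_combination -modByMonic_add_div x P⟩, sub_eq_add_neg]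
    refine sub_eq_zero.1 (eq_zero_of_dvd_of_degree_lt (p := P) ?_ ?_)
    · obtain ⟨y, hy⟩ := hd
      exact ⟨x /ₘ P - y, by linear_combination -modByMonic_add_div x P - hy⟩
    · rw [degree_eq_natDegree h1.ne_zero, h3]
      exact (degree_sub_le _ _).trans_lt (max_lt (mem_box.1 hw) (mem_box.1 (dec_mod hP x)))
  have e2 : ∀ w ∈ box k d, 𝔼 x ∈ mon k (m + d), (if P ∣ x + -w then decF h M a P (x + -w) else 0) =
      𝔼 x ∈ mon k (m + d), (if P ∣ x then decF h M a P x else 0) := fun w hw =>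
    exp_mon_shift (by
      rw [degree_neg]
      exact (mem_box.1 hw).trans_le (by exact_mod_cast Nat.le_add_left d m))
      fun x => if P ∣ x then decF h M a P x else 0
  have e3 := exp_mon_mul (n := m) h1 (decF h M a P)
  rw [h3] at e3
  simp only [e1]
  rw [expect_sum_comm, sum_congr rfl e2, sum_const, nsmul_eq_mul, card_box, ← e3, mul_expect, cor]
  refine expect_congr rfl fun f hf => ?_
  have cop : IsCoprime M P := (h2.coprime_iff_not_dvd.2 fun c =>
    absurd (natDegree_le_of_dvd c hM) (by omega)).symm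
  have e4 : M ∣ P * f - a * P ↔ M ∣ f - a := by
    rw [show P * f - a * P = P * (f - a) by ring]
    exact ⟨cop.dvd_of_dvd_mul_left, fun c => c.mul_left _⟩
  have e5 : ∀ i, lam (P * f + P * h i) = lam P * lam (f + h i) := fun i => by
    rw [← mul_add]
    exact lam_mul h1.ne_zero (mem_mon.1 (dec_mem hf ((hc i).trans_le
      (by exact_mod_cast hm)))).1.ne_zero
  simp only [decF, e4, e5, prod_mul_distrib, prod_const, card_univ]
  have e6 : lam P ^ Fintype.card ι * lam P ^ Fintype.card ι = 1 := by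
    rw [← mul_pow, lam_mul_self, one_pow]
  linear_combination ((if M ∣ f - a then (1 : ℝ) else 0) * ∏ i, lam (f + h i)) * e6

theorem dec_crt {d : ℕ} {N : k[X]} (hN : ∀ P ∈ prs k d, ¬ P ∣ N) (x y : k[X]) :
    N * ∏ P ∈ prs k d, P ∣ x - y ↔ N ∣ x - y ∧ ∀ P ∈ prs k d, x %ₘ P = y %ₘ P := by
  have e : ∀ P ∈ prs k d, (x %ₘ P = y %ₘ P ↔ P ∣ x - y) := fun P hP => by
    rw [← modByMonic_eq_zero_iff_dvd (dec_prs hP).1, sub_modByMonic, sub_eq_zero]
  refine ⟨fun c => ⟨(dvd_mul_right _ _).trans c, fun P hP => (e P hP).2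
    (((dvd_prod_of_mem _ hP).mul_left N).trans c)⟩, fun ⟨c1, c2⟩ => ?_⟩
  refine IsCoprime.mul_dvd (IsCoprime.prod_right fun P hP =>
    ((dec_prs hP).2.1.coprime_iff_not_dvd.2 (hN P hP)).symm) c1
    (prod_dvd_of_coprime (fun P hP Q hQ hne => ?_) fun P hP => (e P hP).1 (c2 P hP))
  obtain ⟨a1, a2, -⟩ := dec_prs hP
  obtain ⟨b1, b2, -⟩ := dec_prs hQ
  exact a2.coprime_iff_not_dvd.2 fun c =>
    hne (eq_of_monic_of_associated a1 b1 (a2.associated_of_dvd b2 c))

theorem dec_step (h : ι → k[X]) {M N : k[X]} (a : k[X]) {c d m : ℕ} (hc : ∀ i, (h i).degree < c)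
    (hd : M.natDegree < d) (hN0 : N ≠ 0) (hMN : M ∣ N) (hN : ∀ P ∈ prs k d, ¬ P ∣ N) (hm : c ≤ m)
    {s : ℝ} (hs : |s| ≤ 1 / 2) :
    s * (#(prs k d) * cor h M a m - ∑ P ∈ prs k d, lam P ^ Fintype.card ι *
      𝔼 x ∈ mon k (m + d), decF h M a P x) ≤
      decH (m + d) (d + c) N - decH (m + d) (d + c) (N * ∏ P ∈ prs k d, P)
        + 4 * s ^ 2 * #(prs k d) := by
  have hM : M ≠ 0 := fun c => hN0 (by simpa [c] using hMN)
  have : Nonempty (box k d) := (box_nonempty d).to_subtype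
  set g : (k[X] → ℝ) × AdjoinRoot N → k[X] → k[X] → ℝ := fun z P w =>
    (if ∃ y, AdjoinRoot.mk N y = z.2 ∧ M ∣ y - w - a * P then 1 else 0) *
      ∏ i, z.1 (-w + P * h i) with hg
  set φ : k[X] → (k[X] → ℝ) × AdjoinRoot N := fun x => (decX (d + c) x, AdjoinRoot.mk N x)
  have e1 : ∀ x, ∀ P ∈ prs k d, ∀ w ∈ box k d, g (φ x) P w = decF h M a P (x - w) := by
    intro x P hP w hw
    simp only [hg, φ, decF, decX]
    congr 1
    · refine if_congr ⟨fun ⟨y, h1, h2⟩ => ?_, fun h1 => ⟨x, rfl, h1⟩⟩ rfl rfl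
      have := dvd_sub h2 (hMN.trans (AdjoinRoot.mk_eq_mk.1 h1))
      rwa [show y - w - a * P - (y - x) = x - w - a * P by ring] at this
    · refine prod_congr rfl fun i _ => ?_
      rw [if_pos, sub_eq_add_neg, add_assoc]
      refine (degree_add_le _ _).trans_lt (max_lt ?_ ?_)
      · rw [degree_neg]
        exact (mem_box.1 hw).trans_le (by exact_mod_cast Nat.le_add_right d c)
      · rw [degree_mul, degree_eq_natDegree (dec_prs hP).1.ne_zero, (dec_prs hP).2.2, Nat.cast_add]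
        exact WithBot.add_lt_add_left (WithBot.natCast_ne_bot d) (hc i)
  set u : (k[X] → ℝ) × AdjoinRoot N → prs k d → box k d → ℝ := fun z P w =>
    s * lam (P : k[X]) ^ Fintype.card ι * (g z P w - 𝔼 w' ∈ box k d, g z P w') with hu
  have u1 : ∀ x P w, |u (φ x) P w| ≤ 2 * |s| := fun x P w => by
    have b : ∀ w ∈ box k d, |g (φ x) P w| ≤ 1 := fun w hw => e1 x P P.2 w hw ▸ decF_le ..
    have b2 : |𝔼 w' ∈ box k d, g (φ x) P w'| ≤ 1 :=
      (abs_expect_le _ _).trans (expect_le (box_nonempty d) b)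
    simp only [hu, abs_mul, abs_pow, abs_lam, one_pow, mul_one]
    nlinarith [abs_sub (g (φ x) P w) (𝔼 w' ∈ box k d, g (φ x) P w'), b w w.2, abs_nonneg s]
  have cb : (0 : ℝ) < #(box k d) := by exact_mod_cast card_pos.2 (box_nonempty d)
  have key := dec_var (mon_nonempty (k := k) (m + d)) φ
    (fun x (P : prs k d) => (⟨x %ₘ P, dec_mod P.2 x⟩ : box k d)) u (b := 2 * |s|) (by linarith)
    (fun x P => by
      simp only [hu]
      rw [← mul_sum, sum_sub_distrib, sum_coe_sort (box k d) (g (φ x) P), sum_const, card_univ,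
        Fintype.card_coe, nsmul_eq_mul, expect_eq_sum_div_card, mul_div_cancel₀ _ cb.ne', sub_self,
        mul_zero]) u1
  have e2 : ent (mon k (m + d)) (fun x => (φ x, fun P : prs k d =>
      (⟨x %ₘ P, dec_mod P.2 x⟩ : box k d))) = ent (mon k (m + d))
      fun x => (decX (d + c) x, AdjoinRoot.mk (N * ∏ P ∈ prs k d, P) x) :=
    ent_congr fun x _ y _ => by
      simp only [φ, Prod.mk.injEq, AdjoinRoot.mk_eq_mk, dec_crt hN, and_assoc, funext_iff,
        Subtype.mk.injEq, Subtype.forall]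
  have e3 : ((N * ∏ P ∈ prs k d, P).natDegree : ℝ) = N.natDegree + #(prs k d) * d := by
    rw [natDegree_mul hN0 (prod_ne_zero_iff.2 fun P hP => (dec_prs hP).1.ne_zero),
      natDegree_prod_of_monic _ _ fun P hP => (dec_prs hP).1,
      sum_congr rfl fun P hP => (dec_prs hP).2.2]
    simp
  have e4 : 𝔼 x ∈ mon k (m + d), ∑ P : prs k d, u (φ x) P ⟨x %ₘ P, dec_mod P.2 x⟩
      = s * (#(prs k d) * cor h M a m - ∑ P ∈ prs k d, lam P ^ Fintype.card ι *
      𝔼 x ∈ mon k (m + d), decF h M a P x) := by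
    rw [expect_sum_comm, ← nsmul_eq_mul, ← sum_const, ← sum_sub_distrib,
      mul_sum, ← sum_coe_sort (prs k d)]
    refine sum_congr rfl fun P _ => ?_
    have e5 : 𝔼 x ∈ mon k (m + d), 𝔼 w ∈ box k d, g (φ x) P w =
        𝔼 x ∈ mon k (m + d), decF h M a P x := by
      rw [expect_comm, expect_congr rfl (g := fun _ => 𝔼 x ∈ mon k (m + d), decF h M a P x)
        fun w hw => ?_, expect_const (box_nonempty d)]
      simp only [e1 _ P P.2 w hw, sub_eq_add_neg]
      exact exp_mon_shift (by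
        rw [degree_neg]
        exact (mem_box.1 hw).trans_le (by exact_mod_cast Nat.le_add_left d m)) _
    simp only [hu]
    rw [← mul_expect, expect_sub_distrib, e5, ← dec_main h M a hc hd hM hm P.2]
    simp only [e1 _ P P.2 _ (dec_mod P.2 _)]
    ring
  rw [e4, e2, Fintype.card_coe, Fintype.card_coe, card_box, Real.log_pow, mul_pow, sq_abs] at key
  simp only [decH, e3]
  linarith

/-- the moduli -/
def decN (M : k[X]) (d0 j : ℕ) : k[X] := M * ∏ i ∈ range j, ∏ P ∈ prs k (d0 + i), P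

theorem decN_ne {M : k[X]} (hM : M ≠ 0) (d0 j : ℕ) : decN M d0 j ≠ 0 :=
  mul_ne_zero hM (prod_ne_zero_iff.2 fun _ _ => prod_ne_zero_iff.2 fun _ hP =>
    (dec_prs hP).1.ne_zero)

theorem decN_succ (M : k[X]) (d0 j : ℕ) :
    decN M d0 (j + 1) = decN M d0 j * ∏ P ∈ prs k (d0 + j), P := by
  rw [decN, decN, prod_range_succ, mul_assoc]

theorem decN_cop {M : k[X]} (hM : M ≠ 0) {d0 : ℕ} (hd : M.natDegree < d0) (j : ℕ) :
    ∀ P ∈ prs k (d0 + j), ¬ P ∣ decN M d0 j := fun P hP c => by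
  obtain ⟨-, h2, h3⟩ := dec_prs hP
  rcases h2.prime.dvd_or_dvd c with c | c
  · exact absurd (natDegree_le_of_dvd c hM) (by omega)
  · obtain ⟨i, hi, c⟩ := (h2.prime.dvd_finsetProd_iff _).1 c
    obtain ⟨Q, hQ, c⟩ := (h2.prime.dvd_finsetProd_iff _).1 c
    have := natDegree_le_of_dvd c (dec_prs hQ).1.ne_zero
    rw [(dec_prs hQ).2.2] at this
    rw [mem_range] at hi
    omega

theorem cor_abs_le (h : ι → k[X]) (M a : k[X]) (n : ℕ) : |cor h M a n| ≤ 1 :=
  (abs_expect_le _ _).trans (expect_le (mon_nonempty n) fun x _ => by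
    simpa [decF] using decF_le h M a 1 x)

theorem dec_sum (h : ι → k[X]) {M : k[X]} (a : k[X]) (hM : M ≠ 0) {c d0 J n : ℕ}
    (hc : ∀ i, (h i).degree < c) (hd : M.natDegree < d0) (hn : d0 + J + c < n)
    (hN : (decN M d0 J).natDegree ≤ n) {ε : ℝ} (h0 : 0 < ε) (h1 : ε ≤ 1 / 2)
    (hD : ∀ j < J, |𝔼 P ∈ prs k (d0 + j), lam P ^ Fintype.card ι *
      𝔼 x ∈ mon k n, decF h M a P x| ≤ ε) :
    ∑ j ∈ range J, #(prs k (d0 + j)) / qq k ^ (d0 + j) * |cor h M a (n - (d0 + j))| ≤
      5 * ε * ∑ j ∈ range J, #(prs k (d0 + j)) / qq k ^ (d0 + j) + qq k ^ c * Real.log 2 / ε := by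
  have q := dec_q (k := k)
  have dN : ∀ j ≤ J, (decN M d0 j).natDegree ≤ n := fun j hj =>
    (natDegree_le_of_dvd (mul_dvd_mul_left M (prod_dvd_prod_of_subset _ _ _
      (range_mono hj))) (decN_ne hM d0 J)).trans hN
  set A : ℕ → ℝ := fun j => decH n (d0 + j + c) (decN M d0 j) / qq k ^ (d0 + j) with hA
  have st : ∀ j ∈ range J, ε * (#(prs k (d0 + j)) / qq k ^ (d0 + j) * |cor h M a (n - (d0 + j))|) ≤
      A j - A (j + 1) + 5 * ε ^ 2 * (#(prs k (d0 + j)) / qq k ^ (d0 + j)) := fun j hj => by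
    rw [mem_range] at hj
    have e : n - (d0 + j) + (d0 + j) = n := by omega
    have s1 : ∀ s : ℝ, |s| ≤ 1 / 2 → _ := fun s hs => dec_step h a hc (d := d0 + j)
      (m := n - (d0 + j)) (by omega) (decN_ne hM d0 j) (dvd_mul_right _ _) (decN_cop hM hd j)
      (by omega) (s := s) hs
    rw [e, ← decN_succ] at s1
    have s2 := decH_succ (decN_ne hM d0 (j + 1)) (dN _ hj) (H := d0 + j + c) (by omega)
    have s3 := hD j hj
    have cp : (0 : ℝ) < #(prs k (d0 + j)) := by
      have := card_prs (k := k) (e := d0 + j) (by omega)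
      by_contra c
      nlinarith [pow_pos q (d0 + j), (Nat.cast_nonneg (d0 + j) : (0 : ℝ) ≤ _)]
    rw [expect_eq_sum_div_card, abs_div, abs_of_pos cp, div_le_iff₀ cp, abs_le] at s3
    have s4 := s1 ε (by rwa [abs_of_pos h0])
    have s5 := s1 (-ε) (by rwa [abs_neg, abs_of_pos h0])
    have s6 : ε * (#(prs k (d0 + j)) * |cor h M a (n - (d0 + j))|) ≤
        decH n (d0 + j + c) (decN M d0 j) - decH n (d0 + j + c) (decN M d0 (j + 1))
          + 5 * ε ^ 2 * #(prs k (d0 + j)) := by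
      rcases abs_cases (cor h M a (n - (d0 + j))) with ⟨b, -⟩ | ⟨b, -⟩ <;> rw [b] <;>
        nlinarith [mul_le_mul_of_nonneg_left s3.1 h0.le, mul_le_mul_of_nonneg_left s3.2 h0.le]
    have s7 : A (j + 1) ≤ decH n (d0 + j + c) (decN M d0 (j + 1)) / qq k ^ (d0 + j) := by
      simp only [hA]
      rw [show d0 + (j + 1) + c = d0 + j + c + 1 by ring, ← add_assoc, pow_succ', ← div_div]
      exact div_le_div_of_nonneg_right ((div_le_iff₀' q).2 s2) (pow_pos q _).le
    have s8 := div_le_div_of_nonneg_right s6 (pow_pos q (d0 + j)).le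
    simp only [hA] at s7 ⊢
    rw [add_div, sub_div] at s8
    calc _ = ε * (#(prs k (d0 + j)) * |cor h M a (n - (d0 + j))|) / qq k ^ (d0 + j) := by ring
      _ ≤ _ := s8.trans (by rw [mul_div_assoc]; linarith)
  have t := sum_le_sum st
  rw [sum_add_distrib, sum_range_sub', ← mul_sum, ← mul_sum] at t
  have t1 : 0 ≤ A J := div_nonneg (decH_nonneg (decN_ne hM _ _) hN _) (pow_pos q _).le
  have t2 : A 0 ≤ qq k ^ c * Real.log 2 := by
    simp only [hA]
    rw [div_le_iff₀' (pow_pos q _), ← mul_assoc, ← pow_add]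
    exact decH_le (decN_ne hM _ _) (dN 0 (by omega)) (by omega)
  rw [← sub_le_iff_le_add', le_div_iff₀ h0]
  nlinarith

theorem decrement (h : ι → k[X]) {M : k[X]} (a : k[X]) (hM : M ≠ 0)
    (hD : ∀ ε : ℝ, 0 < ε → ∀ᶠ d in atTop, ∀ᶠ n in atTop,
      |𝔼 P ∈ prs k d, lam P ^ Fintype.card ι *
        𝔼 x ∈ mon k n, (if M ∣ x - a * P then 1 else 0) * ∏ i, lam (x + P * h i)| ≤ ε)
    {ε : ℝ} (hε : 0 < ε) :
    ∃ T0 : ℕ, ∀ T, T0 ≤ T → ∀ N : ℕ, ∑ n ∈ Ico N (N + T), |cor h M a n| ≤ ε * T := by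
  have q := dec_q (k := k)
  set e : ℝ := min (ε / 7) (1 / 2)
  have e0 : 0 < e := lt_min (by linarith) (by norm_num)
  have e1 : e ≤ ε / 7 := min_le_left _ _
  obtain ⟨d0, hd0⟩ := eventually_atTop.1 ((hD e e0).and (eventually_gt_atTop M.natDegree))
  have hd := (hd0 d0 le_rfl).2
  set c := univ.sup (fun i => (h i).natDegree) + 1
  have hc : ∀ i, (h i).degree < c := fun i => degree_le_natDegree.trans_lt
    (by exact_mod_cast Nat.lt_succ_of_le (le_sup (f := fun i => (h i).natDegree) (mem_univ i)))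
  set w : ℕ → ℝ := fun j => #(prs k (d0 + j)) / qq k ^ (d0 + j) with hw
  have w0 : ∀ j, 0 < w j ∧ 1 / 2 * (1 / ((j + d0 : ℕ) : ℝ)) ≤ w j := fun j => by
    have := card_prs (k := k) (e := d0 + j) (by omega)
    have p : (0 : ℝ) < (d0 + j : ℕ) := by exact_mod_cast (by omega : 0 < d0 + j)
    have : 1 / 2 * (1 / ((j + d0 : ℕ) : ℝ)) ≤ w j := by
      rw [add_comm j, hw, div_mul_div_comm, div_le_div_iff₀ (by positivity) (pow_pos q _)]
      linarith
    exact ⟨lt_of_lt_of_le (by rw [add_comm j]; positivity) this, this⟩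
  have dv : Tendsto (fun J => ∑ j ∈ range J, w j) atTop atTop := by
    refine (not_summable_iff_tendsto_nat_atTop_of_nonneg fun j => (w0 j).1.le).1 fun s => ?_
    have := (Summable.of_nonneg_of_le (fun j => by positivity) (fun j => (w0 j).2) s).mul_left 2
    refine Real.not_summable_one_div_natCast ((summable_nat_add_iff d0).1 (this.congr fun j => ?_))
    ring
  obtain ⟨J, hJ, hJ0⟩ := ((dv.eventually_ge_atTop (qq k ^ c * Real.log 2 / e / e)).and
    (dv.eventually_gt_atTop 0)).exists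
  obtain ⟨n0, hn0⟩ := eventually_atTop.1 (((eventually_all_finset (range J)).2 fun j _ =>
    (hd0 (d0 + j) (by omega)).1).and ((eventually_gt_atTop (d0 + J + c)).and
      (eventually_ge_atTop (decN M d0 J).natDegree)))
  set S := ∑ j ∈ range J, w j
  have k1 : ∀ n, ∑ j ∈ range J, w j * |cor h M a (n - (d0 + j))| ≤
      6 * e * S + if n < n0 then S else 0 := fun n => by
    split_ifs with b
    · have : ∑ j ∈ range J, w j * |cor h M a (n - (d0 + j))| ≤ S := sum_le_sum fun j _ =>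
        mul_le_of_le_one_right (w0 j).1.le (cor_abs_le ..)
      nlinarith [mul_pos e0 hJ0]
    · obtain ⟨b1, b2, b3⟩ := hn0 n (by omega)
      have := dec_sum h a hM hc hd b2 b3 e0 (min_le_right _ _) fun j hj => b1 j (mem_range.2 hj)
      rw [div_le_iff₀ e0] at hJ
      simp only [hw, S] at hJ ⊢
      linarith
  obtain ⟨T0, hT0⟩ := exists_nat_ge ((6 * e * (d0 + J : ℕ) + n0) / (ε / 7))
  refine ⟨T0, fun T hT N => ?_⟩
  have k2 : ∀ j ∈ range J, w j * ∑ n ∈ Ico N (N + T), |cor h M a n| ≤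
      ∑ n ∈ Ico N (N + (T + (d0 + J))), w j * |cor h M a (n - (d0 + j))| := fun j hj => by
    rw [mem_range] at hj
    rw [← mul_sum]
    refine mul_le_mul_of_nonneg_left ?_ (w0 j).1.le
    rw [sum_congr rfl (g := fun n => |cor h M a (n + (d0 + j) - (d0 + j))|) fun n _ => by simp,
      sum_Ico_add' (fun n => |cor h M a (n - (d0 + j))|)]
    exact sum_le_sum_of_subset_of_nonneg (Ico_subset_Ico (by omega) (by omega))
      fun _ _ _ => abs_nonneg _
  have k3 := sum_le_sum k2
  rw [← sum_mul, sum_comm] at k3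
  have k4 := k3.trans (sum_le_sum fun n _ => k1 n)
  rw [sum_add_distrib, sum_const, ← sum_filter, sum_const, Nat.card_Ico, add_tsub_cancel_left,
    nsmul_eq_mul, nsmul_eq_mul] at k4
  have k5 : (#{n ∈ Ico N (N + (T + (d0 + J))) | n < n0} : ℝ) ≤ n0 := by
    exact_mod_cast (card_le_card fun n hn => mem_range.2 (mem_filter.1 hn).2).trans
      (card_range n0).le
  rw [div_le_iff₀ (by linarith)] at hT0
  have k6 : (T0 : ℝ) ≤ T := by exact_mod_cast hT
  refine le_of_mul_le_mul_left (k4.trans ?_) hJ0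
  rw [Nat.cast_add T]
  have k7 : (0 : ℝ) ≤ T := Nat.cast_nonneg T
  have k8 : (T + ((d0 + J : ℕ) : ℝ)) * (6 * e) + n0 ≤ ε * T := by nlinarith
  nlinarith [mul_le_mul_of_nonneg_left k8 hJ0.le, mul_le_mul_of_nonneg_left k5 hJ0.le]

end DEC
end Pool.Agent.H4O

end

end

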