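import Pool.Agent.MP_a4a062_nt.H4O.A
import Pool.Agent.H48G.Parity
import Pool.Agent.MP_1609a8_nt.H76.Weil

/-! Chowla correlations over `k[X]` in odd characteristic: Pellet, Weil, van der Corput on good lines. -/

section

/-! The Jacobi symbol of `F[X]`, Pellet's formula and the Moebius function on a line. -/

set_option autoImplicit false

open Polynomial Finset
open scoped Classical

noncomputable section
namespace Pool.Agent.H48P

open Pool.Agent.H48G

section Res

variable {F : Type*} [Field F]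

lemma res_map {K : Type*} [Field K] [IsAlgClosed K] [Algebra F K] {a : F[X]} (ha : a.Monic)
    (b : F[X]) : algebraMap F K (resultant a b) =
      pr (a.map (algebraMap F K)) (b.map (algebraMap F K)) := by
  have h := resultant_eq_prod_eval (a.map (algebraMap F K)) (b.map (algebraMap F K)) b.natDegree
    natDegree_map_le (IsAlgClosed.splits _)
  rw [(ha.map _).leadingCoeff, one_pow, one_mul, ha.natDegree_map, resultant_map_map] at h
  exact h

lemma res_mul_right {a : F[X]} (ha : a.Monic) (b c : F[X]) :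
    resultant a (b * c) = resultant a b * resultant a c := by
  apply (algebraMap F (AlgebraicClosure F)).injective
  rw [map_mul, res_map ha, res_map ha, res_map ha, Polynomial.map_mul, pr_mul]

lemma res_mul_left {a b : F[X]} (ha : a.Monic) (hb : b.Monic) (c : F[X]) :
    resultant (a * b) c = resultant a c * resultant b c := by
  apply (algebraMap F (AlgebraicClosure F)).injective
  rw [map_mul, res_map ha, res_map hb, res_map (ha.mul hb), Polynomial.map_mul]
  unfold pr
  rw [roots_mul ((ha.map _).mul (hb.map _)).ne_zero, Multiset.map_add, Multiset.prod_add]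

lemma res_congr {a b c : F[X]} (ha : a.Monic) (h : a ∣ b - c) :
    resultant a b = resultant a c := by
  apply (algebraMap F (AlgebraicClosure F)).injective
  rw [res_map ha, res_map ha]
  refine pr_congr fun x hx => ?_
  obtain ⟨d, hd⟩ := h
  have h0 : (a.map (algebraMap F (AlgebraicClosure F))).eval x = 0 := isRoot_of_mem_roots hx
  have e : b = c + a * d := by rw [← hd]; ring
  rw [e, Polynomial.map_add, Polynomial.map_mul, eval_add, eval_mul, h0, zero_mul, add_zero]

lemma res_comm (a b : F[X]) :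
    resultant a b = (-1) ^ (a.natDegree * b.natDegree) * resultant b a := resultant_comm ..

lemma res_C (a : F[X]) (c : F) : resultant a (C c) = c ^ a.natDegree := by
  rw [natDegree_C, resultant_C_zero_right]

lemma res_ne_zero {a b : F[X]} (ha : a.Monic) : resultant a b ≠ 0 ↔ IsCoprime a b := by
  rw [← isUnit_iff_ne_zero]
  exact isUnit_resultant_iff_isCoprime ha

lemma choose_add (m n : ℕ) :
    (m + n) * (m + n - 1) / 2 = m * (m - 1) / 2 + n * (n - 1) / 2 + m * n := by
  rw [← Nat.choose_two_right, ← Nat.choose_two_right, ← Nat.choose_two_right]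
  induction n with
  | zero => simp
  | succ n ih =>
    rw [← add_assoc, Nat.choose_succ_succ' (m + n) 1, ih, Nat.choose_succ_succ' n 1]
    simp only [Nat.choose_one_right]
    ring

/-- The discriminant of a monic polynomial. -/
def dis (f : F[X]) : F :=
  (-1) ^ (f.natDegree * (f.natDegree - 1) / 2) * resultant f (derivative f)

lemma dis_mul {a b : F[X]} (ha : a.Monic) (hb : b.Monic) :
    dis (a * b) = dis a * dis b * resultant a b ^ 2 := by
  unfold dis
  have h1 : resultant a (derivative (a * b)) = resultant a (derivative a) * resultant a b := by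
    rw [← res_mul_right ha]
    exact res_congr ha ⟨derivative b, by rw [derivative_mul]; ring⟩
  have h2 : resultant b (derivative (a * b)) = resultant b (derivative b) * resultant b a := by
    rw [← res_mul_right hb]
    exact res_congr hb ⟨derivative a, by rw [derivative_mul]; ring⟩
  rw [res_mul_left ha hb, h1, h2, ha.natDegree_mul hb, choose_add, res_comm b a, pow_add, pow_add,
    mul_comm b.natDegree a.natDegree]
  have h3 : ((-1 : F) ^ (a.natDegree * b.natDegree)) * (-1) ^ (a.natDegree * b.natDegree) = 1 := by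
    rw [← mul_pow]; simp
  linear_combination ((-1 : F) ^ (a.natDegree * (a.natDegree - 1) / 2) *
    (-1) ^ (b.natDegree * (b.natDegree - 1) / 2) * resultant a (derivative a) *
    resultant b (derivative b) * resultant a b ^ 2) * h3

lemma card_factors_mul {a b : F[X]} (ha : a ≠ 0) (hb : b ≠ 0) :
    (UniqueFactorizationMonoid.factors (a * b)).card =
      (UniqueFactorizationMonoid.factors a).card + (UniqueFactorizationMonoid.factors b).card := by
  rw [Multiset.card_eq_card_of_rel (UniqueFactorizationMonoid.factors_mul ha hb), Multiset.card_add]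

lemma card_factors_irr {a : F[X]} (ha : Irreducible a) :
    (UniqueFactorizationMonoid.factors a).card = 1 :=
  UniqueFactorizationMonoid.card_factors_of_irreducible ha

end Res

variable {F : Type*} [Field F] [Fintype F]

/-- The quadratic character of `F`, with real values. -/
def chi (c : F) : ℝ := ((quadraticChar F c : ℤ) : ℝ)

lemma chi_mul (a b : F) : chi (a * b) = chi a * chi b := by
  unfold chi; rw [map_mul, Int.cast_mul]

lemma chi_zero : chi (0 : F) = 0 := by simp [chi]

lemma chi_one : chi (1 : F) = 1 := by simp [chi]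

lemma chi_mul_self {a : F} (h : a ≠ 0) : chi a * chi a = 1 := by
  unfold chi
  rw [← Int.cast_mul, ← sq, quadraticChar_sq_one h, Int.cast_one]

lemma abs_chi {a : F} (h : a ≠ 0) : |chi a| = 1 := by
  rcases mul_self_eq_one_iff.mp (chi_mul_self h) with e | e <;> simp [e]

lemma abs_chi_le (a : F) : |chi a| ≤ 1 := by
  by_cases h : a = 0
  · simp [h, chi_zero]
  · exact (abs_chi h).le

lemma chi_eq_zero {a : F} : chi a = 0 ↔ a = 0 := by
  refine ⟨fun h => ?_, fun h => h ▸ chi_zero⟩
  by_contra h0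
  have := chi_mul_self h0
  rw [h] at this
  simp at this

/-- The value of the quadratic character is read off from a square root. -/
lemma chi_of_root (h2 : (2 : F) ≠ 0) {K : Type*} [Field K] [Algebra F K] {c : F} {δ : K} {m : ℕ}
    (h0 : δ ≠ 0) (h1 : δ ^ Fintype.card F = (-1) ^ m * δ) (hc : δ ^ 2 = algebraMap F K c) :
    chi c = (-1) ^ m := by
  have hc0 : c ≠ 0 := by
    rintro rfl
    rw [map_zero] at hc
    exact h0 (pow_eq_zero_iff two_ne_zero |>.mp hc)
  have hF : ringChar F ≠ 2 := by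
    intro h
    exact h2 (by have := ringChar.spec F 2; rw [h] at this; exact_mod_cast this.mpr dvd_rfl)
  have hodd := FiniteField.odd_card_of_char_ne_two hF
  have hp : algebraMap F K (c ^ (Fintype.card F / 2)) = (-1) ^ m := by
    rw [map_pow, ← hc, ← pow_mul]
    apply mul_right_cancel₀ h0
    rw [← h1, ← pow_succ]
    congr 1
    omega
  have hp' : c ^ (Fintype.card F / 2) = (-1) ^ m := by
    apply (algebraMap F K).injective
    rw [hp, map_pow, map_neg, map_one]
  unfold chi
  rw [quadraticChar_eq_pow_of_char_ne_two hF hc0, hp']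
  rcases Nat.even_or_odd m with h | h
  · simp [h.neg_one_pow]
  · have : (-1 : F) ≠ 1 := fun e => h2 (by linear_combination -e)
    simp [h.neg_one_pow, this]

lemma pellet_irr (h2 : (2 : F) ≠ 0) {f : F[X]} (hm : f.Monic) (hi : Irreducible f) :
    chi (dis f) = (-1) ^ (f.natDegree - 1) := by
  obtain ⟨δ, h0, h1, hd⟩ := exists_delta (K := AlgebraicClosure F) hm hi
  refine chi_of_root h2 h0 h1 ?_
  rw [hd, dis, map_mul, res_map hm, derivative_map, map_pow, map_neg, map_one]

/-- Pellet's formula. -/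
theorem pellet (h2 : (2 : F) ≠ 0) {f : F[X]} (hm : f.Monic) (hs : Squarefree f) :
    (-1 : ℝ) ^ (UniqueFactorizationMonoid.factors f).card = (-1) ^ f.natDegree * chi (dis f) := by
  induction hn : f.natDegree using Nat.strong_induction_on generalizing f with
  | _ n ih =>
    subst hn
    by_cases h0 : f.natDegree = 0
    · obtain rfl := eq_one_of_monic_natDegree_zero hm h0
      simp [dis, chi_one]
    · obtain ⟨p, hp, hpi, g, rfl⟩ := f.exists_monic_irreducible_factor
        (not_isUnit_of_natDegree_pos f (Nat.pos_of_ne_zero h0))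
      have hg : g.Monic := hp.of_mul_monic_left hm
      have hpos := hpi.natDegree_pos
      have hc : IsCoprime p g := (IsRelPrime.of_squarefree_mul hs).isCoprime
      have hr : resultant p g ≠ 0 := (res_ne_zero hp).mpr hc
      have ih' := ih g.natDegree (by rw [hp.natDegree_mul hg]; omega) hg hs.of_mul_right rfl
      rw [card_factors_mul hp.ne_zero hg.ne_zero, card_factors_irr hpi, pow_add, ih',
        dis_mul hp hg, chi_mul, chi_mul, sq, chi_mul, chi_mul_self hr, pellet_irr h2 hp hpi,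
        hp.natDegree_mul hg, pow_add]
      obtain ⟨k, hk⟩ : ∃ k, p.natDegree = k + 1 := ⟨p.natDegree - 1, by omega⟩
      rw [hk, Nat.add_sub_cancel, pow_succ (-1 : ℝ) k]
      have h3 : ((-1 : ℝ) ^ k) * (-1) ^ k = 1 := by rw [← mul_pow]; simp
      linear_combination ((-1 : ℝ) ^ g.natDegree * chi (dis g)) * h3

/-- The Jacobi symbol: `b` over the monic modulus `a`. -/
def jac (a b : F[X]) : ℝ := chi (resultant a b)

lemma jac_mul_right {a : F[X]} (ha : a.Monic) (b c : F[X]) :
    jac a (b * c) = jac a b * jac a c := by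
  unfold jac; rw [res_mul_right ha, chi_mul]

lemma jac_mul_left {a b : F[X]} (ha : a.Monic) (hb : b.Monic) (c : F[X]) :
    jac (a * b) c = jac a c * jac b c := by
  unfold jac; rw [res_mul_left ha hb, chi_mul]

lemma jac_congr {a b c : F[X]} (ha : a.Monic) (h : a ∣ b - c) : jac a b = jac a c := by
  unfold jac; rw [res_congr ha h]

lemma jac_comm (a b : F[X]) :
    jac a b = chi ((-1 : F) ^ (a.natDegree * b.natDegree)) * jac b a := by
  unfold jac; rw [res_comm a b, chi_mul]

lemma jac_one_left (b : F[X]) : jac 1 b = 1 := by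
  unfold jac; simp [chi_one]

lemma jac_one_right {a : F[X]} : jac a 1 = 1 := by
  unfold jac; simp [chi_one]

lemma abs_jac_le (a b : F[X]) : |jac a b| ≤ 1 := abs_chi_le _

lemma jac_ne_zero {a b : F[X]} (ha : a.Monic) : jac a b ≠ 0 ↔ IsCoprime a b := by
  unfold jac; rw [Ne, chi_eq_zero]; exact res_ne_zero ha

lemma jac_mul_self {a b : F[X]} (ha : a.Monic) (h : IsCoprime a b) : jac a b * jac a b = 1 :=
  chi_mul_self ((res_ne_zero ha).mpr h)

lemma abs_jac {a b : F[X]} (ha : a.Monic) (h : IsCoprime a b) : |jac a b| = 1 :=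
  abs_chi ((res_ne_zero ha).mpr h)

lemma jac_pow_right {a : F[X]} (ha : a.Monic) (b : F[X]) (n : ℕ) :
    jac a (b ^ n) = jac a b ^ n := by
  induction n with
  | zero => simp [jac_one_right]
  | succ n ih => rw [pow_succ, jac_mul_right ha, ih, pow_succ]

/-- The Moebius function through the Jacobi symbol. -/
theorem mu_eq (h2 : (2 : F) ≠ 0) {f : F[X]} (hm : f.Monic) :
    (if Squarefree f then (-1 : ℝ) ^ (UniqueFactorizationMonoid.factors f).card else 0) =
      (-1) ^ f.natDegree * chi ((-1 : F) ^ (f.natDegree * (f.natDegree - 1) / 2)) *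
        jac f (derivative f) := by
  split_ifs with hs
  · rw [pellet h2 hm hs, dis, chi_mul, mul_assoc]; rfl
  · have : jac f (derivative f) = 0 := by
      by_contra h
      exact hs (Separable.squarefree ((jac_ne_zero hm).mp h))
    rw [this, mul_zero]

/-- On the line `f + g t` with `t' = 0` the Moebius function is a Jacobi symbol modulo the
Wronskian `f' g - f g' = w V`. -/
theorem mu_line (h2 : (2 : F) ≠ 0) {f g V : F[X]} {w : F} (hg : g.Monic) (hc : IsCoprime g f)
    (hw : w ≠ 0) (hV : derivative f * g - f * derivative g = C w * V) (n : ℕ) :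
    ∃ c : ℝ, |c| = 1 ∧ ∀ t : F[X], derivative t = 0 → (f + g * t).Monic →
      (f + g * t).natDegree = n →
      (if Squarefree (f + g * t) then
        (-1 : ℝ) ^ (UniqueFactorizationMonoid.factors (f + g * t)).card else 0) =
        c * jac V (f + g * t) := by
  have hn : ∀ m : ℕ, |chi ((-1 : F) ^ m)| = 1 := fun m => abs_chi (by simp)
  refine ⟨(-1) ^ n * chi ((-1 : F) ^ (n * (n - 1) / 2)) * (chi (w ^ n) *
    chi ((-1 : F) ^ (n * V.natDegree)) * (chi ((-1 : F) ^ (n * g.natDegree)) * jac g f)), ?_, ?_⟩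
  · simp only [abs_mul, hn, abs_jac hg hc, abs_chi (pow_ne_zero n hw), abs_pow, abs_neg, abs_one,
      one_pow, mul_one]
  · intro t ht hm hd
    rw [mu_eq h2 hm, hd]
    set A := f + g * t with hA
    have h1 : jac A g = chi ((-1 : F) ^ (n * g.natDegree)) * jac g f := by
      rw [jac_comm, hd, jac_congr hg (show g ∣ A - f from ⟨t, by rw [hA]; ring⟩)]
    have h3 : jac A g * jac A g = 1 :=
      jac_mul_self hm (by rw [hA]; exact (hc.add_mul_left_right t).symm)
    have h4 : jac A (derivative A) * jac A g =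
        chi (w ^ n) * chi ((-1 : F) ^ (n * V.natDegree)) * jac V A := by
      rw [← jac_mul_right hm, jac_congr (c := C w * V) hm ⟨derivative g, by
        rw [← hV, hA, derivative_add, derivative_mul, ht]; ring⟩, jac_mul_right hm, jac_comm A V,
        hd, jac, res_C, hd, mul_assoc]
    rw [← h1]
    linear_combination ((-1) ^ n * chi ((-1 : F) ^ (n * (n - 1) / 2))) *
      (jac A g * h4 - jac A (derivative A) * h3)

/-- The resultant with a prime is the norm from the residue field. -/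
lemma res_eq_norm {K : Type*} [Field K] {a : K[X]} (ha : a.Monic) [Fact (Irreducible a)]
    (hs : a.Separable) (b : K[X]) :
    resultant a b = Algebra.norm K (AdjoinRoot.mk a b) := by
  let E := AlgebraicClosure K
  have : Module.Finite K (AdjoinRoot a) := (AdjoinRoot.powerBasis ha.ne_zero).finite
  have hmin : minpoly K (AdjoinRoot.powerBasis ha.ne_zero).gen = a := by
    rw [AdjoinRoot.powerBasis_gen, AdjoinRoot.minpoly_root ha.ne_zero, ha.leadingCoeff, inv_one,
      C_1, mul_one]
  have : Algebra.IsSeparable K (AdjoinRoot a) := by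
    have h1 : IsSeparable K (AdjoinRoot.root a) := by
      rw [IsSeparable, ← AdjoinRoot.powerBasis_gen ha.ne_zero, hmin]; exact hs
    have h2 := (IntermediateField.isSeparable_adjoin_simple_iff_isSeparable K _).mpr h1
    have h3 : IntermediateField.adjoin K {AdjoinRoot.root a} = ⊤ :=
      IntermediateField.adjoin_root_eq_top a
    rw [h3] at h2
    exact AlgEquiv.Algebra.isSeparable IntermediateField.topEquiv
  apply (algebraMap K E).injective
  rw [res_map ha, Algebra.norm_eq_prod_embeddings K E, pr]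
  let e := (AdjoinRoot.powerBasis ha.ne_zero).liftEquiv' (B := E)
  have h4 : ∀ σ : AdjoinRoot a →ₐ[K] E, σ (AdjoinRoot.mk a b) =
      (b.map (algebraMap K E)).eval ((e σ : {y // y ∈ _}) : E) := by
    intro σ
    rw [eval_map_algebraMap, ← AdjoinRoot.aeval_eq, ← aeval_algHom_apply]
    rfl
  rw [Fintype.prod_equiv e _ (fun y => (b.map (algebraMap K E)).eval (y : E)) h4]
  have hnd : ((minpoly K (AdjoinRoot.powerBasis ha.ne_zero).gen).aroots E).Nodup := by
    rw [hmin]; exact nodup_roots (hs.map)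
  rw [Finset.prod_mem_multiset _ _ (fun y => (b.map (algebraMap K E)).eval y) fun _ => rfl,
    Finset.prod_eq_multiset_prod, Multiset.toFinset_val, Multiset.dedup_eq_self.mpr hnd, hmin]

/-- Modulo a prime the Jacobi symbol is the quadratic character of the residue field. -/
theorem jac_prime (h2 : (2 : F) ≠ 0) {a : F[X]} (ha : a.Monic) [Fact (Irreducible a)]
    [Fintype (AdjoinRoot a)] (b : F[X]) : jac a b = chi (AdjoinRoot.mk a b) := by
  have hi : Irreducible a := Fact.out
  unfold jac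
  rw [res_eq_norm ha (PerfectField.separable_of_irreducible hi)]
  set x := AdjoinRoot.mk a b
  by_cases hx : x = 0
  · have : Module.Finite F (AdjoinRoot a) := (AdjoinRoot.powerBasis ha.ne_zero).finite
    rw [hx, Algebra.norm_zero, chi_zero, chi_zero]
  have hF : ∀ (L : Type _) [Field L], (2 : L) ≠ 0 → ringChar L ≠ 2 := fun L _ hL h =>
    hL (by have := ringChar.spec L 2; rw [h] at this; exact_mod_cast this.mpr dvd_rfl)
  have h2' : (2 : AdjoinRoot a) ≠ 0 := by
    rw [← map_ofNat (algebraMap F (AdjoinRoot a)) 2]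
    exact (_root_.map_ne_zero _).mpr h2
  have : Module.Finite F (AdjoinRoot a) := (AdjoinRoot.powerBasis ha.ne_zero).finite
  have hn : Algebra.norm F x ≠ 0 := Algebra.norm_ne_zero_iff.mpr hx
  have ho := FiniteField.odd_card_of_char_ne_two (hF F h2)
  have ho' := FiniteField.odd_card_of_char_ne_two (hF _ h2')
  have hd : Fintype.card F - 1 ∣ Fintype.card (AdjoinRoot a) - 1 := by
    rw [Module.card_eq_pow_finrank (K := F) (V := AdjoinRoot a)]
    exact Nat.sub_one_dvd_pow_sub_one _ _
  have h1 : 1 < Fintype.card F := Fintype.one_lt_card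
  have he : algebraMap F (AdjoinRoot a) (Algebra.norm F x ^ (Fintype.card F / 2)) =
      x ^ (Fintype.card (AdjoinRoot a) / 2) := by
    rw [map_pow, FiniteField.algebraMap_norm_eq_pow, ← pow_mul, Nat.card_eq_fintype_card,
      Nat.card_eq_fintype_card]
    congr 1
    obtain ⟨c, hc⟩ := hd
    obtain ⟨u, hu⟩ : ∃ u, Fintype.card F = 2 * u + 1 := ⟨Fintype.card F / 2, by omega⟩
    rw [hc, Nat.mul_div_cancel_left _ (by omega)]
    rw [hu, Nat.add_sub_cancel, mul_assoc] at hc
    rw [show Fintype.card F / 2 = u by omega, mul_comm c u]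
    omega
  unfold chi
  rw [quadraticChar_eq_pow_of_char_ne_two (hF F h2) hn,
    quadraticChar_eq_pow_of_char_ne_two (hF _ h2') hx, ← he]
  simp only [map_eq_one_iff _ (algebraMap F (AdjoinRoot a)).injective]

end Pool.Agent.H48P

end

end

section

/-!
Weil's bound for products of a real multiplicative character at shifted arguments, twisted by an
additive character, and the resulting bound over a coset of an additive subgroup.
-/

set_option autoImplicit false

namespace Pool.Agent.H4O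

open Finset

/-- Twisted complete sum. -/
theorem weil_twist {K I : Type} [Field K] [Fintype K] [Fintype I] (p : ℕ)
    [Fact p.Prime] [CharP K p] (χ : K →* ℂ) (h0 : χ 0 = 0) (h2 : ∀ x, x ≠ 0 → χ x ^ 2 = 1)
    {u₀ : K} (hu : u₀ ≠ 0) (hu1 : χ u₀ ≠ 1) (ψ : AddChar K ℂ) (hψ : ∀ y, ψ (y ^ p - y) = 1)
    (c : I → K) (i₀ : I) (hc : ∀ i, c i = c i₀ → i = i₀) (h : K) :
    ‖∑ u : K, (∏ i, χ (u + c i)) * ψ (h * u)‖ ≤ 5 * Fintype.card I * √(Fintype.card K) := by
  classical
  have hI : (1 : ℝ) ≤ Fintype.card I := by exact_mod_cast Fintype.card_pos_iff.2 ⟨i₀⟩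
  have hQ : (1 : ℝ) ≤ √(Fintype.card K) := by
    rw [Real.one_le_sqrt]; exact_mod_cast Fintype.card_pos
  have hb : ∀ u, ‖(∏ i, χ (u + c i)) * ψ (h * u)‖ ≤ 1 := fun u => by
    rw [norm_mul, AddChar.norm_apply, mul_one, norm_prod]
    exact prod_le_one (by simp) fun j _ => Pool.Agent.MP_1609a8_nt.H76.chi_le χ _
  by_cases hb0 : ∃ b : K, ∀ i, b + c i ≠ 0
  swap
  · push Not at hb0
    choose g hg using hb0
    have : Function.Injective g := fun a b e => by
      have h1 := hg a
      have h3 := hg b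
      rw [e] at h1
      exact add_right_cancel (h1.trans h3.symm)
    have h3 : (Fintype.card K : ℝ) ≤ Fintype.card I := by
      exact_mod_cast Fintype.card_le_of_injective g this
    refine (norm_sum_le _ _).trans ((sum_le_card_nsmul _ _ _ fun u _ => hb u).trans ?_)
    simp only [card_univ, nsmul_eq_mul, mul_one]
    nlinarith
  obtain ⟨b, hb0⟩ := hb0
  set S : Finset K := univ.image c with hS
  have hSb : ∀ s : S, b + (s : K) ≠ 0 := fun s => by
    obtain ⟨i, -, e⟩ := mem_image.1 s.2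
    rw [← e]; exact hb0 i
  let a : Option S → K := fun j => j.elim 0 fun s => (b + s)⁻¹
  let n : Option S → ℕ := fun j => j.elim (Fintype.card I) fun s => #{i | c i = s}
  let ρ : Option S → K := fun j => j.elim h fun _ => 0
  have ha : Function.Injective a := by
    rintro (_ | s) (_ | t) e
    · rfl
    · exact absurd e.symm (inv_ne_zero (hSb t))
    · exact absurd e (inv_ne_zero (hSb s))
    · exact congrArg some (Subtype.ext (add_left_cancel (inv_injective e)))
  have hW := Pool.Agent.MP_1609a8_nt.H76.weil_wild p a ha n ρ χ ψ hψ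
    (Or.inl ⟨some ⟨c i₀, mem_image_of_mem _ (mem_univ _)⟩, u₀, hu, by
      have : #{i | c i = c i₀} = 1 := card_eq_one.2 ⟨i₀, by
        ext i; simp only [mem_filter, mem_univ, true_and, mem_singleton]
        exact ⟨hc i, fun e => by rw [e]⟩⟩
      simpa [n, this] using hu1⟩)
  have hcard : (Fintype.card (Option S) : ℝ) ≤ 2 * Fintype.card I := by
    rw [Fintype.card_option, Fintype.card_coe]
    have : (#S : ℝ) ≤ Fintype.card I := by exact_mod_cast card_image_le.trans (by simp)
    push_cast; linarith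
  set F : K → ℂ := fun u => (∏ i, χ (u + c i)) * ψ (h * u) with hF
  set κ : ℂ := (∏ i, χ (b + c i)) * ψ (h * b) with hκ
  have key : ∀ t : K, t ≠ 0 → F (b + (0 - t)⁻¹) =
      κ * ((∏ j, χ (a j - t) ^ n j) * ψ (∑ j, ρ j / (a j - t))) := fun t ht => by
    have ht' : (0 - t) ≠ 0 := by simpa using ht
    have e1 : ∀ i, χ (b + (0 - t)⁻¹ + c i) =
        χ (b + c i) * χ (0 - t) * χ ((b + c i)⁻¹ - t) := fun i => by
      have e : b + (0 - t)⁻¹ + c i = (b + c i) * (0 - t) * ((b + c i)⁻¹ - t) * ((0 - t)⁻¹) ^ 2 := by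
        have := hb0 i
        field_simp
        ring
      rw [e, map_mul, map_pow, h2 _ (inv_ne_zero ht'), mul_one, map_mul, map_mul]
    have e2 : ∏ s : S, χ ((b + s)⁻¹ - t) ^ #{i | c i = s} = ∏ i, χ ((b + c i)⁻¹ - t) := by
      rw [prod_coe_sort S fun s => χ ((b + s)⁻¹ - t) ^ #{i | c i = s}, hS,
        prod_comp (fun s => χ ((b + s)⁻¹ - t)) c]
    simp only [hF, hκ, e1, prod_mul_distrib, Fintype.prod_option, Fintype.sum_option, a, n, ρ,
      Option.elim, e2, prod_const, card_univ, sum_const_zero, add_zero, mul_add,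
      AddChar.map_add_eq_mul, div_eq_mul_inv, zero_mul]
    ring
  have e3 : ∑ u, F u = F b + ∑ t with t ≠ 0, F (b + (0 - t)⁻¹) := by
    rw [← Equiv.sum_comp (((Equiv.neg K).trans (Equiv.inv K)).trans (Equiv.addLeft b)) F,
      ← add_sum_erase _ _ (mem_univ (0 : K)), filter_ne']
    simp
  have e4 : ∑ t with t ≠ 0, F (b + (0 - t)⁻¹) = κ * ∑ t with ∀ j, a j ≠ t,
      (∏ j, χ (a j - t) ^ n j) * ψ (∑ j, ρ j / (a j - t)) := by
    rw [mul_sum]
    symm
    refine sum_subset_zero_on_sdiff (fun t ht => ?_) (fun t ht => ?_) fun t ht => ?_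
    · simp only [mem_filter, mem_univ, true_and] at ht ⊢
      exact (ht none).symm
    · simp only [mem_sdiff, mem_filter, mem_univ, true_and, not_forall, not_not] at ht
      obtain ⟨t0, j, hj⟩ := ht
      rcases j with _ | s
      · exact absurd hj.symm t0
      · obtain ⟨i, -, e⟩ := mem_image.1 s.2
        have : b + (0 - t)⁻¹ + c i = 0 := by
          rw [← hj]
          simp only [a, Option.elim, ← e, zero_sub, inv_neg, inv_inv]
          ring
        simp only [hF]
        rw [prod_eq_zero (mem_univ i) (by rw [this, h0]), zero_mul]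
    · simp only [mem_filter, mem_univ, true_and] at ht
      exact (key t (ht none).symm).symm
  rw [e3, e4]
  refine (norm_add_le _ _).trans ?_
  rw [norm_mul κ]
  have k1 : ‖κ‖ ≤ 1 := hb b
  have k2 := mul_le_mul k1 hW (norm_nonneg _) zero_le_one
  have k3 : ‖F b‖ ≤ 1 := hb b
  have k4 : (Fintype.card (Option S) : ℝ) * 2 * √(Fintype.card K) ≤
      2 * Fintype.card I * 2 * √(Fintype.card K) := by gcongr
  have k5 : (1 : ℝ) ≤ Fintype.card I * √(Fintype.card K) := by nlinarith
  linarith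

/-- Completion: a sum over a coset of an additive subgroup is bounded by the largest Fourier
coefficient. -/
theorem complete {R : Type} [CommRing R] [Fintype R] (ψ : AddChar R ℂ) (hψ : ψ.IsPrimitive)
    (V : AddSubgroup R) [DecidablePred (· ∈ V)] (G : R → ℂ) (B : ℝ)
    (hB : ∀ h, ‖∑ u, G u * ψ (h * u)‖ ≤ B) :
    ‖∑ u with u ∈ V, G u‖ ≤ B := by
  classical
  have hQ : (0 : ℝ) < Fintype.card R := by exact_mod_cast Fintype.card_pos
  set T : R → ℂ := fun h => ∑ v with v ∈ V, ψ (h * v) with hT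
  have orth : ∀ x : R, ∑ h, ψ (h * x) = if x = 0 then (Fintype.card R : ℂ) else 0 := fun x => by
    have := AddChar.sum_mulShift (ψ := ψ) x hψ
    simpa using this
  have hT1 : ∀ h, T h = 0 ∨ T h = #{v | v ∈ V} := fun h => by
    by_cases c : ∀ v ∈ V, ψ (h * v) = 1
    · right
      rw [hT]
      simp only
      rw [sum_congr rfl fun v hv => c v (mem_filter.1 hv).2]
      simp
    · left
      push Not at c
      obtain ⟨w, hw, c⟩ := c
      have : T h * ψ (h * w) = T h := by
        simp only [hT, sum_mul, ← AddChar.map_add_eq_mul, ← mul_add]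
        refine sum_bij (fun v _ => v + w) (fun v hv => ?_) (fun _ _ _ _ e => add_right_cancel e)
          (fun v hv => ⟨v - w, ?_, by simp⟩) fun _ _ => rfl
        · simpa using V.add_mem (mem_filter.1 hv).2 hw
        · simpa using V.sub_mem (mem_filter.1 hv).2 hw
      by_contra e
      exact c (mul_left_cancel₀ e (this.trans (mul_one _).symm))
  have hT2 : ∑ h, T h = Fintype.card R := by
    simp only [hT]
    rw [sum_comm, sum_congr rfl fun v _ => orth v, sum_ite_eq']
    simp [V.zero_mem]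
  have hT3 : ∑ h, ‖T h‖ = Fintype.card R := by
    have : ∀ h, ((‖T h‖ : ℝ) : ℂ) = T h := fun h => by
      rcases hT1 h with e | e <;> simp [e]
    have e : ((∑ h, ‖T h‖ : ℝ) : ℂ) = ((Fintype.card R : ℝ) : ℂ) := by
      push_cast
      simp only [this, hT2]
    exact_mod_cast e
  have e : (Fintype.card R : ℂ) * ∑ u with u ∈ V, G u =
      ∑ h, T (-h) * ∑ u, G u * ψ (h * u) := by
    have e1 : ∀ h, T (-h) * ∑ u, G u * ψ (h * u) =
        ∑ v with v ∈ V, ∑ u, G u * ψ (h * (u - v)) := fun h => by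
      simp only [hT, sum_mul, mul_sum]
      rw [sum_comm]
      refine sum_congr rfl fun v _ => sum_congr rfl fun u _ => ?_
      rw [show h * (u - v) = -h * v + h * u by ring, AddChar.map_add_eq_mul]
      ring
    simp only [e1]
    rw [sum_comm, mul_sum]
    refine sum_congr rfl fun v _ => ?_
    rw [sum_comm]
    simp only [← mul_sum, orth, sub_eq_zero, mul_ite, mul_zero, sum_ite_eq', mem_univ, if_true]
    ring
  have e2 : (Fintype.card R : ℝ) * ‖∑ u with u ∈ V, G u‖ ≤ Fintype.card R * B := by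
    have := congrArg norm e
    rw [norm_mul, Complex.norm_natCast] at this
    rw [this]
    refine (norm_sum_le _ _).trans ?_
    rw [← hT3, ← Equiv.sum_comp (Equiv.neg R) fun h => ‖T h‖, sum_mul]
    refine sum_le_sum fun h _ => ?_
    rw [norm_mul]
    exact mul_le_mul_of_nonneg_left (hB h) (norm_nonneg _)
  exact le_of_mul_le_mul_left e2 hQ

/-- A primitive additive character of a finite field that is trivial on `y ^ p - y`. -/
theorem exists_psi (K : Type) [Field K] [Fintype K] (p : ℕ) [Fact p.Prime] [CharP K p] :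
    ∃ ψ : AddChar K ℂ, ψ.IsPrimitive ∧ ∀ y, ψ (y ^ p - y) = 1 := by
  classical
  letI : Algebra (ZMod p) K := ZMod.algebra K p
  haveI : NeZero p := ⟨(Fact.out : p.Prime).ne_zero⟩
  haveI : Module.Finite (ZMod p) K := Module.Finite.of_finite
  refine ⟨(ZMod.stdAddChar (N := p)).compAddMonoidHom
    (Algebra.trace (ZMod p) K).toAddMonoidHom, AddChar.IsPrimitive.of_ne_one fun e => ?_,
    fun y => ?_⟩
  · obtain ⟨x, hx1⟩ := Algebra.trace_surjective (ZMod p) K 1
    have hx : Algebra.trace (ZMod p) K x ≠ 0 := by rw [hx1]; exact one_ne_zero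
    have h1 := DFunLike.congr_fun e x
    simp only [AddChar.compAddMonoidHom_apply, LinearMap.toAddMonoidHom_coe,
      AddChar.one_apply] at h1
    exact hx (ZMod.injective_stdAddChar (h1.trans (AddChar.map_zero_eq_one _).symm))
  · have : Algebra.trace (ZMod p) K (y ^ p) = Algebra.trace (ZMod p) K y := by
      have := Algebra.trace_eq_of_algEquiv (FiniteField.frobeniusAlgEquivOfAlgebraic (ZMod p) K) y
      simpa using this
    simp [this]

/-- Weil's bound on an additive subgroup. -/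
theorem weil_sub {K I : Type} [Field K] [Fintype K] [Fintype I]
    (χ : K →* ℂ) (h0 : χ 0 = 0) (h2 : ∀ x, x ≠ 0 → χ x ^ 2 = 1)
    {u₀ : K} (hu : u₀ ≠ 0) (hu1 : χ u₀ ≠ 1) (V : AddSubgroup K) [DecidablePred (· ∈ V)]
    (c : I → K) (i₀ : I) (hc : ∀ i, c i = c i₀ → i = i₀) :
    ‖∑ u with u ∈ V, ∏ i, χ (u + c i)‖ ≤ 5 * Fintype.card I * √(Fintype.card K) := by
  obtain ⟨p, hp⟩ := CharP.exists K
  haveI : Fact p.Prime := ⟨CharP.char_is_prime K p⟩
  obtain ⟨ψ, h3, h4⟩ := exists_psi K p
  exact complete ψ h3 V _ _ (weil_twist p χ h0 h2 hu hu1 ψ h4 c i₀ hc)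

end Pool.Agent.H4O

end

section

/-!
The Liouville function on a line in odd characteristic: a Jacobi symbol times a periodic factor.
The Jacobi symbol `J` and the Liouville function `l` enter through their properties only.
-/

set_option autoImplicit false

namespace Pool.Agent.H4O

open Polynomial

variable {k : Type} [Field k]

/-- The properties of the Jacobi symbol `J` and of the Liouville function `l` that are used. -/
structure JApi (J : k[X] → k[X] → ℝ) (l : k[X] → ℝ) : Prop where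
  one_left : ∀ w, J 1 w = 1
  mul_left : ∀ u v w, u.Monic → v.Monic → J (u * v) w = J u w * J v w
  mul_right : ∀ u v w, u.Monic → J u (v * w) = J u v * J u w
  per : ∀ u w t, u.Monic → J u (w + u * t) = J u w
  recip : ∃ s : ℕ → ℕ → ℝ, ∀ u w, u.Monic → w.Monic → J u w = s u.natDegree w.natDegree * J w u
  const : ∀ c u v, u.Monic → v.Monic → u.natDegree = v.natDegree → J u (C c) = J v (C c)
  sq : ∀ u w, u.Monic → IsCoprime u w → J u w ^ 2 = 1
  pel : ∃ ε : ℕ → ℝ, ∀ u, u.Monic → Squarefree u → l u = ε u.natDegree * J u (derivative u)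
  lmul : ∀ u v, u ≠ 0 → v ≠ 0 → l (u * v) = l u * l v

variable {J : k[X] → k[X] → ℝ} {l : k[X] → ℝ}

/-- `J u ·` is periodic modulo `D` when `u` divides a power of `D`. -/
theorem JApi.per_rad (H : JApi J l) (D w t : k[X]) (m : ℕ) : ∀ (n : ℕ) (u : k[X]),
    u.natDegree = n → u.Monic → u ∣ D ^ m → J u (w + D * t) = J u w := by
  intro n
  induction n using Nat.strong_induction_on with
  | _ n ih =>
    intro u hn hu hd
    by_cases h1 : IsUnit u
    · rw [hu.eq_one_of_isUnit h1, H.one_left, H.one_left]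
    obtain ⟨π, m1, hπ, v, rfl⟩ := exists_monic_irreducible_factor u h1
    have m2 : v.Monic := m1.of_mul_monic_left hu
    obtain ⟨D', rfl⟩ : π ∣ D := hπ.prime.dvd_of_dvd_pow ((dvd_mul_right _ _).trans hd)
    rw [H.mul_left _ _ _ m1 m2, H.mul_left _ _ _ m1 m2,
      ih v.natDegree (by rw [← hn, m1.natDegree_mul m2]; have := hπ.natDegree_pos; omega) v rfl m2
        ((dvd_mul_left _ _).trans hd), mul_assoc, H.per _ _ _ m1]

theorem JApi.congr_rad (H : JApi J l) {D u w w' : k[X]} {m : ℕ} (hu : u.Monic) (hd : u ∣ D ^ m)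
    (h : D ∣ w - w') : J u w = J u w' := by
  obtain ⟨t, ht⟩ := h
  rw [show w = w' + D * t by rw [← ht]; ring, H.per_rad D w' t m _ u rfl hu hd]

/-- The Pellet formula rewritten with the derivative `B` of `g φ y`. -/
theorem JApi.core (H : JApi J l) {g φ y B₀ Bs : k[X]} {c : k} (hφ : φ.Monic)
    (hc : IsCoprime φ (g * y))
    (hB : derivative (g * φ * y) = C c * B₀ * Bs) :
    J φ (derivative φ) = J φ (g * y) * J φ (C c) * J φ B₀ * J φ Bs := by
  have e : C c * B₀ * Bs = g * y * derivative φ + φ * derivative (g * y) := by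
    rw [← hB, show g * φ * y = g * y * φ by ring, derivative_mul (f := g * y)]
    ring
  have e1 := congrArg (J φ) e
  rw [H.per _ _ _ hφ, H.mul_right _ _ _ hφ, H.mul_right _ _ _ hφ,
    H.mul_right _ (g * y) _ hφ] at e1
  have e2 := H.sq _ _ hφ hc
  linear_combination (-J φ (g * y)) * e1 - J φ (derivative φ) * e2

/-- The primary decomposition of two congruent polynomials. -/
theorem primary_eq {D g g' φ φ' : k[X]} {N : ℕ} (hg : g.Monic) (hg' : g'.Monic)
    (hd : g ∣ D ^ N) (hd' : g' ∣ D ^ N) (hc : IsCoprime φ D) (hc' : IsCoprime φ' D)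
    (h : D ^ (N + 1) ∣ g * φ - g' * φ') : g = g' ∧ D ∣ φ - φ' := by
  have h0 : D ^ N ∣ g * φ - g' * φ' := (pow_dvd_pow D (Nat.le_succ N)).trans h
  have a1 : g ∣ g' := by
    have : g ∣ g' * φ' := (dvd_sub_right (dvd_mul_right g φ)).1 (hd.trans h0)
    exact (hc'.pow_right.of_isCoprime_of_dvd_right hd).symm.dvd_of_dvd_mul_right this
  have a2 : g' ∣ g := by
    have : g' ∣ g * φ := (dvd_sub_left (dvd_mul_right g' φ')).1 (hd'.trans h0)
    exact (hc.pow_right.of_isCoprime_of_dvd_right hd').symm.dvd_of_dvd_mul_right this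
  obtain rfl : g = g' := eq_of_monic_of_associated hg hg' (associated_of_dvd_dvd a1 a2)
  refine ⟨rfl, ?_⟩
  rw [← mul_sub] at h
  have : g * D ∣ g * (φ - φ') := (by rw [pow_succ]; exact mul_dvd_mul_right hd D : _ ∣ _).trans h
  exact (mul_dvd_mul_iff_left hg.ne_zero).1 this

/-- `f = g φ` with `g ∣ D ^ N` monic and `φ` monic, squarefree and prime to `D`. -/
def Dec (D : k[X]) (N : ℕ) (f : k[X]) : Prop :=
  ∃ g φ : k[X], g.Monic ∧ φ.Monic ∧ f = g * φ ∧ g ∣ D ^ N ∧ Squarefree φ ∧ IsCoprime φ D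

theorem JApi.sq_line [PerfectField k] (H : JApi J l) {D y B₀ Bs f : k[X]} {c : k} {N : ℕ}
    (hy : y ∣ D) (hBs : Bs.Monic) (hBD : IsCoprime Bs D) (hf : Dec D N f)
    (hB : derivative (f * y) = C c * B₀ * Bs) : J Bs f ^ 2 = 1 := by
  obtain ⟨g, φ, hg, hφ, rfl, hd, hs, hc⟩ := hf
  refine H.sq _ _ hBs (IsCoprime.mul_right (hBD.pow_right.of_isCoprime_of_dvd_right hd) ?_)
  have hc1 : IsCoprime φ (g * y) := IsCoprime.mul_right
    (hc.pow_right.of_isCoprime_of_dvd_right hd) (hc.of_isCoprime_of_dvd_right hy)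
  have h1 : IsCoprime φ (derivative φ) := PerfectField.separable_iff_squarefree.2 hs
  have e : C c * B₀ * Bs = g * y * derivative φ + φ * derivative (g * y) := by
    rw [← hB, show g * φ * y = g * y * φ by ring, derivative_mul (f := g * y)]
    ring
  have h2 := (hc1.mul_right h1).add_mul_left_right (derivative (g * y))
  rw [← e] at h2
  exact h2.of_mul_right_right.symm

/-- **Formula on a line.** -/
theorem JApi.form [PerfectField k] (H : JApi J l) {D y B₀ Bs f f' : k[X]} {c : k} {N m : ℕ}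
    (hy : y.Monic) (hyD : y ∣ D) (hB₀ : B₀.Monic) (hB₀D : B₀ ∣ D ^ m) (hBs : Bs.Monic)
    (hBD : IsCoprime Bs D) (hf : Dec D N f) (hf' : Dec D N f')
    (hn : f.natDegree = f'.natDegree) (h : D ^ (N + 1) ∣ f - f')
    (hB : derivative (f * y) = C c * B₀ * Bs) (hB' : derivative (f' * y) = C c * B₀ * Bs) :
    l f * J Bs f = l f' * J Bs f' := by
  have q1 := H.sq_line hyD hBs hBD hf hB
  have q2 := H.sq_line hyD hBs hBD hf' hB'
  obtain ⟨g, φ, hg, hφ, rfl, hd, hs, hc⟩ := hf
  obtain ⟨g', φ', hg', hφ', rfl, hd', hs', hc'⟩ := hf'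
  obtain ⟨rfl, h1⟩ := primary_eq hg hg' hd hd' hc hc' h
  have hm : φ.natDegree = φ'.natDegree := by
    rw [hg.natDegree_mul hφ, hg.natDegree_mul hφ'] at hn; omega
  have hgy : g * y ∣ D ^ (N + 1) := by rw [pow_succ]; exact mul_dvd_mul hd hyD
  obtain ⟨ε, hε⟩ := H.pel
  obtain ⟨s, hr⟩ := H.recip
  have c1 := H.core hφ (hc.pow_right.of_isCoprime_of_dvd_right hgy) hB
  have c2 := H.core hφ' (hc'.pow_right.of_isCoprime_of_dvd_right hgy) hB'
  rw [hr _ _ hφ (hg.mul hy), hr _ _ hφ hB₀, hr _ _ hφ hBs] at c1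
  rw [hr _ _ hφ' (hg.mul hy), hr _ _ hφ' hB₀, hr _ _ hφ' hBs, ← hm,
    ← H.congr_rad (hg.mul hy) hgy h1, ← H.congr_rad hB₀ hB₀D h1, ← H.const c _ _ hφ hφ' hm] at c2
  rw [H.mul_right _ _ _ hBs] at q1 q2
  have q0 := H.sq _ _ hBs (hBD.pow_right.of_isCoprime_of_dvd_right hd)
  have q3 : J Bs φ ^ 2 = 1 := by rw [mul_pow, q0, one_mul] at q1; exact q1
  have q4 : J Bs φ' ^ 2 = 1 := by rw [mul_pow, q0, one_mul] at q2; exact q2
  rw [H.lmul _ _ hg.ne_zero hφ.ne_zero, H.lmul _ _ hg.ne_zero hφ'.ne_zero, hε _ hφ hs,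
    hε _ hφ' hs', c1, c2, H.mul_right _ _ _ hBs, H.mul_right _ _ _ hBs, ← hm]
  set T := l g * ε φ.natDegree * s φ.natDegree (g * y).natDegree * J (g * y) φ * J φ (C c) *
    s φ.natDegree B₀.natDegree * J B₀ φ * s φ.natDegree Bs.natDegree * J Bs g
  linear_combination T * q3 - T * q4

/-- A polynomial without square divisors of degree `≥ L` has such a decomposition, for any `D`
divisible by all monic polynomials of degree `< L`. -/
theorem dec_of_regular {D f : k[X]} {L : ℕ} (hf : f.Monic)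
    (hD : ∀ d : k[X], d.Monic → d.natDegree < L → d ∣ D)
    (hr : ∀ d : k[X], d ^ 2 ∣ f → d.natDegree < L) : Dec D (2 * L) f := by
  classical
  set g₀ := EuclideanDomain.gcd f (D ^ (2 * L)) with hg₀
  have g0 : g₀ ≠ 0 := fun e => hf.ne_zero (EuclideanDomain.gcd_eq_zero_iff.1 e).1
  set g := g₀ * C g₀.leadingCoeff⁻¹ with hg
  have gm : g.Monic := monic_mul_leadingCoeff_inv g0
  have ga : Associated g₀ g :=
    associated_mul_unit_right _ _ (isUnit_C.2 (inv_ne_zero (leadingCoeff_ne_zero.2 g0)).isUnit)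
  have g1 : g ∣ f := ga.symm.dvd.trans (EuclideanDomain.gcd_dvd_left _ _)
  have g2 : g ∣ D ^ (2 * L) := ga.symm.dvd.trans (EuclideanDomain.gcd_dvd_right _ _)
  obtain ⟨φ, hφ⟩ := g1
  have φm : φ.Monic := gm.of_mul_monic_left (hφ ▸ hf)
  have hc : IsCoprime φ D := by
    by_contra hn
    obtain ⟨π, m1, hπ, h1⟩ := exists_monic_irreducible_factor (EuclideanDomain.gcd φ D)
      (fun hu => hn (EuclideanDomain.gcd_isUnit_iff.1 hu))
    have p1 : π ∣ φ := h1.trans (EuclideanDomain.gcd_dvd_left _ _)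
    have p2 : π ∣ D := h1.trans (EuclideanDomain.gcd_dvd_right _ _)
    -- `π ^ j ∣ g` for all `j ≤ 2 L`
    have key : ∀ j, j ≤ 2 * L → π ^ j ∣ g := fun j => by
      induction j with
      | zero => intro _; simp
      | succ j ih =>
        intro hj
        refine Dvd.dvd.trans (EuclideanDomain.dvd_gcd ?_ ?_) ga.dvd
        · rw [hφ, pow_succ]; exact mul_dvd_mul (ih (by omega)) p1
        · exact (pow_dvd_pow π hj).trans (pow_dvd_pow_of_dvd p2 _)
    have h2 := hr (π ^ L) (by
      rw [← pow_mul, mul_comm L 2, hφ]; exact (key _ le_rfl).trans (dvd_mul_right _ _))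
    rw [m1.natDegree_pow] at h2
    have := hπ.natDegree_pos
    nlinarith
  refine ⟨g, φ, gm, φm, hφ, g2, fun d hd => ?_, hc⟩
  have d0 : d ≠ 0 := fun e => φm.ne_zero (by rw [e, zero_mul] at hd; exact zero_dvd_iff.1 hd)
  have h1 := hr d (by rw [sq, hφ]; exact hd.trans (dvd_mul_left _ _))
  have dm : (d * C d.leadingCoeff⁻¹).Monic := monic_mul_leadingCoeff_inv d0
  have h2 := hD _ dm (by rwa [natDegree_mul_C (inv_ne_zero (leadingCoeff_ne_zero.2 d0))])
  exact hc.isUnit_of_dvd' ((dvd_mul_right _ _).trans hd) ((dvd_mul_right _ _).trans h2)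

/-- **Formula on a line**, with the periodic factor as a function. -/
theorem JApi.exists_theta [PerfectField k] (H : JApi J l) (hl : ∀ u, |l u| ≤ 1)
    {D y B₀ Bs : k[X]} (c : k) (N n : ℕ) {m : ℕ}
    (hy : y.Monic) (hyD : y ∣ D) (hB₀ : B₀.Monic) (hB₀D : B₀ ∣ D ^ m) (hBs : Bs.Monic)
    (hBD : IsCoprime Bs D) :
    ∃ Θ : k[X] → ℝ, (∀ f, |Θ f| ≤ 1) ∧ (∀ f t, Θ (f + D ^ (N + 1) * t) = Θ f) ∧
      ∀ f, Dec D N f → f.natDegree = n → derivative (f * y) = C c * B₀ * Bs →
        l f = Θ f * J Bs f := by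
  classical
  let P : k[X] → k[X] → Prop := fun f f' => Dec D N f' ∧ f'.natDegree = n ∧
    derivative (f' * y) = C c * B₀ * Bs ∧ D ^ (N + 1) ∣ f - f'
  let Θ : k[X] → ℝ := fun f => if h : ∃ f', P f f' then l h.choose * J Bs h.choose else 0
  have val : ∀ f f', P f f' → Θ f = l f' * J Bs f' := fun f f' hP => by
    have h : ∃ f', P f f' := ⟨f', hP⟩
    simp only [Θ, dif_pos h]
    obtain ⟨a1, a2, a3, a4⟩ := h.choose_spec
    obtain ⟨b1, b2, b3, b4⟩ := hP
    exact H.form hy hyD hB₀ hB₀D hBs hBD a1 b1 (a2.trans b2.symm)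
      (by simpa using dvd_sub b4 a4) a3 b3
  refine ⟨Θ, fun f => ?_, fun f t => ?_, fun f h1 h2 h3 => ?_⟩
  · by_cases h : ∃ f', P f f'
    · obtain ⟨f', hP⟩ := h
      rw [val f f' hP, abs_mul]
      have := H.sq_line hyD hBs hBD hP.1 hP.2.2.1
      have e : |J Bs f'| = 1 := by rw [← sq_eq_sq₀ (abs_nonneg _) zero_le_one, sq_abs, this, one_pow]
      rw [e, mul_one]
      exact hl _
    · simp [Θ, dif_neg h]
  · have e : ∀ f', P (f + D ^ (N + 1) * t) f' ↔ P f f' := fun f' => by
      simp only [P]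
      rw [show f + D ^ (N + 1) * t - f' = f - f' + D ^ (N + 1) * t by ring,
        dvd_add_left (dvd_mul_right _ _)]
    by_cases h : ∃ f', P f f'
    · obtain ⟨f', hP⟩ := h
      rw [val f f' hP, val _ f' ((e f').2 hP)]
    · have h' : ¬∃ f', P (f + D ^ (N + 1) * t) f' := by simpa only [e] using h
      simp only [Θ, dif_neg h, dif_neg h']
  · rw [val f f ⟨h1, h2, h3, by simp⟩, mul_assoc, ← pow_two, H.sq_line hyD hBs hBD h1 h3, mul_one]

/-- Splitting off the `D`-primary part. -/
theorem exists_split (D : k[X]) : ∀ (n : ℕ) (B : k[X]), B.natDegree = n → B ≠ 0 →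
    ∃ (B₀ Bs : k[X]) (m : ℕ), B₀.Monic ∧ Bs.Monic ∧ B₀ ∣ D ^ m ∧ IsCoprime Bs D ∧
      B = C B.leadingCoeff * B₀ * Bs := by
  classical
  intro n
  induction n using Nat.strong_induction_on with
  | _ n ih =>
    intro B hn hB
    have l0 := leadingCoeff_ne_zero.2 hB
    by_cases hc : IsCoprime B D
    · refine ⟨1, B * C B.leadingCoeff⁻¹, 0, monic_one, monic_mul_leadingCoeff_inv hB, by simp,
        hc.mul_left ((isCoprime_one_left (x := D)).of_isCoprime_of_dvd_left
          (isUnit_C.2 (inv_ne_zero l0).isUnit).dvd), ?_⟩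
      rw [mul_one, mul_left_comm, ← C_mul, mul_inv_cancel₀ l0, C_1, mul_one]
    obtain ⟨π, m1, hπ, h1⟩ := exists_monic_irreducible_factor (EuclideanDomain.gcd B D)
      (fun hu => hc (EuclideanDomain.gcd_isUnit_iff.1 hu))
    obtain ⟨v, rfl⟩ : π ∣ B := h1.trans (EuclideanDomain.gcd_dvd_left _ _)
    have p2 : π ∣ D := h1.trans (EuclideanDomain.gcd_dvd_right _ _)
    have v0 : v ≠ 0 := right_ne_zero_of_mul hB
    obtain ⟨B₀, Bs, m, a1, a2, a3, a4, a5⟩ := ih v.natDegree
      (by rw [← hn, natDegree_mul hπ.ne_zero v0]; have := hπ.natDegree_pos; omega) v rfl v0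
    refine ⟨π * B₀, Bs, m + 1, m1.mul a1, a2, by rw [pow_succ']; exact mul_dvd_mul p2 a3, a4, ?_⟩
    rw [leadingCoeff_mul, m1.leadingCoeff, one_mul]
    conv_lhs => rw [a5]
    ring

end Pool.Agent.H4O

end

section

/-!
The Jacobi symbol satisfies the interface of `Form5`, and the base estimate of the differencing
argument: products of a Legendre symbol along a line.
-/

set_option autoImplicit false

namespace Pool.Agent.H4O

open Polynomial Finset Pool.Agent.H48P
open scoped Classical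

variable {k : Type} [Field k] [Fintype k]

theorem japi (h2 : (2 : k) ≠ 0) :
    JApi (jac (F := k)) fun f => (-1 : ℝ) ^ (UniqueFactorizationMonoid.factors f).card where
  one_left := jac_one_left
  mul_left := fun _ _ w hu hv => jac_mul_left hu hv w
  mul_right := fun _ v w hu => jac_mul_right hu v w
  per := fun _ _ _ hu => jac_congr hu (by simp)
  recip := ⟨fun a b => chi ((-1 : k) ^ (a * b)), fun u w _ _ => jac_comm u w⟩
  const := fun c u v _ _ e => by unfold jac; rw [res_C, res_C, e]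
  sq := fun _ _ hu h => by rw [pow_two]; exact jac_mul_self hu h
  pel := ⟨fun n => (-1) ^ n * chi ((-1 : k) ^ (n * (n - 1) / 2)), fun u hu hs => by
    have := mu_eq h2 hu
    rwa [if_pos hs] at this⟩
  lmul := fun u v hu hv => by rw [card_factors_mul hu hv, pow_add]

/-- Real form of Weil's bound on an additive subgroup for the quadratic character. -/
theorem chi_sub {K I : Type} [Field K] [Fintype K] [Fintype I] (h2 : (2 : K) ≠ 0)
    (V : AddSubgroup K) (c : I → K) (i₀ : I) (hc : ∀ i, c i = c i₀ → i = i₀) :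
    |∑ u with u ∈ V, ∏ i, chi (u + c i)| ≤ 5 * Fintype.card I * √(Fintype.card K) := by
  let χ : K →* ℂ :=
    { toFun := fun x => (chi x : ℂ)
      map_one' := by simp [chi_one]
      map_mul' := fun a b => by simp [chi_mul] }
  have hr : ringChar K ≠ 2 := fun e => h2 (by
    have := ringChar.Nat.cast_ringChar (R := K)
    rw [e] at this
    exact_mod_cast this)
  obtain ⟨u₀, hu₀⟩ := quadraticChar_exists_neg_one hr
  have hu : u₀ ≠ 0 := by rintro rfl; simp at hu₀
  have := weil_sub χ (by simp [χ, chi_zero]) (fun x hx => by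
    have := chi_mul_self hx
    simp only [χ, MonoidHom.coe_mk, OneHom.coe_mk]
    rw [pow_two]
    exact_mod_cast this) hu (by
    simp only [χ, MonoidHom.coe_mk, OneHom.coe_mk, chi, hu₀]
    norm_num) V c i₀ hc
  simp only [χ, MonoidHom.coe_mk, OneHom.coe_mk] at this
  rw [← Real.norm_eq_abs, ← Complex.norm_real]
  push_cast
  convert this

/-- A sum over a finite additive subgroup of a function of the image. -/
theorem sum_image_hom {A B : Type} [AddCommGroup A] [AddCommGroup B] [Fintype B] (φ : A →+ B)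
    (U : AddSubgroup A) (T : Finset A) (hT : ∀ s, s ∈ T ↔ s ∈ U) (G : B → ℝ) :
    (#{u : B | u ∈ U.map φ} : ℝ) * ∑ s ∈ T, G (φ s) = #T * ∑ u with u ∈ U.map φ, G u := by
  have fib : ∀ u ∈ U.map φ, #{s ∈ T | φ s = u} = #{s ∈ T | φ s = 0} := by
    rintro _ ⟨w, hw, rfl⟩
    refine card_bij (fun s _ => s - w) (fun s hs => ?_) (fun _ _ _ _ e => sub_left_injective e)
      fun s hs => ⟨s + w, ?_, by simp⟩
    · rw [mem_filter, hT] at hs ⊢
      exact ⟨U.sub_mem hs.1 hw, by rw [map_sub, hs.2, sub_self]⟩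
    · rw [mem_filter, hT] at hs ⊢
      exact ⟨U.add_mem hs.1 hw, by rw [map_add, hs.2, zero_add]⟩
  have key : ∀ G : B → ℝ, ∑ s ∈ T, G (φ s) =
      #{s ∈ T | φ s = 0} * ∑ u with u ∈ U.map φ, G u := fun G => by
    rw [← sum_fiberwise_of_maps_to (t := {u | u ∈ U.map φ}) (g := φ) fun s hs => by
      simpa using ⟨s, (hT s).1 hs, rfl⟩, mul_sum]
    refine sum_congr rfl fun u hu => ?_
    rw [sum_congr rfl fun s hs => by rw [(mem_filter.1 hs).2], sum_const, nsmul_eq_mul,
      fib u (mem_filter.1 hu).2]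
  have h1 := key fun _ => 1
  simp only [sum_const, nsmul_eq_mul, mul_one] at h1
  rw [key G, h1]
  ring

theorem card_box5 {N : ℕ} {T : Finset k[X]} (hT : ∀ s, s ∈ T ↔ s.degree < N) :
    #T = Fintype.card k ^ N := by
  have e : T ≃ degreeLT k N := Equiv.subtypeEquivRight fun s => by rw [hT, mem_degreeLT]
  rw [← Fintype.card_coe, ← Nat.card_eq_fintype_card, Nat.card_congr e,
    Nat.card_congr (degreeLTEquiv k N).toEquiv]
  simp

/-- **Base estimate.** -/
theorem base_line (p : ℕ) [Fact p.Prime] [CharP k p] (hp : p ≠ 2) {π y : k[X]} (hπ : π.Monic)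
    (hi : Irreducible π) (hy : ¬π ∣ y) (f : k[X]) {N : ℕ} {T : Finset k[X]}
    (hT : ∀ s, s ∈ T ↔ s.degree < N) {I : Type} [Fintype I] (c : I → k[X]) (i₀ : I)
    (hc : ∀ i, π ∣ c i - c i₀ → i = i₀) :
    |∑ s ∈ T, ∏ i, jac π (f + y ^ (p - 1) * (s + c i) ^ p)| ≤
      5 * Fintype.card I * √((Fintype.card k : ℝ) ^ π.natDegree) /
        (Fintype.card k : ℝ) ^ min N π.natDegree * (Fintype.card k : ℝ) ^ N := by
  have := Fact.mk hi
  have hodd : Odd p := (Fact.out : p.Prime).odd_of_ne_two hp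
  have h2 : (2 : k) ≠ 0 := fun e => hp ((Nat.prime_dvd_prime_iff_eq Fact.out Nat.prime_two).1
    ((CharP.cast_eq_zero_iff k p 2).1 (by exact_mod_cast e)))
  let F := AdjoinRoot π
  have : Module.Finite k F := (AdjoinRoot.powerBasis hi.ne_zero).finite
  have : Finite F := Module.finite_of_finite k
  let _ : Fintype F := Fintype.ofFinite F
  have : CharP F p := charP_of_injective_algebraMap (algebraMap k F).injective p
  have hF : Fintype.card F = Fintype.card k ^ π.natDegree := by
    rw [Module.card_eq_pow_finrank (K := k), (AdjoinRoot.powerBasis hi.ne_zero).finrank,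
      AdjoinRoot.powerBasis_dim]
  have h2F : (2 : F) ≠ 0 := fun e => h2 ((algebraMap k F).injective (by rw [map_ofNat, e, map_zero]))
  have y0 : AdjoinRoot.mk π y ≠ 0 := fun e => hy (AdjoinRoot.mk_eq_zero.1 e)
  obtain ⟨e, he⟩ := surjective_frobenius F p (AdjoinRoot.mk π f / AdjoinRoot.mk π y ^ (p - 1))
  rw [frobenius_def] at he
  have chip : ∀ (z : F) (n : ℕ), chi (z ^ n) = chi z ^ n := fun z n => by
    induction n with
    | zero => simp [chi_one]
    | succ n ih => rw [pow_succ, chi_mul, ih, pow_succ]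
  have cho : ∀ z : F, chi z ^ p = chi z := fun z => by
    by_cases hz : z = 0
    · rw [hz, chi_zero, zero_pow (Fact.out : p.Prime).ne_zero]
    · rcases mul_self_eq_one_iff.1 (chi_mul_self hz) with h | h
      · rw [h, one_pow]
      · rw [h, hodd.neg_one_pow]
  have chy : chi (AdjoinRoot.mk π y) ^ (p - 1) = 1 := by
    obtain ⟨m, hm⟩ := hodd
    rw [show p - 1 = 2 * m by omega, pow_mul, pow_two, chi_mul_self y0, one_pow]
  have term : ∀ s i, jac π (f + y ^ (p - 1) * (s + c i) ^ p) =
      chi (AdjoinRoot.mk π s + (AdjoinRoot.mk π (c i) + e)) := fun s i => by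
    rw [jac_prime h2 hπ, ← cho (_ + _), ← chip, ← one_mul (chi (_ ^ p)), ← chy, ← chip, ← chi_mul,
      ← add_assoc, add_pow_char _ e, he]
    congr 1
    simp only [map_add, map_mul, map_pow]
    field_simp
    ring
  let φ : k[X] →+ F := (AdjoinRoot.mk π).toAddMonoidHom
  let U : AddSubgroup k[X] := (degreeLT k N).toAddSubgroup
  have hTU : ∀ s, s ∈ T ↔ s ∈ U := fun s => by rw [hT]; exact mem_degreeLT.symm
  have h3 := sum_image_hom φ U T hTU fun u => ∏ i, chi (u + (AdjoinRoot.mk π (c i) + e))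
  have h4 := chi_sub h2F (U.map φ) (fun i => AdjoinRoot.mk π (c i) + e) i₀ fun i h =>
    hc i (AdjoinRoot.mk_eq_mk.1 (add_right_cancel h))
  have h5 : Fintype.card k ^ min N π.natDegree ≤ #{u : F | u ∈ U.map φ} := by
    have hT' : ∀ s, s ∈ T.filter (fun s => s.degree < ((min N π.natDegree : ℕ) : WithBot ℕ)) ↔
        s.degree < ((min N π.natDegree : ℕ) : WithBot ℕ) := fun s => by
      rw [mem_filter, hT]
      exact ⟨fun h => h.2, fun h => ⟨h.trans_le (by exact_mod_cast min_le_left _ _), h⟩⟩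
    rw [← card_box5 hT']
    refine card_le_card_of_injOn φ (fun s hs => ?_) fun a ha b hb h => ?_
    · simpa using ⟨s, (hTU s).1 (mem_filter.1 hs).1, rfl⟩
    · have d1 : π ∣ a - b := AdjoinRoot.mk_eq_mk.1 h
      have d2 : (a - b).degree < π.degree := by
        refine (degree_sub_le _ _).trans_lt (max_lt ?_ ?_) <;> rw [degree_eq_natDegree hi.ne_zero]
        · exact ((hT' a).1 ha).trans_le (by exact_mod_cast min_le_right _ _)
        · exact ((hT' b).1 hb).trans_le (by exact_mod_cast min_le_right _ _)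
      exact sub_eq_zero.1 (eq_zero_of_dvd_of_degree_lt d1 d2)
  have hq : (0 : ℝ) < (Fintype.card k : ℝ) ^ min N π.natDegree := by
    have : (0 : ℝ) < Fintype.card k := by exact_mod_cast Fintype.card_pos
    positivity
  have h6 : ((Fintype.card k : ℝ) ^ min N π.natDegree) ≤ #{u : F | u ∈ U.map φ} := by
    exact_mod_cast h5
  simp only [term]
  rw [div_mul_eq_mul_div, le_div_iff₀ hq]
  have h7 := congrArg abs h3
  rw [abs_mul, abs_mul, Nat.abs_cast, Nat.abs_cast, card_box5 hT] at h7
  rw [hF] at h4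
  push_cast at h4 h7
  calc _ ≤ |∑ s ∈ T, ∏ i, chi (φ s + (AdjoinRoot.mk π (c i) + e))| * #{u : F | u ∈ U.map φ} :=
        mul_le_mul_of_nonneg_left h6 (abs_nonneg _)
    _ = _ := by rw [mul_comm, h7]
    _ ≤ _ := by rw [mul_comm]; exact mul_le_mul_of_nonneg_right h4 (by positivity)

end Pool.Agent.H4O

end

section

/-! Abstract van der Corput differencing with lists of labels, and a packing lemma. -/

set_option autoImplicit false
open Finset
open scoped Classical BigOperators

noncomputable section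
namespace Pool.Agent.H4O

theorem v27_shift {G : Type*} [AddCommGroup G] (Ω : Finset G) (g : G → ℝ) (t : G)
    (h : ∀ x ∈ Ω, x + t ∈ Ω) : 𝔼 x ∈ Ω, g (x + t) = 𝔼 x ∈ Ω, g x := by
  have himg : Ω.image (fun x => x + t) = Ω := by
    refine eq_of_subset_of_card_le (fun y hy => ?_) ?_
    · obtain ⟨x, hx, rfl⟩ := mem_image.1 hy; exact h x hx
    · rw [card_image_of_injective _ (add_left_injective t)]
  refine expect_nbij (fun x => x + t) h (fun _ _ => rfl) (add_left_injective t).injOn ?_
  intro y hy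
  have : y ∈ Ω.image (fun x => x + t) := by rw [himg]; exact hy
  obtain ⟨x, hx, rfl⟩ := mem_image.1 this
  exact ⟨x, hx, rfl⟩

theorem v27_abs_le {G : Type*} (Ω : Finset G) (g : G → ℝ) (h : ∀ x ∈ Ω, |g x| ≤ 1) :
    |𝔼 x ∈ Ω, g x| ≤ 1 := by
  rcases Ω.eq_empty_or_nonempty with rfl | hne
  · simp
  refine (Finset.abs_expect_le _ _).trans ?_
  exact (expect_le_expect h).trans (le_of_eq (expect_const hne _))

/-- one Cauchy-Schwarz step -/
theorem v27_cs {G H : Type*} [AddCommGroup G] [AddCommGroup H] (Ω : Finset G) (V : Finset H)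
    (hV : V.Nonempty) (hs : ∀ v ∈ V, ∀ w ∈ V, v - w ∈ V) (τ : H →+ G)
    (hΩ : ∀ x ∈ Ω, ∀ v ∈ V, x + τ v ∈ Ω) (F g : G → ℝ) (h1 : ∀ x ∈ Ω, |F x| ≤ 1)
    (hF : ∀ x ∈ Ω, ∀ v ∈ V, F (x + τ v) = F x) :
    (𝔼 x ∈ Ω, F x * g x) ^ 2 ≤ 𝔼 v ∈ V, 𝔼 x ∈ Ω, g x * g (x + τ v) := by
  rcases Ω.eq_empty_or_nonempty with rfl | hne
  · simp
  have e1 : 𝔼 x ∈ Ω, F x * g x = 𝔼 x ∈ Ω, F x * 𝔼 v ∈ V, g (x + τ v) := by
    simp only [Finset.mul_expect]
    rw [expect_comm, ← expect_const hV (𝔼 x ∈ Ω, F x * g x)]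
    refine expect_congr rfl fun v hv => ?_
    rw [← v27_shift Ω (fun x => F x * g x) (τ v) (fun x hx => hΩ x hx v hv)]
    exact expect_congr rfl fun x hx => by rw [hF x hx v hv]
  have cs := expect_mul_sq_le_sq_mul_sq Ω F (fun x => 𝔼 v ∈ V, g (x + τ v))
  rw [← e1] at cs
  have h2 : 𝔼 x ∈ Ω, F x ^ 2 ≤ 1 :=
    (expect_le_expect fun x hx => (sq_le_one_iff_abs_le_one _).2 (h1 x hx)).trans
      (le_of_eq (expect_const hne _))
  have h3 : 0 ≤ 𝔼 x ∈ Ω, (𝔼 v ∈ V, g (x + τ v)) ^ 2 := expect_nonneg fun _ _ => sq_nonneg _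
  refine cs.trans ((mul_le_of_le_one_left h3 h2).trans (le_of_eq ?_))
  have hneg : ∀ v ∈ V, -v ∈ V := fun v hv => by
    have := hs _ (hs v hv v hv) v hv
    rwa [sub_self, zero_sub] at this
  calc 𝔼 x ∈ Ω, (𝔼 v ∈ V, g (x + τ v)) ^ 2
      = 𝔼 x ∈ Ω, 𝔼 v ∈ V, 𝔼 w ∈ V, g (x + τ v) * g (x + τ w) := by
        refine expect_congr rfl fun x _ => ?_
        rw [sq, expect_mul_expect]
    _ = 𝔼 v ∈ V, 𝔼 w ∈ V, 𝔼 x ∈ Ω, g (x + τ v) * g (x + τ w) := by
        rw [expect_comm]
        exact expect_congr rfl fun v _ => expect_comm _ _ _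
    _ = 𝔼 v ∈ V, 𝔼 w ∈ V, 𝔼 x ∈ Ω, g x * g (x + τ (w + -v)) := by
        refine expect_congr rfl fun v hv => expect_congr rfl fun w _ => ?_
        rw [← v27_shift Ω (fun x => g x * g (x + τ (w + -v))) (τ v) (fun x hx => hΩ x hx v hv)]
        refine expect_congr rfl fun x _ => ?_
        rw [map_add, map_neg]
        congr 2
        abel
    _ = 𝔼 v ∈ V, 𝔼 w ∈ V, 𝔼 x ∈ Ω, g x * g (x + τ w) := by
        refine expect_congr rfl fun v hv => ?_
        exact v27_shift V (fun w => 𝔼 x ∈ Ω, g x * g (x + τ w)) (-v)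
          (fun w hw => by rw [← sub_eq_add_neg]; exact hs w hw v hv)
    _ = _ := expect_const hV _

theorem v27_jensen {H : Type*} (V : Finset H) (hV : V.Nonempty) (f : H → ℝ) (r : ℕ) :
    (𝔼 v ∈ V, f v) ^ 2 ^ r ≤ 𝔼 v ∈ V, |f v| ^ 2 ^ r := by
  induction r with
  | zero => simpa using expect_le_expect fun v _ => le_abs_self (f v)
  | succ r ih =>
    have cs := expect_mul_sq_le_sq_mul_sq V (fun _ => (1 : ℝ)) (fun v => |f v| ^ 2 ^ r)
    simp only [one_mul, one_pow] at cs
    rw [expect_const hV, one_mul] at cs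
    have h0 : |𝔼 v ∈ V, f v| ^ 2 ^ r ≤ 𝔼 v ∈ V, |f v| ^ 2 ^ r := by
      rcases Nat.eq_zero_or_pos r with rfl | hr
      · simpa using Finset.abs_expect_le V f
      · rwa [(Nat.even_pow.2 ⟨even_two, hr.ne'⟩).pow_abs]
    simp only [pow_succ 2 r, pow_mul]
    refine le_trans ?_ cs
    rw [← sq_abs, abs_pow]
    exact pow_le_pow_left₀ (by positivity) h0 2

theorem v27_prod_le {A : Type*} (S : List A) (f : A → ℝ) (h : ∀ a, |f a| ≤ 1) :
    |(S.map f).prod| ≤ 1 := by
  induction S with
  | nil => simp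
  | cons a S ih =>
    rw [List.map_cons, List.prod_cons, abs_mul]
    exact mul_le_one₀ (h a) (abs_nonneg _) ih

/-- iterated differencing; the labels form a list with a simple element -/
theorem vdc_list {G H A : Type*} [AddCommGroup G] [AddCommGroup H] [AddCommGroup A]
    (Ω : Finset G) (V : Finset H) (hV : V.Nonempty) (hs : ∀ v ∈ V, ∀ w ∈ V, v - w ∈ V)
    (Ψ : A → G → ℝ) (hΨ : ∀ a x, |Ψ a x| ≤ 1) {β : ℝ} (hβ : 0 ≤ β) (r : ℕ) :
    ∀ (τ : Fin r → H →+ G) (α : Fin r → H → A) (F : Fin r → G → ℝ) (S : List A),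
      (∀ i, ∀ x ∈ Ω, ∀ v ∈ V, x + τ i v ∈ Ω) → (∀ i, Set.InjOn (α i) V) →
      (∀ i a, ∀ x ∈ Ω, ∀ v ∈ V, Ψ a (x + τ i v) = Ψ (a + α i v) x) →
      (∀ i, ∀ x ∈ Ω, |F i x| ≤ 1) → (∀ i, ∀ x ∈ Ω, ∀ v ∈ V, F i (x + τ i v) = F i x) →
      (∃ a, S.count a = 1) →
      (∀ T : List A, T.length = 2 ^ r * S.length → (∃ a, T.count a = 1) →
        |𝔼 x ∈ Ω, (T.map fun a => Ψ a x).prod| ≤ β) →
      |𝔼 x ∈ Ω, (∏ i, F i x) * (S.map fun a => Ψ a x).prod| ^ 2 ^ r ≤
        β + (2 ^ r - 1) * S.length / #V := by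
  induction r with
  | zero =>
    intro τ α F S _ _ _ _ _ hS hb
    simpa using hb S (by simp) hS
  | succ r ih =>
    intro τ α F S hΩ hα hc h1 hF hS hb
    obtain ⟨a₀, ha₀⟩ := hS
    have hVc : (0 : ℝ) < #V := by exact_mod_cast card_pos.2 hV
    set g : G → ℝ := fun x => (∏ i : Fin r, F i.succ x) * (S.map fun a => Ψ a x).prod with hg
    have cs := v27_cs Ω V hV hs (τ 0) (hΩ 0) (F 0) g (h1 0) (hF 0)
    have e0 : 𝔼 x ∈ Ω, (∏ i, F i x) * (S.map fun a => Ψ a x).prod = 𝔼 x ∈ Ω, F 0 x * g x :=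
      expect_congr rfl fun x _ => by rw [Fin.prod_univ_succ, hg, mul_assoc]
    have hg1 : ∀ x ∈ Ω, |g x| ≤ 1 := fun x hx => by
      rw [hg, abs_mul, abs_prod]
      exact mul_le_one₀ (prod_le_one (fun _ _ => abs_nonneg _) fun i _ => h1 _ x hx)
        (abs_nonneg _) (v27_prod_le S _ fun a => hΨ a x)
    set B : Finset H := V.filter fun v => a₀ ∈ S.map fun a => a + α 0 v with hB
    have hBc : #B ≤ S.length := by
      refine le_trans (card_le_card_of_injOn (t := S.toFinset) (fun v => a₀ - α 0 v) ?_ ?_)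
        (List.toFinset_card_le S)
      · intro v hv
        obtain ⟨a, ha, e⟩ := List.mem_map.1 (mem_filter.1 hv).2
        have : a₀ - α 0 v = a := by rw [← e]; abel
        simpa [this] using ha
      · intro v hv w hw e
        exact hα 0 (mem_filter.1 hv).1 (mem_filter.1 hw).1 (sub_right_injective e)
    have hp : (1 : ℝ) ≤ 2 ^ r := one_le_pow₀ one_le_two
    have hq : 0 ≤ ((2 : ℝ) ^ r - 1) * (2 * S.length) / #V :=
      div_nonneg (mul_nonneg (by linarith) (by positivity)) hVc.le
    have key : ∀ v ∈ V, |𝔼 x ∈ Ω, g x * g (x + τ 0 v)| ^ 2 ^ r ≤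
        (β + (2 ^ r - 1) * (2 * S.length) / #V) + if v ∈ B then 1 else 0 := by
      intro v hv
      split_ifs with hvB
      · have : |𝔼 x ∈ Ω, g x * g (x + τ 0 v)| ≤ 1 := v27_abs_le Ω _ fun x hx => by
          rw [abs_mul]
          exact mul_le_one₀ (hg1 x hx) (abs_nonneg _) (hg1 _ (hΩ 0 x hx v hv))
        have := pow_le_one₀ (n := 2 ^ r) (abs_nonneg _) this
        linarith
      · have hn : a₀ ∉ S.map fun a => a + α 0 v := fun h => hvB (mem_filter.2 ⟨hv, h⟩)
        have := ih (fun i => τ i.succ) (fun i => α i.succ)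
          (fun i x => F i.succ x * F i.succ (x + τ 0 v)) (S ++ S.map fun a => a + α 0 v)
          (fun i => hΩ i.succ) (fun i => hα i.succ) (fun i => hc i.succ)
          (fun i x hx => by
            rw [abs_mul]
            exact mul_le_one₀ (h1 _ x hx) (abs_nonneg _) (h1 _ _ (hΩ 0 x hx v hv)))
          (fun i x hx w hw => by
            rw [hF i.succ x hx w hw, add_right_comm, hF i.succ _ (hΩ 0 x hx v hv) w hw])
          ⟨a₀, by rw [List.count_append, ha₀, List.count_eq_zero_of_not_mem hn]⟩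
          (fun T hT => hb T (by rw [hT, List.length_append, List.length_map]; ring))
        rw [List.length_append, List.length_map] at this
        push_cast at this
        rw [add_zero, two_mul]
        refine le_trans (le_of_eq ?_) this
        congr 2
        refine expect_congr rfl fun x hx => ?_
        rw [hg, List.map_append, List.prod_append, List.map_map, prod_mul_distrib]
        have : (S.map fun a => Ψ a (x + τ 0 v)) =
            S.map ((fun a => Ψ a x) ∘ fun a => a + α 0 v) :=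
          List.map_congr_left fun a _ => hc 0 a x hx v hv
        simp only [this]
        ring
    rw [e0, pow_succ' 2 r, pow_mul, sq_abs]
    refine (pow_le_pow_left₀ (sq_nonneg _) cs _).trans ((v27_jensen V hV _ r).trans
      ((expect_le_expect key).trans ?_))
    rw [expect_add_distrib, expect_const hV]
    have : 𝔼 v ∈ V, (if v ∈ B then (1 : ℝ) else 0) ≤ S.length / #V := by
      rw [expect_eq_sum_div_card, sum_boole]
      refine div_le_div_of_nonneg_right ?_ hVc.le
      exact_mod_cast (card_le_card fun v hv => (mem_filter.1 hv).2).trans hBc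
    have e : ((2 : ℝ) ^ (r + 1) - 1) * S.length / #V =
        (2 ^ r - 1) * (2 * S.length) / #V + S.length / #V := by
      rw [pow_succ]; ring
    rw [e]
    linarith

/-- packing: weights at most `T` and total at most `r T / 2` fit into `r + 1` groups -/
theorem pack {ι : Type*} (w : ι → ℕ) (T : ℕ) (r : ℕ) : ∀ s : Finset ι, (∀ i ∈ s, w i ≤ T) →
    2 * ∑ i ∈ s, w i ≤ r * (T + 1) → ∃ c : ι → Fin (r + 1),
      ∀ j, ∑ i ∈ s with c i = j, w i ≤ T := by
  induction r with
  | zero =>
    intro s _ h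
    refine ⟨fun _ => 0, fun j => ?_⟩
    exact (sum_le_sum_of_subset (f := w) (filter_subset _ s)).trans (by omega)
  | succ r ih =>
    intro s h1 h2
    obtain ⟨t, ht, hmax⟩ := exists_max_image (s.powerset.filter fun t => ∑ i ∈ t, w i ≤ T)
      (fun t => ∑ i ∈ t, w i) ⟨∅, by simp⟩
    rw [mem_filter, mem_powerset] at ht
    have hsum := sum_sdiff (f := w) ht.1
    have h3 : 2 * ∑ i ∈ s \ t, w i ≤ r * (T + 1) := by
      by_cases h4 : T + 1 ≤ 2 * ∑ i ∈ t, w i
      · rw [add_mul] at h2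
        omega
      · have : ∑ i ∈ s \ t, w i = 0 := sum_eq_zero fun i hi => by
          rw [mem_sdiff] at hi
          by_contra hne
          have a1 := hmax {i} (by simp [hi.1, h1 i hi.1])
          rw [sum_singleton] at a1
          have a2 := hmax (insert i t) (by
            rw [mem_filter, mem_powerset, sum_insert hi.2]
            exact ⟨insert_subset hi.1 ht.1, by omega⟩)
          rw [sum_insert hi.2] at a2
          omega
        omega
    obtain ⟨c, hc⟩ := ih (s \ t) (fun i hi => h1 i (mem_sdiff.1 hi).1) h3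
    refine ⟨fun i => if i ∈ t then 0 else (c i).succ, fun j => ?_⟩
    refine Fin.cases ?_ (fun j => ?_) j
    · refine le_trans (sum_le_sum_of_subset fun i hi => ?_) ht.2
      have := (mem_filter.1 hi).2
      by_contra hn
      simp only [if_neg hn] at this
      exact Fin.succ_ne_zero _ this
    · refine le_trans (sum_le_sum_of_subset fun i hi => ?_) (hc j)
      obtain ⟨a1, a2⟩ := mem_filter.1 hi
      by_cases hn : i ∈ t
      · simp only [if_pos hn] at a2
        exact absurd a2.symm (Fin.succ_ne_zero _)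
      · simp only [if_neg hn] at a2
        exact mem_filter.2 ⟨mem_sdiff.2 ⟨a1, hn⟩, Fin.succ_injective _ a2⟩

end Pool.Agent.H4O

end

end

section

/-!
Cancellation along one good line.
-/

set_option autoImplicit false

namespace Pool.Agent.H4O

open Polynomial Finset Pool.Agent.H48P UniqueFactorizationMonoid
open scoped Classical BigOperators

variable {k : Type} [Field k] [Fintype k]

theorem jac_prod_left {ι : Type} (s : Finset ι) (Q : ι → k[X]) (hQ : ∀ i, (Q i).Monic)
    (w : k[X]) : jac (∏ i ∈ s, Q i) w = ∏ i ∈ s, jac (Q i) w := by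
  induction s using Finset.induction_on with
  | empty => simp [jac_one_left]
  | insert a s ha ih =>
    rw [prod_insert ha, prod_insert ha,
      jac_mul_left (hQ a) (monic_prod_of_monic _ _ fun i _ => hQ i), ih]

omit [Fintype k] in
/-- A monic polynomial all of whose primes have degree `≤ T` is a product of a bounded number of
pieces whose radicals have degree `≤ T`. -/
theorem exists_pieces {Q : k[X]} (hQ : Q.Monic) {T r : ℕ}
    (hT : ∀ ρ : k[X], ρ.Monic → Irreducible ρ → ρ ∣ Q → ρ.natDegree ≤ T)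
    (hr : 2 * Q.natDegree ≤ r * (T + 1)) :
    ∃ (Qs Cs : Fin (r + 1) → k[X]) (m : ℕ), (∀ j, (Qs j).Monic) ∧ Q = ∏ j, Qs j ∧
      (∀ j, Qs j ∣ Cs j ^ m) ∧ (∀ j, (Cs j).Monic) ∧ (∀ j, (Cs j).natDegree ≤ T) ∧
      ∀ j, Cs j ∣ Q := by
  set F := normalizedFactors Q with hF
  have mem : ∀ ρ ∈ F, Irreducible ρ ∧ ρ.Monic ∧ ρ ∣ Q := fun ρ h =>
    (Polynomial.mem_normalizedFactors_iff hQ.ne_zero).1 h
  have hprod : F.prod = Q := by rw [hF, prod_normalizedFactors_eq hQ.ne_zero, hQ.normalize_eq_self]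
  have hall : ∏ ρ ∈ F.toFinset, ρ ∣ Q := by
    rw [← hprod]; exact Multiset.toFinset_prod_dvd_prod F
  have hsum : ∑ ρ ∈ F.toFinset, ρ.natDegree ≤ Q.natDegree := by
    rw [← natDegree_prod_of_monic _ _ fun ρ h => (mem ρ (Multiset.mem_toFinset.1 h)).2.1]
    exact natDegree_le_of_dvd hall hQ.ne_zero
  obtain ⟨c, hc⟩ := pack (fun ρ : k[X] => ρ.natDegree) T r F.toFinset (fun ρ h => by
    obtain ⟨a, b, d⟩ := mem ρ (Multiset.mem_toFinset.1 h)
    exact hT ρ b a d) (by omega)
  have mon : ∀ j, ∀ ρ ∈ F.toFinset.filter (c · = j), ρ.Monic := fun j ρ h =>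
    (mem ρ (Multiset.mem_toFinset.1 (mem_filter.1 h).1)).2.1
  refine ⟨fun j => ∏ ρ ∈ F.toFinset with c ρ = j, ρ ^ F.count ρ,
    fun j => ∏ ρ ∈ F.toFinset with c ρ = j, ρ, F.card,
    fun j => monic_prod_of_monic _ _ fun ρ h => (mon j ρ h).pow _, ?_, fun j => ?_,
    fun j => monic_prod_of_monic _ _ (mon j), fun j => ?_, fun j => ?_⟩
  · rw [prod_fiberwise F.toFinset c fun ρ => ρ ^ F.count ρ, ← Finset.prod_multiset_count, hprod]
  · rw [← prod_pow]
    exact prod_dvd_prod_of_dvd _ _ fun ρ _ => pow_dvd_pow ρ (Multiset.count_le_card ρ F)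
  · rw [natDegree_prod_of_monic _ _ (mon j)]
    exact hc j
  · exact (prod_dvd_prod_of_subset _ _ _ (filter_subset _ _)).trans hall

theorem count_map_one {A B : Type} [DecidableEq A] [DecidableEq B] (φ : A → B) (S : List A) (a : A) (h : S.count a = 1)
    (hφ : ∀ b ∈ S, φ b = φ a → b = a) : (S.map φ).count (φ a) = 1 := by
  rw [← h, List.count, List.count, List.countP_map]
  refine List.countP_congr fun b hb => ?_
  simp only [Function.comp, beq_iff_eq]
  exact ⟨hφ b hb, fun e => by rw [e]⟩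

theorem get_simple {A : Type} [DecidableEq A] (S : List A) (a : A) (h : S.count a = 1) :
    ∃ i₀ : Fin S.length, ∀ i, S.get i = S.get i₀ → i = i₀ := by
  have h1 : #{i : Fin S.length | S.get i = a} = 1 := by
    rw [← h]
    exact Fin.card_filter_univ_eq_vector_get_eq_count a ⟨S, rfl⟩
  obtain ⟨i₀, hi⟩ := card_eq_one.1 h1
  have h2 : S.get i₀ = a := by
    have : i₀ ∈ ({i : Fin S.length | S.get i = a} : Finset _) := by rw [hi]; simp
    exact (mem_filter.1 this).2
  refine ⟨i₀, fun i e => ?_⟩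
  have : i ∈ ({i : Fin S.length | S.get i = a} : Finset _) :=
    mem_filter.2 ⟨mem_univ _, e.trans h2⟩
  rwa [hi, mem_singleton] at this

/-- **One line.** -/
theorem line_bound (p : ℕ) [Fact p.Prime] [CharP k p] (hp : p ≠ 2) {π y Q Z : k[X]}
    (hπ : π.Monic) (hi : Irreducible π) (hy : ¬π ∣ y) (hQ : Q.Monic) (hπQ : ¬π ∣ Q)
    (hZ : ¬π ∣ Z) (f : k[X]) {N T h r : ℕ} (hZT : Z.natDegree ≤ T)
    (hT : ∀ ρ : k[X], ρ.Monic → Irreducible ρ → ρ ∣ Q → ρ.natDegree ≤ T)
    (hr : 2 * Q.natDegree ≤ r * (T + 1)) (hN : T + h ≤ N) (h1 : 2 * h ≤ π.natDegree)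
    (h2 : π.natDegree + 2 * h ≤ 2 * N) {Ω : Finset k[X]} (hΩ : ∀ s, s ∈ Ω ↔ s.degree < N)
    (Θ : k[X] → ℝ) (hΘ : ∀ w, |Θ w| ≤ 1) (hper : ∀ w t, Θ (w + Z * t) = Θ w)
    (S : List k[X]) (hS : ∀ a ∈ S, a.degree < π.natDegree) (hs : ∃ a, S.count a = 1) :
    |𝔼 s ∈ Ω, (S.map fun a => Θ (f + y ^ (p - 1) * (s + a) ^ p) *
        jac (π * Q) (f + y ^ (p - 1) * (s + a) ^ p)).prod| ^ 2 ^ (r + 2) ≤
      6 * 2 ^ (r + 2) * S.length / (Fintype.card k : ℝ) ^ h := by
  have := Fact.mk hi
  have hpp : p.Prime := Fact.out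
  have htwo : (2 : k) ≠ 0 := fun e => hp ((Nat.prime_dvd_prime_iff_eq hpp Nat.prime_two).1
    ((CharP.cast_eq_zero_iff k p 2).1 (by exact_mod_cast e)))
  have H := japi htwo
  have hq1 : (1 : ℝ) ≤ Fintype.card k := by exact_mod_cast Fintype.card_pos
  obtain ⟨Qs, Cs, m, q1, q2, q3, q4, q5, q6⟩ := exists_pieces hQ hT hr
  set g := y ^ (p - 1) with hg
  let A := AdjoinRoot π
  let mk : k[X] →+* A := AdjoinRoot.mk π
  let lf : A → k[X] := Function.surjInv (AdjoinRoot.mk_surjective (g := π))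
  have hlf : ∀ a, mk (lf a) = a := Function.surjInv_eq _
  let Ψ : A → k[X] → ℝ := fun a s => jac π (f + g * (s + lf a) ^ p)
  have cg : ∀ u v : k[X], mk u = mk v → jac π (f + g * u ^ p) = jac π (f + g * v ^ p) :=
    fun u v e => jac_congr hπ (AdjoinRoot.mk_eq_mk.1 (by
      change mk _ = mk _
      simp only [map_add, map_mul, map_pow, e]))
  let Zs : Fin (r + 2) → k[X] := Fin.cons Z Cs
  have hZ1 : ∀ i, ¬π ∣ Zs i := Fin.cases hZ fun j e => hπQ (e.trans (q6 j))
  have hZ2 : ∀ i, (Zs i).natDegree ≤ T := Fin.cases hZT q5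
  let Φ : Fin (r + 2) → k[X] → ℝ := Fin.cons Θ fun j => jac (Qs j)
  have hΦ1 : ∀ i w, |Φ i w| ≤ 1 := Fin.cases hΘ fun j w => abs_jac_le _ _
  have hΦ2 : ∀ i w t, Φ i (w + Zs i * t) = Φ i w := Fin.cases hper fun j w t =>
    H.congr_rad (q1 j) (q3 j) (by simp [Zs])
  let V : Finset k[X] := Ω.filter fun v => v.degree < (h : WithBot ℕ)
  have hV : ∀ v, v ∈ V ↔ v.degree < (h : WithBot ℕ) := fun v => by
    rw [mem_filter, hΩ]
    exact ⟨fun e => e.2, fun e => ⟨e.trans_le (by exact_mod_cast (by omega : h ≤ N)), e⟩⟩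
  have absl : ∀ (L : List k[X]) (G : k[X] → ℝ), (∀ a, |G a| ≤ 1) → |(L.map G).prod| ≤ 1 := by
    intro L G hG
    induction L with
    | nil => simp
    | cons a L ih =>
      rw [List.map_cons, List.prod_cons, abs_mul]
      exact mul_le_one₀ (hG a) (abs_nonneg _) ih
  have main := vdc_list Ω V ⟨0, (hV 0).2 (by simp)⟩
    (fun v hv w hw => (hV _).2 ((degree_sub_le _ _).trans_lt (max_lt ((hV _).1 hv) ((hV _).1 hw))))
    Ψ (fun a x => abs_jac_le _ _)
    (β := 5 * (2 ^ (r + 2) * S.length) / (Fintype.card k : ℝ) ^ h) (by positivity) (r + 2)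
    (fun i => AddMonoidHom.mulLeft (Zs i)) (fun i v => mk (Zs i * v))
    (fun i s => (S.map fun a => Φ i (f + g * (s + a) ^ p)).prod) (S.map mk)
    (fun i x hx v hv => ?_) (fun i v hv w hw e => ?_) (fun i a x _ v _ => ?_)
    (fun i x _ => absl _ _ fun a => hΦ1 _ _) (fun i x _ v _ => ?_) ?_ (fun L hL hL1 => ?_)
  · have e : ∀ s, (S.map fun a => Θ (f + g * (s + a) ^ p) *
        jac (π * Q) (f + g * (s + a) ^ p)).prod =
        (∏ i, (S.map fun a => Φ i (f + g * (s + a) ^ p)).prod) *
          ((S.map mk).map fun a => Ψ a s).prod := fun s => by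
      clear main hS hs
      induction S with
      | nil => simp
      | cons a S ih =>
        simp only [List.map_cons, List.prod_cons, ih, prod_mul_distrib]
        rw [jac_mul_left hπ hQ, q2, jac_prod_left _ _ q1, Fin.prod_univ_succ (fun i => Φ i _)]
        have : Ψ (mk a) s = jac π (f + g * (s + a) ^ p) := cg _ _ (by rw [map_add, map_add, hlf])
        rw [this]
        simp only [Φ, Fin.cons_zero, Fin.cons_succ]
        ring
    simp only [e]
    refine main.trans ?_
    rw [card_box5 hV, List.length_map]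
    push_cast
    rw [← add_div]
    gcongr
    have : (0 : ℝ) ≤ S.length := by positivity
    nlinarith
  · rw [hΩ] at hx ⊢
    refine (degree_add_le _ _).trans_lt (max_lt hx ?_)
    rcases eq_or_ne v 0 with rfl | v0
    · simp
    have z0 : Zs i ≠ 0 := fun e => hZ1 i (e ▸ dvd_zero π)
    have d1 := (natDegree_lt_iff_degree_lt v0).2 ((hV v).1 hv)
    have d2 := hZ2 i
    rw [AddMonoidHom.coe_mulLeft, ← natDegree_lt_iff_degree_lt (mul_ne_zero z0 v0),
      natDegree_mul z0 v0]
    omega
  · have d1 : π ∣ Zs i * (v - w) := by rw [mul_sub]; exact AdjoinRoot.mk_eq_mk.1 e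
    have d2 := (hi.prime.dvd_or_dvd d1).resolve_left (hZ1 i)
    refine sub_eq_zero.1 (eq_zero_of_dvd_of_degree_lt d2 ?_)
    rw [degree_eq_natDegree hi.ne_zero]
    exact ((degree_sub_le _ _).trans_lt (max_lt ((hV _).1 hv) ((hV _).1 hw))).trans_le
      (by exact_mod_cast (by omega : h ≤ π.natDegree))
  · exact cg _ _ (by
      simp only [AddMonoidHom.coe_mulLeft, map_add, hlf]
      ring)
  · refine congrArg List.prod (List.map_congr_left fun a _ => ?_)
    obtain ⟨j, hj⟩ : ∃ j, p = j + 1 := ⟨p - 1, by have := hpp.pos; omega⟩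
    have e : f + g * (x + Zs i * v + a) ^ p =
        f + g * (x + a) ^ p + Zs i * (g * Zs i ^ j * v ^ p) := by
      rw [add_right_comm, add_pow_char (x + a), mul_pow, show Zs i ^ p = Zs i * Zs i ^ j by
        rw [hj, pow_succ']]
      ring
    rw [AddMonoidHom.coe_mulLeft, e, hΦ2]
  · obtain ⟨a, ha⟩ := hs
    have ham : a ∈ S := List.count_pos_iff.1 (by omega)
    refine ⟨mk a, ?_⟩
    convert count_map_one mk S a ha fun b hb e => ?_
    refine sub_eq_zero.1 (eq_zero_of_dvd_of_degree_lt (AdjoinRoot.mk_eq_mk.1 e) ?_)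
    rw [degree_eq_natDegree hi.ne_zero]
    exact (degree_sub_le _ _).trans_lt (max_lt (hS b hb) (hS a ham))
  · obtain ⟨a, ha⟩ := hL1
    obtain ⟨i₀, hi₀⟩ := get_simple L a (by convert ha)
    have hb := base_line p hp hπ hi hy f hΩ (fun i : Fin L.length => lf (L.get i)) i₀ fun i e =>
      hi₀ i (by rw [← hlf (L.get i), ← hlf (L.get i₀)]; exact AdjoinRoot.mk_eq_mk.2 e)
    have e : ∀ s, (L.map fun a => Ψ a s).prod =
        ∏ i : Fin L.length, jac π (f + g * (s + lf (L.get i)) ^ p) := fun s => by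
      rw [← List.prod_ofFn, ← List.ofFn_getElem_eq_map]
      rfl
    simp only [e]
    rw [expect_eq_sum_div_card, card_box5 hΩ, abs_div, Nat.abs_cast]
    push_cast
    rw [div_le_iff₀ (by positivity)]
    refine hb.trans (mul_le_mul_of_nonneg_right ?_ (by positivity))
    rw [Fintype.card_fin, hL, List.length_map, div_le_div_iff₀ (by positivity) (by positivity)]
    push_cast
    rw [mul_assoc]
    refine mul_le_mul_of_nonneg_left ?_ (by positivity)
    obtain ⟨j, hj⟩ : ∃ j, min N π.natDegree = j + h := ⟨min N π.natDegree - h, by omega⟩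
    rw [hj, pow_add]
    refine mul_le_mul_of_nonneg_right (Real.sqrt_le_iff.2 ⟨by positivity, ?_⟩) (by positivity)
    rw [← pow_mul]
    exact pow_le_pow_right₀ hq1 (by omega)

end Pool.Agent.H4O

end

section

/-! h4o row LINE: one good line (paper B) -/

set_option autoImplicit false

open Polynomial Finset Filter
open scoped Classical BigOperators

noncomputable section
namespace Pool.Agent.H4O

variable {k : Type} [Field k] [Fintype k] {p : ℕ} [Fact p.Prime] [CharP k p]

omit [CharP k p] in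
theorem line_mem {n γ : ℕ} {y f u : k[X]} (hy : y.natDegree ≤ γ) (hf : f ∈ mon k n)
    (hu : u ∈ box k (n / p - γ)) : f + y ^ (p - 1) * u ^ p ∈ mon k n ∧
      (y ^ (p - 1) * u ^ p).degree < n := by
  have hp : p.Prime := Fact.out
  have h1 : (y ^ (p - 1) * u ^ p).degree < n := by
    rcases eq_or_ne (y ^ (p - 1) * u ^ p) 0 with e | e
    · rw [e]; simp
    have u0 : u ≠ 0 := by rintro rfl; simp [hp.ne_zero] at e
    have d1 := (natDegree_lt_iff_degree_lt u0).2 (mem_box.1 hu)
    rw [← natDegree_lt_iff_degree_lt e]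
    refine natDegree_mul_le.trans_lt ?_
    rw [natDegree_pow, natDegree_pow]
    have d2 : p * (u.natDegree + γ + 1) ≤ n :=
      (Nat.mul_le_mul_left p (by omega)).trans (Nat.mul_div_le n p)
    have d3 : (p - 1) * y.natDegree ≤ p * γ := Nat.mul_le_mul (Nat.sub_le _ _) hy
    have := hp.pos
    nlinarith
  obtain ⟨m1, m2⟩ := mem_mon.1 hf
  have h2 : (y ^ (p - 1) * u ^ p).degree < f.degree := by
    rwa [degree_eq_natDegree m1.ne_zero, m2]
  exact ⟨mem_mon.2 ⟨m1.add_of_left h2, by rw [natDegree_add_eq_left_of_degree_lt h2, m2]⟩, h1⟩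

omit [Fintype k] in
theorem line_deriv (y f u : k[X]) :
    derivative ((f + y ^ (p - 1) * u ^ p) * y) = derivative (f * y) := by
  have hp : p.Prime := Fact.out
  have e : (f + y ^ (p - 1) * u ^ p) * y = f * y + (y * u) ^ p := by
    obtain ⟨j, hj⟩ : ∃ j, p = j + 1 := ⟨p - 1, by have := hp.pos; omega⟩
    rw [mul_pow, show y ^ p = y ^ (p - 1) * y by rw [hj, pow_succ, Nat.add_sub_cancel]]
    ring
  rw [e, derivative_add, derivative_pow]
  simp

omit [Fintype k] in
theorem line_dC (u : k[X]) (c : k) : derivative (u * C c) = derivative u * C c := by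
  rw [derivative_mul, derivative_C, mul_zero, add_zero]

omit [Fintype k] in
theorem line_diff (S : List k[X]) (a b : k[X] → ℝ) (P : k[X] → Prop) (ha : ∀ x, |a x| ≤ 1)
    (hb : ∀ x, |b x| ≤ 1) (h : ∀ x ∈ S, ¬P x → a x = b x) :
    |(S.map a).prod - (S.map b).prod| ≤ 2 * (S.map fun x => if P x then (1 : ℝ) else 0).sum := by
  have absl : ∀ (L : List k[X]) (G : k[X] → ℝ), (∀ a, |G a| ≤ 1) → |(L.map G).prod| ≤ 1 := by
    intro L G hG
    induction L with
    | nil => simp
    | cons a L ih =>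
      rw [List.map_cons, List.prod_cons, abs_mul]
      exact mul_le_one₀ (hG a) (abs_nonneg _) ih
  have nn : ∀ z ∈ S.map fun x => if P x then (1 : ℝ) else 0, 0 ≤ z := fun z hz => by
    obtain ⟨x, -, rfl⟩ := List.mem_map.1 hz
    split_ifs <;> norm_num
  by_cases c : ∃ x ∈ S, P x
  · obtain ⟨x, hx, hP⟩ := c
    have h1 := List.single_le_sum nn 1 (List.mem_map.2 ⟨x, hx, if_pos hP⟩)
    have h2 := abs_sub (S.map a).prod (S.map b).prod
    linarith [absl S a ha, absl S b hb]
  · push Not at c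
    rw [List.map_congr_left fun x hx => h x hx (c x hx), sub_self, abs_zero]
    exact mul_nonneg zero_le_two (List.sum_nonneg nn)

theorem line (h2 : p ≠ 2) (σ γ L : ℕ) {ε : ℝ} (hε : 0 < ε) : ∀ᶠ n in atTop,
    ∀ (y f : k[X]) (S : Multiset k[X]), y ≠ 0 → y.natDegree ≤ γ → f ∈ mon k n → S.card = σ →
      (∃ a, S.count a = 1) → (∀ a ∈ S, a ∈ box k γ) → Good p n (derivative (f * y)) →
      |𝔼 s ∈ box k (n / p - γ), (S.map fun a => lam (f + y ^ (p - 1) * (s + a) ^ p)).prod| ≤
        ε + 2 * 𝔼 s ∈ box k (n / p - γ),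
          (S.map fun a => if Big L (f + y ^ (p - 1) * (s + a) ^ p) then (1 : ℝ) else 0).sum := by
  have hp : p.Prime := Fact.out
  have htwo : (2 : k) ≠ 0 := fun e => h2 ((Nat.prime_dvd_prime_iff_eq hp Nat.prime_two).1
    ((CharP.cast_eq_zero_iff k p 2).1 (by exact_mod_cast e)))
  have H := japi htwo
  set DL : k[X] := ∏ e ∈ range L, ∏ d ∈ mon k e, d with hDL
  have DLm : DL.Monic := monic_prod_of_monic _ _ fun e _ =>
    monic_prod_of_monic _ _ fun d hd => (mem_mon.1 hd).1
  have DLd : ∀ d : k[X], d.Monic → d.natDegree < L → d ∣ DL := fun d h1 h3 =>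
    (dvd_prod_of_mem (fun d => d) (mem_mon.2 ⟨h1, rfl⟩)).trans
      (dvd_prod_of_mem (fun e => ∏ d ∈ mon k e, d) (mem_range.2 h3))
  have hq : (1 : ℝ) < Fintype.card k := by exact_mod_cast Fintype.one_lt_card
  obtain ⟨h₁, hh₁⟩ := pow_unbounded_of_one_lt (6 * 2 ^ (4 * p + 2) * σ / ε ^ 2 ^ (4 * p + 2)) hq
  have ev : Tendsto (fun n : ℕ => n / p / (4 * p ^ 2)) atTop atTop :=
    (Nat.tendsto_div_const_atTop (by have := hp.pos; positivity)).comp
      (Nat.tendsto_div_const_atTop hp.ne_zero)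
  filter_upwards [ev.eventually_ge_atTop (h₁ + γ + (2 * L + 1) * (γ + DL.natDegree) + 1)]
    with n hn y f S y0 hyγ hf hσ hs hS hG
  obtain ⟨π, C', hB, πm, πi, πC, g1, g2, g3⟩ := hG
  set N' := n / p with hN'
  set h₀ := N' / (4 * p ^ 2) with hh₀
  have a1 : 4 * h₀ ≤ N' := by
    have := Nat.mul_div_le N' (4 * p ^ 2)
    have h3 : 1 ≤ p ^ 2 := Nat.one_le_pow _ _ hp.pos
    nlinarith
  have a2 : n < p * (N' + 1) := Nat.lt_mul_div_succ n hp.pos
  have a3 : γ + DL.natDegree ≤ (2 * L + 1) * (γ + DL.natDegree) :=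
    Nat.le_mul_of_pos_left _ (by omega)
  have l0 := leadingCoeff_ne_zero.2 y0
  set y₀ := y * C y.leadingCoeff⁻¹ with hy₀
  have ym : y₀.Monic := monic_mul_leadingCoeff_inv y0
  have yd : y₀.natDegree = y.natDegree := natDegree_mul_C (inv_ne_zero l0)
  set D := y₀ * DL with hD
  have Dm : D.Monic := ym.mul DLm
  have Dd : D.natDegree ≤ γ + DL.natDegree := by rw [hD, ym.natDegree_mul DLm]; omega
  have πD : ¬π ∣ D := fun e => by have := natDegree_le_of_dvd e Dm.ne_zero; omega
  have C0 : C' ≠ 0 := fun e => πC (e ▸ dvd_zero π)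
  have hB' : derivative (f * y₀) = π * (C' * C y.leadingCoeff⁻¹) := by
    rw [hy₀, ← mul_assoc, line_dC, hB, mul_assoc]
  have B0 : derivative (f * y₀) ≠ 0 := by
    rw [hB']; exact mul_ne_zero πm.ne_zero (mul_ne_zero C0 (C_ne_zero.2 (inv_ne_zero l0)))
  obtain ⟨B₀, Bs, m, b1, b2, b3, b4, b5⟩ := exists_split D _ _ rfl B0
  set c := (derivative (f * y₀)).leadingCoeff with hc
  have c0 : c ≠ 0 := leadingCoeff_ne_zero.2 B0
  obtain ⟨Q, rfl⟩ : π ∣ Bs := by
    have e : π ∣ C c * B₀ * Bs := by rw [← b5, hB']; exact dvd_mul_right _ _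
    refine (πi.prime.dvd_or_dvd e).resolve_left fun e => ?_
    rcases πi.prime.dvd_or_dvd e with e | e
    · exact πi.not_isUnit (isUnit_of_dvd_unit e (isUnit_C.2 c0.isUnit))
    · exact πD (πi.prime.dvd_of_dvd_pow (e.trans b3))
  have Qm : Q.Monic := πm.of_mul_monic_left b2
  have QC : Q ∣ C' := by
    have e : C' * C y.leadingCoeff⁻¹ = C c * B₀ * Q :=
      mul_left_cancel₀ πm.ne_zero (by rw [← hB', b5]; ring)
    refine ⟨C c * B₀ * C y.leadingCoeff, ?_⟩
    have e2 : C' = C' * C y.leadingCoeff⁻¹ * C y.leadingCoeff := by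
      rw [mul_assoc, ← C_mul, inv_mul_cancel₀ l0, C_1, mul_one]
    rw [e2, e]
    ring
  have Qd : Q.natDegree ≤ n + γ := by
    have e1 : Q ∣ derivative (f * y₀) := by rw [hB']; exact (QC.mul_right _).mul_left _
    have e2 := natDegree_le_of_dvd e1 B0
    have e3 := natDegree_derivative_le (f * y₀)
    have e4 : (f * y₀).natDegree ≤ f.natDegree + y₀.natDegree := natDegree_mul_le
    have := (mem_mon.1 hf).2
    omega
  obtain ⟨Θ, t1, t2, t3⟩ := H.exists_theta (fun u => by rw [abs_pow, abs_neg, abs_one, one_pow])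
    c (2 * L) n ym (dvd_mul_right y₀ DL) b1 b3 b2 b4
  induction S using Quotient.inductionOn with
  | _ S =>
  simp only [Multiset.quot_mk_to_coe, Multiset.coe_card, Multiset.coe_count, Multiset.mem_coe,
    Multiset.map_coe, Multiset.prod_coe, Multiset.sum_coe] at hσ hs hS ⊢
  obtain ⟨T, hT⟩ : ∃ T, T + h₀ = N' := ⟨N' - h₀, by omega⟩
  have hb := line_bound p h2 (Z := D ^ (2 * L + 1)) πm πi
    (fun e => πD ((e.mul_right _).mul_right _)) Qm (fun e => πC (e.trans QC))
    (fun e => πD (πi.prime.dvd_of_dvd_pow e)) f (N := N' - γ) (T := T) (h := h₀ - γ) (r := 4 * p)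
    (by rw [natDegree_pow]; have := Nat.mul_le_mul_left (2 * L + 1) Dd; omega)
    (fun ρ _ r1 r2 => by have := g3 ρ r1 (r2.trans QC); omega)
    (by
      have e1 : p * (4 * h₀) ≤ p * N' := Nat.mul_le_mul_left p a1
      have e2 : N' ≤ p * N' := Nat.le_mul_of_pos_left _ hp.pos
      have e3 : p * T + p * h₀ = p * N' := by rw [← mul_add, hT]
      have e4 : 4 * γ ≤ N' := by omega
      nlinarith)
    (by omega) (by omega) (by omega) (fun s => mem_box) Θ t1 t2 S
    (fun a ha => (mem_box.1 (hS a ha)).trans_le (by exact_mod_cast (by omega : γ ≤ π.natDegree)))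
    (by simpa using hs)
  have hb2 : |𝔼 s ∈ box k (N' - γ), (S.map fun a => Θ (f + y ^ (p - 1) * (s + a) ^ p) *
      H48P.jac (π * Q) (f + y ^ (p - 1) * (s + a) ^ p)).prod| ≤ ε := by
    refine le_of_pow_le_pow_left₀ (n := 2 ^ (4 * p + 2)) (by positivity) hε.le (hb.trans ?_)
    rw [hσ, div_le_iff₀ (by positivity)]
    rw [div_lt_iff₀ (by positivity)] at hh₁
    refine hh₁.le.trans ?_
    rw [mul_comm]
    exact mul_le_mul_of_nonneg_left (pow_le_pow_right₀ hq.le (by omega)) (by positivity)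
  refine (abs_sub_abs_le_abs_sub _ _ |> sub_le_iff_le_add'.1).trans (add_le_add hb2 ?_)
  rw [← expect_sub_distrib, mul_expect]
  refine (abs_expect_le _ _).trans (expect_le_expect fun s hs => ?_)
  refine line_diff S _ _ (fun a => Big L (f + y ^ (p - 1) * (s + a) ^ p))
    (fun a => by rw [lam, abs_pow, abs_neg, abs_one, one_pow]) (fun a => by
      rw [abs_mul]; exact mul_le_one₀ (t1 _) (abs_nonneg _) (H48P.abs_jac_le _ _)) fun a ha hn => ?_
  have hu : s + a ∈ box k (N' - γ) := mem_box.2 ((degree_add_le _ _).trans_lt (max_lt (mem_box.1 hs)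
    ((mem_box.1 (hS a ha)).trans_le (by exact_mod_cast (by omega : γ ≤ N' - γ)))))
  obtain ⟨m1, m2⟩ := mem_mon.1 (line_mem hyγ hf hu).1
  refine t3 _ (dec_of_regular m1 (fun d d1 d2 => (DLd d d1 d2).mul_left _) fun d hd => ?_) m2 ?_
  · by_contra hc
    have d0 : d ≠ 0 := fun e => m1.ne_zero (by
      rw [e, zero_pow two_ne_zero] at hd; exact zero_dvd_iff.1 hd)
    have dl := inv_ne_zero (leadingCoeff_ne_zero.2 d0)
    refine hn ⟨d * C d.leadingCoeff⁻¹, monic_mul_leadingCoeff_inv d0, by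
      rw [natDegree_mul_C dl]; omega, ?_⟩
    rw [mul_pow]
    exact (((isUnit_C.2 dl.isUnit).pow 2).mul_right_dvd).2 hd
  · rw [← b5, hy₀, ← mul_assoc, ← mul_assoc, line_dC, line_dC, line_deriv]

end Pool.Agent.H4O

end

end

section

/-! h4o row LEMB: average over the lines (paper, Lemma B) -/

set_option autoImplicit false

open Polynomial Finset Filter
open scoped Classical BigOperators

noncomputable section
namespace Pool.Agent.H4O

variable {k : Type} [Field k] [Fintype k] {p : ℕ} [Fact p.Prime] [CharP k p]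

theorem lemB (h2 : p ≠ 2) (σ γ : ℕ) {ε : ℝ} (hε : 0 < ε) : ∀ᶠ n in atTop,
    ∀ (y : k[X]) (S : Multiset k[X]) (W : k[X] → ℝ), y.Monic → y.natDegree ≤ γ → S.card = σ →
      (∃ a, S.count a = 1) → (∀ a ∈ S, a ∈ box k γ) → (∀ f, |W f| ≤ 1) → Wt p n γ y W →
      |𝔼 f ∈ mon k n, W f * (S.map fun a => lam (f + y ^ (p - 1) * a ^ p)).prod| ≤ ε := by
  have hp : p.Prime := Fact.out
  have hq := two_le_qq (k := k)
  obtain ⟨L, hL⟩ := pow_unbounded_of_one_lt (8 * σ / ε) (by linarith : 1 < qq k)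
  filter_upwards [line (k := k) h2 σ γ L (half_pos hε),
    (Nat.tendsto_div_const_atTop hp.ne_zero).eventually_ge_atTop (2 * γ)]
    with n hn hγ y S W y0 hy hσ hs hS hW hWt
  set Ω := box k (n / p - γ) with hΩ
  set b : k[X] → ℝ := fun f => if Big L f then 1 else 0 with hb
  have b0 : ∀ f, 0 ≤ b f := fun f => by simp only [hb]; split_ifs <;> norm_num
  have e1 : 𝔼 f ∈ mon k n, W f * (S.map fun a => lam (f + y ^ (p - 1) * a ^ p)).prod =
      𝔼 f ∈ mon k n, W f *
        𝔼 s ∈ Ω, (S.map fun a => lam (f + y ^ (p - 1) * (s + a) ^ p)).prod := by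
    simp only [mul_expect]
    rw [expect_comm, ← expect_const (box_nonempty (k := k) (n / p - γ))
      (𝔼 f ∈ mon k n, W f * (S.map fun a => lam (f + y ^ (p - 1) * a ^ p)).prod)]
    refine expect_congr rfl fun s hs => ?_
    obtain ⟨f₀, hf₀⟩ := mon_nonempty (k := k) n
    rw [← exp_mon_shift (line_mem hy hf₀ hs).2]
    refine expect_congr rfl fun f hf => ?_
    rw [hWt.1 f hf s hs]
    simp only [add_pow_char, mul_add, add_assoc]
  have e2 : ∀ s ∈ Ω, 𝔼 f ∈ mon k n, (S.map fun a => b (f + y ^ (p - 1) * (s + a) ^ p)).sum ≤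
      σ * (2 / qq k ^ L) := fun s hs => by
    rw [← hσ]
    clear hσ e1
    rename_i hs0
    clear hs0
    induction S using Multiset.induction_on with
    | empty => simp
    | cons a S ih =>
      simp only [Multiset.map_cons, Multiset.sum_cons, Multiset.card_cons, expect_add_distrib]
      have hu : s + a ∈ box k (n / p - γ) := mem_box.2 ((degree_add_le _ _).trans_lt
        (max_lt (mem_box.1 hs) ((mem_box.1 (hS a (Multiset.mem_cons_self _ _))).trans_le
          (by exact_mod_cast (by omega : γ ≤ n / p - γ)))))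
      obtain ⟨f₀, hf₀⟩ := mon_nonempty (k := k) n
      rw [exp_mon_shift (line_mem hy hf₀ hu).2 b]
      have := ih fun a ha => hS a (Multiset.mem_cons_of_mem ha)
      have h3 := exp_big (k := k) n L
      push_cast
      linarith
  rw [e1]
  calc _ ≤ 𝔼 f ∈ mon k n, (ε / 2 + 2 * 𝔼 s ∈ Ω,
        (S.map fun a => b (f + y ^ (p - 1) * (s + a) ^ p)).sum) := by
        refine (abs_expect_le _ _).trans (expect_le_expect fun f hf => ?_)
        by_cases w0 : W f = 0
        · rw [w0, zero_mul, abs_zero]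
          refine add_nonneg (half_pos hε).le (mul_nonneg zero_le_two (expect_nonneg fun s _ =>
            Multiset.sum_nonneg fun z hz => ?_))
          obtain ⟨a, -, rfl⟩ := Multiset.mem_map.1 hz
          exact b0 _
        · rw [abs_mul]
          exact (mul_le_of_le_one_left (abs_nonneg _) (hW f)).trans
            (hn y f S y0.ne_zero hy hf hσ hs hS (hWt.2 f hf w0))
    _ ≤ ε / 2 + 2 * (σ * (2 / qq k ^ L)) := by
        rw [expect_add_distrib, expect_const (mon_nonempty n), ← mul_expect, expect_comm]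
        refine add_le_add le_rfl (mul_le_mul_of_nonneg_left ?_ zero_le_two)
        exact (expect_le_expect e2).trans (expect_const (box_nonempty _) _).le
    _ ≤ ε := by
        have h0 : 0 < qq k ^ L := by positivity
        rw [div_lt_iff₀ hε] at hL
        have : 2 * (σ * (2 / qq k ^ L)) ≤ ε / 2 := by
          rw [show 2 * (σ * (2 / qq k ^ L)) = 4 * σ / qq k ^ L by ring, div_le_iff₀ h0]
          linarith
        linarith

end Pool.Agent.H4O

end

end

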