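import Pool.Agent.MP_a4a062_nt.H4O.A

/-! Chowla correlations over `k[X]` in odd characteristic: density of good lines and the weights. -/

section

/-! h4o row LEV (helper35): level `1 - 1/p` on average for derivatives modulo squarefree `m`. -/
open Polynomial Finset
open scoped Classical
namespace H4Lev

variable {k : Type} [Field k] [Fintype k] (p : ℕ) [hp : Fact p.Prime] [CharP k p]

theorem comp_ex (m : k[X]) : ∃ c : Fin p → k[X],
    m = ∑ i : Fin p, X ^ (i : ℕ) * c i ^ p ∧ ∀ i, (c i).natDegree ≤ m.natDegree / p := by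
  have p0 := hp.out.pos
  refine ⟨fun i => ∑ n ∈ m.support.filter (fun n => (⟨n % p, Nat.mod_lt _ p0⟩ : Fin p) = i),
    monomial (n / p) ((frobeniusEquiv k p).symm (m.coeff n)), ?_, fun i => ?_⟩
  · conv_lhs => rw [m.as_sum_support]
    rw [← Finset.sum_fiberwise (s := m.support) (g := fun n => (⟨n % p, Nat.mod_lt _ p0⟩ : Fin p))]
    refine Finset.sum_congr rfl fun i _ => ?_
    rw [sum_pow_char, Finset.mul_sum]
    refine Finset.sum_congr rfl fun n hn => ?_
    have hi : n % p = i := by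
      have := (Finset.mem_filter.1 hn).2
      exact congrArg Fin.val this
    rw [monomial_pow, X_pow_mul_monomial]
    have : (frobeniusEquiv k p).symm (m.coeff n) ^ p = m.coeff n := by
      have := (frobeniusEquiv k p).apply_symm_apply (m.coeff n)
      rwa [coe_frobeniusEquiv, frobenius_def] at this
    rw [this, ← hi, Nat.div_add_mod']
  · refine natDegree_sum_le_of_forall_le _ _ fun n hn => ?_
    exact (natDegree_monomial_le _).trans
      (Nat.div_le_div_right (le_natDegree_of_mem_supp _ (Finset.mem_filter.1 hn).1))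

omit [Fintype k] hp in
theorem la_off (La : k[X] →ₗ[k] k) (N : ℕ) (h2 : ∀ z : k[X], z.natDegree < N → La (derivative z) = 0)
    (e : ℕ) (u : k[X]) (he : ¬ p ∣ e + 1) (hd : e + 1 + p * u.natDegree < N) :
    La (X ^ e * u ^ p) = 0 := by
  have h := h2 (X ^ (e + 1) * u ^ p) (by
    refine lt_of_le_of_lt natDegree_mul_le ?_
    have := @natDegree_pow_le _ _ u p
    rw [natDegree_X_pow]; omega)
  have hu : derivative (u ^ p) = 0 := by
    rw [derivative_pow, CharP.cast_eq_zero k p, C_0]; simp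
  rw [derivative_mul, hu, mul_zero, add_zero, derivative_X_pow, Nat.add_sub_cancel, mul_assoc,
    ← smul_eq_C_mul, map_smul, smul_eq_mul] at h
  rcases mul_eq_zero.1 h with h | h
  · exact absurd ((CharP.cast_eq_zero_iff k p _).1 h) he
  · exact h

/-- the linear functional `u ↦ (La (X^(p-1) u^p))^(1/p)` -/
noncomputable def ga (La : k[X] →ₗ[k] k) : k[X] →ₗ[k] k where
  toFun u := (frobeniusEquiv k p).symm (La (X ^ (p - 1) * u ^ p))
  map_add' u v := by rw [add_pow_char, mul_add, map_add, map_add]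
  map_smul' c u := by
    rw [_root_.smul_pow, mul_smul_comm, map_smul, smul_eq_mul, map_mul, RingHom.id_apply, smul_eq_mul]
    congr 1
    rw [RingEquiv.symm_apply_eq, coe_frobeniusEquiv, frobenius_def]

theorem ga_zero (La : k[X] →ₗ[k] k) (u : k[X]) : ga p La u = 0 ↔ La (X ^ (p - 1) * u ^ p) = 0 := by
  simp [ga]

theorem ga_sub (La Lb : k[X] →ₗ[k] k) (u : k[X]) : ga p (La - Lb) u = ga p La u - ga p Lb u := by
  simp [ga]

theorem ga_comp (La : k[X] →ₗ[k] k) (N a b : ℕ) (m : k[X]) (c : Fin p → k[X])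
    (hm : m = ∑ i : Fin p, X ^ (i : ℕ) * c i ^ p) (hc : ∀ i, (c i).natDegree ≤ a)
    (h1 : ∀ y, La (m * y) = 0) (h2 : ∀ z : k[X], z.natDegree < N → La (derivative z) = 0)
    (hN : p * (a + b + 1) ≤ N) (i : Fin p) (v : k[X]) (hv : v.natDegree < b) :
    ga p La (c i * v) = 0 := by
  have p0 := hp.out.pos
  have h := h1 (X ^ (p - 1 - i) * v ^ p)
  rw [hm, Finset.sum_mul, map_sum, Finset.sum_eq_single i] at h
  · rw [ga_zero, ← h, mul_pow]
    congr 1
    have : p - 1 = i + (p - 1 - i) := by have := i.2; omega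
    conv_lhs => rw [this, pow_add]
    ring
  · intro j _ hj
    have : X ^ (j : ℕ) * c j ^ p * (X ^ (p - 1 - i) * v ^ p)
        = X ^ ((j : ℕ) + (p - 1 - i)) * (c j * v) ^ p := by rw [pow_add, mul_pow]; ring
    rw [this]
    have hi := i.2
    have hj2 := j.2
    have hij : (j : ℕ) ≠ i := fun h => hj (Fin.ext h)
    refine la_off p La N h2 _ _ ?_ ?_
    · rintro ⟨t, ht⟩
      rcases t with _ | _ | t
      · omega
      · omega
      · have : p * (t + 1 + 1) = p * t + p + p := by ring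
        omega
    · have h3 : (c j * v).natDegree + 1 ≤ a + b := by
        have := @natDegree_mul_le _ _ (c j) v
        have := hc j
        omega
      have h4 := Nat.mul_le_mul_left p h3
      have h5 : p * (a + b + 1) = p * (a + b) + p := by ring
      have h6 : p * ((c j * v).natDegree + 1) = p * (c j * v).natDegree + p := by ring
      omega
  · simp

theorem la_zero (La : k[X] →ₗ[k] k) (N a : ℕ) (m : k[X]) (hm : m.Monic) (ha : m.natDegree / p ≤ a)
    (h1 : ∀ y, La (m * y) = 0) (h2 : ∀ z : k[X], z.natDegree < N → La (derivative z) = 0)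
    (hN : p * (a + 1) ≤ N) (h3 : ∀ j < a, ga p La (X ^ j) = 0) : La = 0 := by
  have p0 := hp.out.pos
  have hX : ∀ e < m.natDegree, La (X ^ e) = 0 := by
    intro e he
    have hlt : m.natDegree < p * (a + 1) := by
      have := Nat.lt_mul_div_succ m.natDegree p0
      have := Nat.mul_le_mul_left p (Nat.add_le_add_right ha 1)
      omega
    by_cases hd : p ∣ e + 1
    · obtain ⟨t, ht⟩ := hd
      rcases t with _ | t
      · omega
      have ht2 : t + 1 ≤ m.natDegree / p := by
        rw [Nat.le_div_iff_mul_le p0, mul_comm]; omega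
      have := (ga_zero p La _).1 (h3 t (by omega))
      rw [← pow_mul, ← pow_add] at this
      have h5 : p * (t + 1) = t * p + p := by ring
      rwa [show p - 1 + t * p = e by omega] at this
    · have := la_off p La N h2 e 1 hd (by simp; omega)
      simpa using this
  have hlow : ∀ y : k[X], y.degree < m.natDegree → La y = 0 := by
    intro y hy
    by_cases h0 : y = 0
    · simp [h0]
    rw [y.as_sum_support, map_sum]
    refine Finset.sum_eq_zero fun n hn => ?_
    have h4 : n < m.natDegree :=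
      lt_of_le_of_lt (le_natDegree_of_mem_supp _ hn) ((natDegree_lt_iff_degree_lt h0).2 hy)
    rw [← C_mul_X_pow_eq_monomial, ← smul_eq_C_mul, map_smul, hX n h4, smul_zero]
  refine LinearMap.ext fun y => ?_
  rw [← modByMonic_add_div y m, map_add, h1, add_zero, LinearMap.zero_apply]
  refine hlow _ ?_
  rw [← degree_eq_natDegree hm.ne_zero]
  exact degree_modByMonic_lt y hm

/-- the functional on `k[X]` with values `g j` on `X^j`, `j < n` -/
noncomputable def gf (n : ℕ) (g : Fin n → k) : k[X] →ₗ[k] k := ∑ j : Fin n, g j • lcoeff k j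

omit [Fintype k] in
theorem gf_eq (n : ℕ) (G : k[X] →ₗ[k] k) (u : k[X]) (hu : u.natDegree < n) :
    gf n (fun j => G (X ^ (j : ℕ))) u = G u := by
  conv_rhs => rw [u.as_sum_range' n hu, map_sum, Finset.sum_range]
  rw [gf, LinearMap.sum_apply]
  refine Finset.sum_congr rfl fun j _ => ?_
  rw [← C_mul_X_pow_eq_monomial, ← smul_eq_C_mul, map_smul]
  simp [mul_comm]

/-- Hankel map -/
noncomputable def hk (a b : ℕ) (G : k[X] →ₗ[k] k) : degreeLT k (a + 1) →ₗ[k] (Fin b → k) :=
  LinearMap.pi fun j => G ∘ₗ LinearMap.mulRight k (X ^ (j : ℕ)) ∘ₗ (degreeLT k (a + 1)).subtype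

omit [Fintype k] in
theorem hk_apply (a b : ℕ) (G : k[X] →ₗ[k] k) (u : degreeLT k (a + 1)) (j : Fin b) :
    hk a b G u j = G ((u : k[X]) * X ^ (j : ℕ)) := rfl

omit [Fintype k] in
theorem mem_lt {a : ℕ} {u : k[X]} (h : u.natDegree ≤ a) : u ∈ degreeLT k (a + 1) := by
  rw [mem_degreeLT]
  exact lt_of_le_of_lt degree_le_natDegree (by exact_mod_cast Nat.lt_succ_of_le h)

omit [Fintype k] in
theorem of_mem_lt {a : ℕ} {u : k[X]} (h : u ∈ degreeLT k (a + 1)) : u.natDegree ≤ a := by
  rw [mem_degreeLT] at h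
  by_cases h0 : u = 0
  · simp [h0]
  exact Nat.lt_succ_iff.1 ((natDegree_lt_iff_degree_lt h0).2 h)

omit [Fintype k] in
theorem not_surj (a b : ℕ) (G : k[X] →ₗ[k] k) (h : ¬ Function.Surjective (hk a b G)) :
    ∃ v : k[X], v ≠ 0 ∧ v.natDegree < b ∧ ∀ u : k[X], u.natDegree ≤ a → G (u * v) = 0 := by
  have hlt : LinearMap.range (hk a b G) < ⊤ := lt_top_iff_ne_top.2 fun e => h (LinearMap.range_eq_top.1 e)
  obtain ⟨f, f0, hf⟩ := Submodule.exists_le_ker_of_lt_top _ hlt
  set c : Fin b → k := fun j => f (fun i => if j = i then 1 else 0) with hc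
  have hfc : ∀ w, f w = ∑ j, w j • c j := fun w => LinearMap.pi_apply_eq_sum_univ f w
  have hco : ∀ i : Fin b, (∑ j : Fin b, c j • (X : k[X]) ^ (j : ℕ)).coeff i = c i := by
    intro i
    rw [finsetSum_coeff, Finset.sum_eq_single i]
    · simp
    · intro j _ hj
      have : (i : ℕ) ≠ j := fun h => hj (Fin.ext h.symm)
      simp [coeff_X_pow, this]
    · simp
  have hv0 : (∑ j : Fin b, c j • (X : k[X]) ^ (j : ℕ)) ≠ 0 := by
    intro h0
    apply f0
    refine LinearMap.ext fun w => ?_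
    rw [hfc, LinearMap.zero_apply]
    refine Finset.sum_eq_zero fun j _ => ?_
    rw [← hco j, h0]; simp
  refine ⟨_, hv0, ?_, fun u hu => ?_⟩
  · rw [natDegree_lt_iff_degree_lt hv0]
    refine lt_of_le_of_lt (degree_sum_le _ _) ?_
    rw [Finset.sup_lt_iff (WithBot.bot_lt_coe _)]
    intro j _
    refine lt_of_le_of_lt (degree_smul_le _ _) ?_
    rw [degree_X_pow]
    exact_mod_cast j.2
  · have := hf (LinearMap.mem_range_self (hk a b G) ⟨u, mem_lt hu⟩)
    rw [LinearMap.mem_ker, hfc] at this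
    rw [Finset.mul_sum, map_sum, ← this]
    refine Finset.sum_congr rfl fun j _ => ?_
    rw [mul_smul_comm, map_smul, hk_apply, smul_eq_mul, smul_eq_mul, mul_comm]

omit [Fintype k] [CharP k p] in
theorem unit_comb (m : k[X]) (hsq : Squarefree m) (c : Fin p → k[X])
    (hm : m = ∑ i : Fin p, X ^ (i : ℕ) * c i ^ p) : ∃ w : Fin p → k[X], ∑ i, w i * c i = 1 := by
  obtain ⟨d, hd⟩ := (IsPrincipalIdealRing.principal (Ideal.span (Set.range c))).principal
  have h1 : ∀ i, d ∣ c i := fun i => by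
    have : c i ∈ Ideal.span (Set.range c) := Ideal.subset_span ⟨i, rfl⟩
    rw [hd] at this
    exact Ideal.mem_span_singleton.1 this
  have h2 : d * d ∣ m := by
    rw [hm]
    refine Finset.dvd_sum fun i _ => Dvd.dvd.mul_left ?_ _
    rw [← sq]
    exact (pow_dvd_pow_of_dvd (h1 i) 2).trans (pow_dvd_pow _ hp.out.two_le)
  have h3 : (1 : k[X]) ∈ Ideal.span (Set.range c) := by
    rw [hd]
    exact Ideal.mem_span_singleton.2 (hsq d h2).dvd
  exact Ideal.mem_span_range_iff_exists_fun.1 h3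

omit [Fintype k] hp [CharP k p] in
theorem kill (G : k[X] →ₗ[k] k) (a b : ℕ) (c w : Fin p → k[X]) (hw : ∑ i, w i * c i = 1)
    (hc : ∀ i, (c i).natDegree ≤ a) (hG : ∀ i (v : k[X]), v.natDegree < b → G (c i * v) = 0)
    (v : k[X]) (v0 : v ≠ 0) (hv : v.natDegree < b)
    (hu : ∀ u : k[X], u.natDegree ≤ a → G (u * v) = 0) (y : k[X]) (hy : y.natDegree ≤ a) :
    G y = 0 := by
  have hr : ∀ i, (w i * y % v).natDegree ≤ v.natDegree := fun i =>
    natDegree_le_natDegree (degree_mod_lt _ v0).le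
  set u := ∑ i, c i * (w i * y / v) with hu0
  have e : y = ∑ i, c i * (w i * y % v) + u * v := by
    rw [hu0, Finset.sum_mul, ← Finset.sum_add_distrib]
    conv_lhs => rw [← one_mul y, ← hw, Finset.sum_mul]
    refine Finset.sum_congr rfl fun i _ => ?_
    have := EuclideanDomain.mod_add_div (w i * y) v
    linear_combination (-c i) * this
  have hs : (∑ i, c i * (w i * y % v)).natDegree ≤ a + v.natDegree :=
    natDegree_sum_le_of_forall_le _ _ fun i _ => natDegree_mul_le.trans (add_le_add (hc i) (hr i))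
  have hd : u.natDegree ≤ a := by
    by_cases u0 : u = 0
    · simp [u0]
    have e2 : u * v = y - ∑ i, c i * (w i * y % v) := by linear_combination -e
    have h1 := natDegree_sub_le y (∑ i, c i * (w i * y % v))
    rw [← e2, natDegree_mul u0 v0] at h1
    have := max_le (le_trans hy (Nat.le_add_right a v.natDegree)) hs
    omega
  rw [e, map_add, hu u hd, add_zero, map_sum]
  exact Finset.sum_eq_zero fun i _ => hG i _ (lt_of_le_of_lt (hr i) hv)

/-- a nonzero annihilating functional gives an onto Hankel map whose kernel holds the components -/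
theorem good (La : k[X] →ₗ[k] k) (N a b : ℕ) (m : k[X]) (hm : m.Monic) (hsq : Squarefree m)
    (ha : m.natDegree / p ≤ a) (c : Fin p → k[X])
    (hmc : m = ∑ i : Fin p, X ^ (i : ℕ) * c i ^ p) (hc : ∀ i, (c i).natDegree ≤ a)
    (h1 : ∀ y, La (m * y) = 0) (h2 : ∀ z : k[X], z.natDegree < N → La (derivative z) = 0)
    (hN : p * (a + b + 1) ≤ N) (h0 : La ≠ 0) :
    Function.Surjective (hk a b (gf (a + b) fun j => ga p La (X ^ (j : ℕ)))) ∧
      ∀ i, hk a b (gf (a + b) fun j => ga p La (X ^ (j : ℕ))) ⟨c i, mem_lt (hc i)⟩ = 0 := by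
  have e : hk a b (gf (a + b) fun j => ga p La (X ^ (j : ℕ))) = hk a b (ga p La) := by
    refine LinearMap.ext fun u => _root_.funext fun j => ?_
    rw [hk_apply, hk_apply, gf_eq]
    have h3 := @natDegree_mul_le _ _ (u : k[X]) (X ^ (j : ℕ))
    have h4 := of_mem_lt u.2
    have h5 := j.2
    rw [natDegree_X_pow] at h3
    omega
  rw [e]
  have hG := ga_comp p La N a b m c hmc hc h1 h2 hN
  refine ⟨by_contra fun hs => h0 ?_, fun i => _root_.funext fun j => ?_⟩
  · obtain ⟨v, v0, hv, hu⟩ := not_surj a b _ hs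
    obtain ⟨w, hw⟩ := unit_comb p m hsq c hmc
    refine la_zero p La N a m hm ha h1 h2
      (le_trans (Nat.mul_le_mul_left p (by omega)) hN) fun j hj => ?_
    exact kill p _ a b c w hw hc hG v v0 hv hu _ (by rw [natDegree_X_pow]; exact hj.le)
  · rw [hk_apply]
    exact hG i _ (by rw [natDegree_X_pow]; exact j.2)

theorem card_ker (a b : ℕ) (G : k[X] →ₗ[k] k) (h : Function.Surjective (hk a b G)) :
    Nat.card (LinearMap.ker (hk a b G)) = Fintype.card k ^ (a + 1 - b) := by
  have : FiniteDimensional k (degreeLT k (a + 1)) := (degreeLTEquiv k (a + 1)).symm.finiteDimensional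
  have h1 := LinearMap.finrank_range_add_finrank_ker (hk a b G)
  rw [LinearMap.range_eq_top.2 h, finrank_top, (degreeLTEquiv k (a + 1)).finrank_eq] at h1
  simp only [Module.finrank_fintype_fun_eq_card, Fintype.card_fin] at h1
  rw [Module.natCard_eq_pow_finrank (K := k), Nat.card_eq_fintype_card]
  congr 1
  omega

/-- the count of nonzero annihilating functionals, summed over squarefree moduli -/
theorem count (N a b : ℕ) (hN : p * (a + b + 1) ≤ N) (S : Finset k[X])
    (hS : ∀ m ∈ S, m.Monic ∧ Squarefree m ∧ m.natDegree / p ≤ a)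
    (A : k[X] → Finset (k[X] →ₗ[k] k))
    (hA : ∀ m ∈ S, ∀ La ∈ A m, La ≠ 0 ∧ (∀ y, La (m * y) = 0) ∧
      ∀ z : k[X], z.natDegree < N → La (derivative z) = 0) :
    ∑ m ∈ S, (A m).card ≤ Fintype.card k ^ (a + b + p * (a + 1 - b)) := by
  choose c hc1 hc2 using comp_ex (k := k) p
  have hc3 : ∀ m ∈ S, ∀ i, (c m i).natDegree ≤ a := fun m hm i => (hc2 m i).trans (hS m hm).2.2
  let P : k[X] → (Fin (a + b) → k) → Prop := fun m g =>
    Function.Surjective (hk a b (gf (a + b) g)) ∧
      ∀ i, ∃ h : c m i ∈ degreeLT k (a + 1), hk a b (gf (a + b) g) ⟨c m i, h⟩ = 0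
  have s1 : ∀ m ∈ S, (A m).card ≤ (univ.filter (P m)).card := by
    intro m hm
    obtain ⟨m1, m2, m3⟩ := hS m hm
    refine Finset.card_le_card_of_injOn (fun La j => ga p La (X ^ (j : ℕ))) ?_ ?_
    · intro La hLa
      obtain ⟨l0, l1, l2⟩ := hA m hm La hLa
      have := good p La N a b m m1 m2 m3 (c m) (hc1 m) (hc3 m hm) l1 l2 hN l0
      exact Finset.mem_coe.2 (Finset.mem_filter.2 ⟨mem_univ _, this.1, fun i => ⟨_, this.2 i⟩⟩)
    · intro La hLa Lb hLb e
      obtain ⟨-, l1, l2⟩ := hA m hm La hLa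
      obtain ⟨-, r1, r2⟩ := hA m hm Lb hLb
      rw [← sub_eq_zero]
      refine la_zero p _ N a m m1 m3 (fun y => by simp [l1, r1]) (fun z hz => by simp [l2 z hz, r2 z hz])
        (le_trans (Nat.mul_le_mul_left p (by omega)) hN) fun j hj => ?_
      rw [ga_sub, sub_eq_zero]
      exact congrFun e ⟨j, by omega⟩
  have s2 : ∀ g : Fin (a + b) → k, (S.filter (fun m => P m g)).card
      ≤ Fintype.card k ^ (p * (a + 1 - b)) := by
    intro g
    by_cases hs : Function.Surjective (hk a b (gf (a + b) g))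
    · have : FiniteDimensional k (degreeLT k (a + 1)) :=
        (degreeLTEquiv k (a + 1)).symm.finiteDimensional
      have : Finite (LinearMap.ker (hk a b (gf (a + b) g))) := Module.finite_of_finite k
      have h1 : Nat.card (Fin p → LinearMap.ker (hk a b (gf (a + b) g)))
          = Fintype.card k ^ (p * (a + 1 - b)) := by
        rw [Nat.card_fun, card_ker a b _ hs, Nat.card_eq_fintype_card, Fintype.card_fin, ← pow_mul,
          mul_comm]
      rw [← h1, ← Nat.card_eq_finsetCard]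
      refine Nat.card_le_card_of_injective (fun m i =>
        ⟨⟨c m.1 i, ((Finset.mem_filter.1 m.2).2.2 i).1⟩, ((Finset.mem_filter.1 m.2).2.2 i).2⟩) ?_
      intro m m' e
      refine Subtype.ext ?_
      rw [hc1 m.1, hc1 m'.1]
      refine Finset.sum_congr rfl fun i _ => ?_
      have : c m.1 i = c m'.1 i := congrArg (fun x => x.1.1) (congrFun e i)
      rw [this]
    · rw [Finset.filter_eq_empty_iff.2 fun m _ h => hs h.1]
      simp
  calc ∑ m ∈ S, (A m).card ≤ ∑ m ∈ S, (univ.filter (P m)).card := Finset.sum_le_sum s1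
    _ = ∑ g : Fin (a + b) → k, (S.filter (fun m => P m g)).card := by
        simp only [Finset.card_filter]
        exact Finset.sum_comm
    _ ≤ ∑ _g : Fin (a + b) → k, Fintype.card k ^ (p * (a + 1 - b)) :=
        Finset.sum_le_sum fun g _ => s2 g
    _ = _ := by simp [pow_add]

/-- share of a box in a residue class after a linear map, against the annihilator -/
theorem fibre (B : Finset k[X]) (N : ℕ) (hB : ∀ f, f ∈ B ↔ f.degree < N) (m t : k[X]) (hm : m.Monic)
    (T : k[X] →ₗ[k] k[X]) :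
    ∃ A : Finset (k[X] →ₗ[k] k), (∀ La ∈ A, La ≠ 0 ∧ (∀ y, La (m * y) = 0) ∧
        ∀ z : k[X], z.degree < N → La (T z) = 0) ∧
      |((B.filter fun z => m ∣ t + T z).card : ℝ) / (Fintype.card k : ℝ) ^ N
          - 1 / (Fintype.card k : ℝ) ^ m.natDegree|
        ≤ (A.card : ℝ) / (Fintype.card k : ℝ) ^ m.natDegree := by
  have fQ : Module.Finite k (AdjoinRoot m) := (AdjoinRoot.powerBasis' hm).finite
  have dQ : Module.finrank k (AdjoinRoot m) = m.natDegree := (AdjoinRoot.powerBasis' hm).finrank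
  have fV : FiniteDimensional k (degreeLT k N) := (degreeLTEquiv k N).symm.finiteDimensional
  have dV : Module.finrank k (degreeLT k N) = N := by
    rw [(degreeLTEquiv k N).finrank_eq]; simp
  let π : k[X] →ₗ[k] AdjoinRoot m := (AdjoinRoot.mkₐ m).toLinearMap
  have π0 : ∀ y, π y = 0 ↔ m ∣ y := fun y => AdjoinRoot.mk_eq_zero
  have πs : Function.Surjective π := AdjoinRoot.mk_surjective
  let φ : degreeLT k N →ₗ[k] AdjoinRoot m := π ∘ₗ T ∘ₗ (degreeLT k N).subtype
  set r := Module.finrank k (LinearMap.range φ) with hr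
  have rk := LinearMap.finrank_range_add_finrank_ker φ
  have ra := Subspace.finrank_add_finrank_dualAnnihilator_eq (LinearMap.range φ)
  rw [dV] at rk
  rw [dQ] at ra
  have fA : Finite (LinearMap.range φ).dualAnnihilator := Module.finite_of_finite k
  have := Fintype.ofFinite (LinearMap.range φ).dualAnnihilator
  have cA : Fintype.card (LinearMap.range φ).dualAnnihilator = Fintype.card k ^ (m.natDegree - r) := by
    rw [Module.card_eq_pow_finrank (K := k)]
    congr 1
    omega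
  have inj : Function.Injective fun f : (LinearMap.range φ).dualAnnihilator => f.1 ∘ₗ π := by
    intro f g e
    exact Subtype.ext (LinearMap.ext fun x => by
      obtain ⟨y, rfl⟩ := πs x
      exact LinearMap.congr_fun e y)
  have q1 : (1 : ℝ) < Fintype.card k := by exact_mod_cast Fintype.one_lt_card
  have q0 : (0 : ℝ) < Fintype.card k := by linarith
  refine ⟨(univ.erase 0).image fun f : (LinearMap.range φ).dualAnnihilator => f.1 ∘ₗ π, ?_, ?_⟩
  · intro La hLa
    obtain ⟨f, hf, rfl⟩ := Finset.mem_image.1 hLa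
    refine ⟨fun e => (Finset.mem_erase.1 hf).1 (inj (by simpa using e)), fun y => ?_, fun z hz => ?_⟩
    · rw [LinearMap.comp_apply, (π0 _).2 (dvd_mul_right _ _), map_zero]
    · exact (Submodule.mem_dualAnnihilator _).1 f.2 _ ⟨⟨z, mem_degreeLT.2 hz⟩, rfl⟩
  rw [Finset.card_image_of_injective _ inj, Finset.card_erase_of_mem (mem_univ _), card_univ, cA,
    Nat.cast_sub (Nat.one_le_pow _ _ Fintype.card_pos)]
  push_cast
  rcases (B.filter fun z => m ∣ t + T z).eq_empty_or_nonempty with he | ⟨z0, hz0⟩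
  · have hlt : r < m.natDegree := by
      by_contra hn
      have : LinearMap.range φ = ⊤ := Submodule.eq_top_of_finrank_eq (by rw [dQ]; omega)
      obtain ⟨z, hz⟩ := LinearMap.range_eq_top.1 this (-π t)
      refine Finset.filter_eq_empty_iff.1 he ((hB z).2 (mem_degreeLT.1 z.2)) ((π0 _).1 ?_)
      rw [map_add]
      exact add_eq_zero_iff_neg_eq.2 hz.symm
    have q2 : (2 : ℝ) ≤ Fintype.card k := by exact_mod_cast Fintype.one_lt_card
    have : (Fintype.card k : ℝ) ≤ (Fintype.card k : ℝ) ^ (m.natDegree - r) :=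
      le_self_pow₀ q1.le (by omega)
    rw [he, card_empty, Nat.cast_zero, zero_div, zero_sub, abs_neg, abs_of_pos (by positivity)]
    gcongr
    linarith
  · obtain ⟨b0, d0⟩ := Finset.mem_filter.1 hz0
    have cF : (B.filter fun z => m ∣ t + T z).card = Fintype.card k ^ (N - r) := by
      have c1 : Nat.card (LinearMap.ker φ) = Fintype.card k ^ (N - r) := by
        rw [Module.natCard_eq_pow_finrank (K := k), Nat.card_eq_fintype_card]
        congr 1
        omega
      rw [← c1, ← Nat.card_eq_finsetCard]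
      have z0m : z0 ∈ degreeLT k N := mem_degreeLT.2 ((hB _).1 b0)
      refine Nat.card_congr
        { toFun := fun z => ⟨⟨z.1 - z0, sub_mem (mem_degreeLT.2 ((hB _).1 (Finset.mem_filter.1 z.2).1)) z0m⟩,
            (π0 _).2 ?_⟩
          invFun := fun z => ⟨z.1.1 + z0, Finset.mem_filter.2
            ⟨(hB _).2 (mem_degreeLT.1 (add_mem z.1.2 z0m)), ?_⟩⟩
          left_inv := fun z => Subtype.ext (by simp)
          right_inv := fun z => Subtype.ext (Subtype.ext (by simp)) }
      · have := dvd_sub (Finset.mem_filter.1 z.2).2 d0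
        simpa using this
      · have h1 : m ∣ T z.1.1 := (π0 _).1 z.2
        have := dvd_add d0 h1
        rwa [map_add, add_comm (T _), ← add_assoc]
    have e : (Fintype.card k : ℝ) ^ (N - r) / (Fintype.card k : ℝ) ^ N
        = (Fintype.card k : ℝ) ^ (m.natDegree - r) / (Fintype.card k : ℝ) ^ m.natDegree := by
      rw [div_eq_div_iff (by positivity) (by positivity), ← pow_add, ← pow_add]
      congr 1
      omega
    rw [cF]
    push_cast
    rw [e, ← sub_div, abs_of_nonneg]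
    exact div_nonneg (sub_nonneg.2 (one_le_pow₀ q1.le)) (by positivity)

/-- LEV: level `1 - 1/p` on average, on every coset. -/
theorem lev_main (box : ℕ → Finset k[X]) (hbox : ∀ n f, f ∈ box n ↔ f.degree < n)
    (a b N mu0 : ℕ) (De h t : k[X]) (hN : p * (a + b + 1) + (p - 1) * h.natDegree ≤ N)
    (S : Finset k[X]) (hS : ∀ m ∈ S, m.Monic ∧ Squarefree m ∧ mu0 ≤ m.natDegree ∧
      m.natDegree / p ≤ a ∧ IsCoprime m (De * h)) :
    ∑ m ∈ S, |(((box N).filter fun z => m ∣ t + derivative (De ^ p * z * h)).card : ℝ)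
          / (Fintype.card k : ℝ) ^ N - 1 / (Fintype.card k : ℝ) ^ m.natDegree|
      ≤ (Fintype.card k : ℝ) ^ (a + b + p * (a + 1 - b)) / (Fintype.card k : ℝ) ^ mu0 := by
  have p0 := hp.out.pos
  have q1 : (1 : ℝ) < Fintype.card k := by exact_mod_cast Fintype.one_lt_card
  let T : k[X] →ₗ[k] k[X] := derivative ∘ₗ LinearMap.mulRight k h ∘ₗ LinearMap.mulLeft k (De ^ p)
  have hT : ∀ z, T z = derivative (De ^ p * z * h) := fun _ => rfl
  choose A hA1 hA2 using fun m (hm : m.Monic) => fibre (box N) N (hbox N) m t hm T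
  let A1 : k[X] → Finset (k[X] →ₗ[k] k) := fun m =>
    if hm : m.Monic then (A m hm).image fun La => La ∘ₗ LinearMap.mulLeft k ((De * h) ^ p) else ∅
  have key : ∀ m ∈ S, ∀ La : k[X] →ₗ[k] k, (∀ y, La (m * y) = 0) →
      La ∘ₗ LinearMap.mulLeft k ((De * h) ^ p) = 0 → La = 0 := by
    intro m hm La l1 e
    obtain ⟨u, v, huv⟩ := (hS m hm).2.2.2.2.pow_right (n := p)
    refine LinearMap.ext fun y => ?_
    have h1 : La ((De * h) ^ p * (v * y)) = 0 := LinearMap.congr_fun e (v * y)
    have h2 : y = m * (u * y) + (De * h) ^ p * (v * y) := by linear_combination (-y) * huv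
    rw [h2, map_add, l1, h1, add_zero, LinearMap.zero_apply]
  have c1 : ∀ m (hm : m ∈ S), (A1 m).card = (A m (hS m hm).1).card := by
    intro m hm
    simp only [A1, dif_pos (hS m hm).1]
    refine Finset.card_image_of_injOn fun La hLa Lb hLb e => ?_
    rw [← sub_eq_zero]
    refine key m hm _ (fun y => ?_) ?_
    · simp [(hA1 m _ La hLa).2.1, (hA1 m _ Lb hLb).2.1]
    · rw [LinearMap.sub_comp]; exact sub_eq_zero.2 e
  have c2 := count p (p * (a + b + 1)) a b le_rfl S
    (fun m hm => ⟨(hS m hm).1, (hS m hm).2.1, (hS m hm).2.2.2.1⟩) A1 (by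
      intro m hm Lb hLb
      simp only [A1, dif_pos (hS m hm).1] at hLb
      obtain ⟨La, hLa, rfl⟩ := Finset.mem_image.1 hLb
      obtain ⟨l0, l1, l2⟩ := hA1 m _ La hLa
      refine ⟨fun e => l0 (key m hm La l1 e), fun y => ?_, fun z hz => ?_⟩
      · rw [LinearMap.comp_apply, LinearMap.mulLeft_apply, mul_left_comm, l1]
      · have hd : (h ^ (p - 1) * z).natDegree < N := by
          have h1 := @natDegree_mul_le _ _ (h ^ (p - 1)) z
          have h2 := @natDegree_pow_le _ _ h (p - 1)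
          omega
        have h3 := l2 _ (lt_of_le_of_lt degree_le_natDegree (by exact_mod_cast hd))
        have h4 : De ^ p * (h ^ (p - 1) * z) * h = (De * h) ^ p * z := by
          have : h ^ p = h ^ (p - 1) * h := by rw [← pow_succ, Nat.sub_add_cancel p0]
          rw [mul_pow, this]; ring
        have hu : derivative ((De * h) ^ p) = 0 := by
          rw [derivative_pow, CharP.cast_eq_zero k p, C_0]; simp
        rwa [hT, h4, derivative_mul, hu, zero_mul, zero_add] at h3)
  have c3 : ((∑ m ∈ S, (A1 m).card : ℕ) : ℝ) ≤ (Fintype.card k : ℝ) ^ (a + b + p * (a + 1 - b)) := by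
    exact_mod_cast c2
  refine le_trans ?_ (div_le_div_of_nonneg_right c3 (by positivity))
  rw [Nat.cast_sum, Finset.sum_div]
  refine Finset.sum_le_sum fun m hm => ?_
  refine (hA2 m (hS m hm).1).trans ?_
  rw [c1 m hm]
  exact div_le_div_of_nonneg_left (by positivity) (by positivity)
    (pow_le_pow_right₀ q1.le (hS m hm).2.2.1)

end H4Lev

end

section

/-! h4o row POS (helper35): good lines have positive share on every coset. -/
open Polynomial Finset
open scoped Classical
namespace H4Lev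

variable {k : Type} [Field k] [Fintype k]

theorem card_box (B : Finset k[X]) (N : ℕ) (hB : ∀ f, f ∈ B ↔ f.degree < N) :
    B.card = Fintype.card k ^ N := by
  have fV : FiniteDimensional k (degreeLT k N) := (degreeLTEquiv k N).symm.finiteDimensional
  have dV : Module.finrank k (degreeLT k N) = N := by
    rw [(degreeLTEquiv k N).finrank_eq]; simp
  have c1 : Nat.card (degreeLT k N) = Fintype.card k ^ N := by
    rw [Module.natCard_eq_pow_finrank (K := k), Nat.card_eq_fintype_card, dV]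
  rw [← c1, ← Nat.card_eq_finsetCard]
  exact Nat.card_congr (Equiv.subtypeEquivRight fun f => (hB f).trans mem_degreeLT.symm)

omit [Fintype k] in
theorem mi_eq {a b : k[X]} (ha : a.Monic ∧ Irreducible a) (hb : b.Monic ∧ Irreducible b)
    (h : a ∣ b) : a = b :=
  eq_of_monic_of_associated ha.1 hb.1 (ha.2.associated_of_dvd hb.2 h)

omit [Fintype k] in
theorem mi_cop {a b : k[X]} (ha : a.Monic ∧ Irreducible a) (hb : b.Monic ∧ Irreducible b)
    (h : a ≠ b) : IsCoprime a b :=
  ha.2.coprime_iff_not_dvd.2 fun e => h (mi_eq ha hb e)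

omit [Fintype k] in
theorem card_primes (B : k[X]) (B0 : B ≠ 0) (lo : ℕ) (P : Finset k[X])
    (hP : ∀ r ∈ P, (r.Monic ∧ Irreducible r) ∧ lo ≤ r.natDegree ∧ r ∣ B) :
    P.card * lo ≤ B.natDegree := by
  have h1 : ∏ r ∈ P, r ∣ B := Finset.prod_dvd_of_coprime
    (fun a ha b hb hab => mi_cop (hP a ha).1 (hP b hb).1 hab) fun r hr => (hP r hr).2.2
  have h2 := natDegree_le_of_dvd h1 B0
  rw [natDegree_prod_of_monic _ _ fun r hr => (hP r hr).1.1] at h2
  have h3 := Finset.card_nsmul_le_sum P (fun r => r.natDegree) lo fun r hr => (hP r hr).2.1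
  rw [smul_eq_mul] at h3
  omega

omit [Fintype k] in
theorem good_of {ι : Type} [Fintype ι] [Nontrivial ι] (τ : ι → k[X]) (c : k[X]) (c0 : c ≠ 0)
    (N H lo : ℕ) (hinj : Function.Injective τ)
    (hτ : ∀ i, ((τ i).Monic ∧ Irreducible (τ i)) ∧ lo ≤ (τ i).natDegree ∧ (τ i).natDegree + H ≤ N)
    (h1 : N ≤ 2 * lo) (h2 : 2 * c.natDegree ≤ 3 * N) (h3 : c.natDegree < 2 * lo) (h4 : 4 * H ≤ N)
    (h5 : lo + H ≤ N) :
    ∃ π C : k[X], (∏ i, τ i) * c = π * C ∧ π.Monic ∧ Irreducible π ∧ ¬ π ∣ C ∧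
      N ≤ 2 * π.natDegree ∧ 2 * π.natDegree ≤ 3 * N ∧
      ∀ r : k[X], Irreducible r → r ∣ C → r.natDegree + H ≤ N := by
  have hd : ∀ (s : Finset ι) (r : k[X]), Irreducible r → r ∣ ∏ i ∈ s, τ i → r.natDegree + H ≤ N := by
    intro s r hr h
    obtain ⟨i, -, hi⟩ := (hr.prime.dvd_finsetProd_iff _).1 h
    have := natDegree_le_of_dvd hi (hτ i).1.1.ne_zero
    have := (hτ i).2.2
    omega
  by_cases hc : ∃ r : k[X], Irreducible r ∧ r ∣ c ∧ N < r.natDegree + H
  · obtain ⟨r, r1, r2, r3⟩ := hc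
    have as : Associated (normalize r) r := normalize_associated r
    have p1 : (normalize r).Monic := monic_normalize r1.ne_zero
    have p2 : Irreducible (normalize r) := as.symm.irreducible r1
    have p3 : (normalize r).natDegree = r.natDegree := natDegree_eq_of_degree_eq (degree_eq_degree_of_associated as)
    obtain ⟨c', hc'⟩ := as.dvd.trans r2
    have c'0 : c' ≠ 0 := fun e => c0 (by rw [hc', e, mul_zero])
    have dc : c.natDegree = r.natDegree + c'.natDegree := by
      rw [hc', natDegree_mul p1.ne_zero c'0, p3]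
    refine ⟨normalize r, (∏ i, τ i) * c', by rw [hc']; ring, p1, p2, fun h => ?_, by omega, by omega,
      fun s s1 s2 => ?_⟩
    · rcases p2.prime.dvd_or_dvd h with h | h
      · have := hd _ _ p2 h
        omega
      · have := natDegree_le_of_dvd h c'0
        omega
    · rcases s1.prime.dvd_or_dvd s2 with h | h
      · exact hd _ _ s1 h
      · have := natDegree_le_of_dvd h c'0
        omega
  · have hi : ∃ i, ¬ τ i ∣ c := by
      by_contra hn
      push Not at hn
      obtain ⟨i, j, hij⟩ := exists_pair_ne ι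
      have h6 := (mi_cop (hτ i).1 (hτ j).1 fun e => hij (hinj e)).mul_dvd (hn i) (hn j)
      have h7 := natDegree_le_of_dvd h6 c0
      rw [natDegree_mul (hτ i).1.1.ne_zero (hτ j).1.1.ne_zero] at h7
      have := (hτ i).2.1
      have := (hτ j).2.1
      omega
    obtain ⟨i, hi⟩ := hi
    have t1 := (hτ i).2.1
    have t2 := (hτ i).2.2
    refine ⟨τ i, (∏ j ∈ univ.erase i, τ j) * c, ?_, (hτ i).1.1, (hτ i).1.2, fun h => ?_, by omega,
      by omega, fun s s1 s2 => ?_⟩
    · rw [← mul_assoc, Finset.mul_prod_erase _ _ (mem_univ i)]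
    · rcases (hτ i).1.2.prime.dvd_or_dvd h with h | h
      · obtain ⟨j, hj, h⟩ := ((hτ i).1.2.prime.dvd_finsetProd_iff _).1 h
        exact (Finset.mem_erase.1 hj).1 (hinj (mi_eq (hτ i).1 (hτ j).1 h)).symm
      · exact hi h
    · rcases s1.prime.dvd_or_dvd s2 with h | h
      · exact hd _ _ s1 h
      · by_contra hn
        exact hc ⟨s, s1, h, by omega⟩

theorem card_zero (p : ℕ) [hp : Fact p.Prime] [CharP k p]
    (box : ℕ → Finset k[X]) (hbox : ∀ n f, f ∈ box n ↔ f.degree < n) (m : ℕ) (De y t : k[X])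
    (D0 : De ≠ 0) (y0 : y ≠ 0) :
    ((box m).filter fun v => t + derivative (De ^ p * v * y) = 0).card
      ≤ Fintype.card k ^ ((m + y.natDegree) / p + 1) := by
  have p0 := hp.out.pos
  rcases ((box m).filter fun v => t + derivative (De ^ p * v * y) = 0).eq_empty_or_nonempty with
    he | ⟨v0, hv0⟩
  · rw [he]; exact Nat.zero_le _
  obtain ⟨b0, d0⟩ := Finset.mem_filter.1 hv0
  have hu : derivative (De ^ p) = 0 := by
    rw [derivative_pow, CharP.cast_eq_zero k p, C_0]; simp
  have hz : ∀ v ∈ (box m).filter fun v => t + derivative (De ^ p * v * y) = 0,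
      expand k p (contract p ((v - v0) * y)) = (v - v0) * y := by
    intro v hv
    refine expand_contract p ?_ p0.ne'
    have h1 := (Finset.mem_filter.1 hv).2
    have h2 : derivative (De ^ p * ((v - v0) * y)) = 0 := by
      have : De ^ p * ((v - v0) * y) = De ^ p * v * y - De ^ p * v0 * y := by ring
      rw [this, map_sub]
      linear_combination h1 - d0
    rw [derivative_mul, hu, zero_mul, zero_add] at h2
    exact (mul_eq_zero.1 h2).resolve_left (pow_ne_zero _ D0)
  rw [← card_box _ _ (hbox _)]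
  refine Finset.card_le_card_of_injOn (fun v => contract p ((v - v0) * y)) ?_ ?_
  · intro v hv
    have h1 := congrArg natDegree (hz v hv)
    rw [natDegree_expand] at h1
    have h2 : (v - v0).natDegree ≤ m := natDegree_le_of_degree_le
      ((degree_sub_le _ _).trans (max_le ((hbox _ _).1 (Finset.mem_filter.1 hv).1).le ((hbox _ _).1 b0).le))
    have h3 := @natDegree_mul_le _ _ (v - v0) y
    have h4 : (contract p ((v - v0) * y)).natDegree ≤ (m + y.natDegree) / p := by
      rw [Nat.le_div_iff_mul_le p0]; omega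
    refine Finset.mem_coe.2 ((hbox _ _).2 (lt_of_le_of_lt degree_le_natDegree ?_))
    exact_mod_cast Nat.lt_succ_of_le h4
  · intro v hv w hw e
    have h1 := hz v hv
    have e' : contract p ((v - v0) * y) = contract p ((w - v0) * y) := e
    rw [e', hz w hw] at h1
    have := mul_right_cancel₀ y0 h1
    exact (sub_left_inj.1 this).symm

theorem win (pr : ℕ → Finset k[X])
    (hpr : ∀ d P, P ∈ pr d ↔ P.Monic ∧ Irreducible P ∧ P.natDegree = d)
    (hpi : ∀ d : ℕ, 1 ≤ d → (Fintype.card k : ℝ) ^ d ≤ 2 * d * (pr d).card)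
    (A H N : ℕ) (h : A + H ≤ N) (N0 : 0 < N) :
    (H : ℝ) / (2 * N) ≤ ∑ r ∈ (Ioc A (A + H)).biUnion pr, 1 / (Fintype.card k : ℝ) ^ r.natDegree := by
  have q0 : (0 : ℝ) < Fintype.card k := by exact_mod_cast Fintype.card_pos
  rw [Finset.sum_biUnion]
  · have : (H : ℝ) / (2 * N) = ∑ _e ∈ Ioc A (A + H), (1 : ℝ) / (2 * N) := by
      simp [div_eq_mul_inv]
    rw [this]
    refine Finset.sum_le_sum fun e he => ?_
    obtain ⟨e1, e2⟩ := Finset.mem_Ioc.1 he
    rw [Finset.sum_congr rfl (g := fun _ => 1 / (Fintype.card k : ℝ) ^ e)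
      (fun r hr => by rw [((hpr _ _).1 hr).2.2]), Finset.sum_const, nsmul_eq_mul, mul_one_div,
      div_le_div_iff₀ (by positivity) (by positivity), one_mul]
    refine (hpi e (by omega)).trans ?_
    have : (e : ℝ) ≤ N := by exact_mod_cast (by omega : e ≤ N)
    rw [mul_comm]
    gcongr
  · intro a _ b _ hab
    refine Finset.disjoint_left.2 fun r ha hb => hab ?_
    rw [← ((hpr _ _).1 ha).2.2, ← ((hpr _ _).1 hb).2.2]

theorem arith (P n m N H Y C0 lo a b : ℕ) (hP : 2 ≤ P) (hN : N = n / (P + 1))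
    (hH : H = N / (4 * (P + 1) ^ 2)) (hlo : lo = N - 2 * (P + 1) * H)
    (ha : a = P * (lo + P * H) / (P + 1)) (hb : b = (m - P * Y) / (P + 1) - a - 1)
    (h1 : n ≤ m + C0) (h2 : m ≤ n) (hbig : (P + 2) * (C0 + (P + 1) * Y + (P + 1) + 2) ≤ H) :
    ((P + 1) * (a + b + 1) + P * Y ≤ m) ∧ (a + b + (P + 1) * (a + 1 - b) + H ≤ P * lo) ∧
    (P * (lo + P * H) + 1 + ((m + Y) / (P + 1) + 1) + H ≤ m) ∧
    (lo + P * H + H ≤ N) ∧ (N ≤ 2 * lo) ∧ (4 * H ≤ N) ∧
    (∀ c, c + P * lo ≤ n + Y → 2 * c ≤ 3 * N ∧ c < 2 * lo) ∧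
    (∀ c, c * lo ≤ n + Y → c ≤ 4 * (P + 1)) ∧ (N ≤ 8 * (P + 1) ^ 2 * H) ∧ 0 < H := by
  have n1 : (P + 1) * N ≤ n := by rw [hN]; exact Nat.mul_div_le _ _
  have n2 : n < (P + 1) * (N + 1) := by rw [hN]; exact Nat.lt_mul_div_succ _ (by omega)
  have e1 : 4 * (P + 1) ^ 2 * H ≤ N := by rw [hH]; exact Nat.mul_div_le _ _
  have e2 : N < 4 * (P + 1) ^ 2 * (H + 1) := by rw [hH]; exact Nat.lt_mul_div_succ _ (by positivity)
  have a1 : (P + 1) * a ≤ P * (lo + P * H) := by rw [ha]; exact Nat.mul_div_le _ _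
  set M := (m - P * Y) / (P + 1) with hM
  have m1 : (P + 1) * M ≤ m - P * Y := Nat.mul_div_le _ _
  have m2 : m - P * Y < (P + 1) * (M + 1) := Nat.lt_mul_div_succ _ (by omega)
  set W := (m + Y) / (P + 1) with hW
  have w1 : (P + 1) * W ≤ m + Y := Nat.mul_div_le _ _
  have u1 : 2 * H ≤ P * H := Nat.mul_le_mul_right H hP
  have u2 : 2 * (P * H) ≤ P * (P * H) := Nat.mul_le_mul_right _ hP
  have x1 : 4 * (P + 1) ^ 2 * H = 4 * (P * (P * H)) + 8 * (P * H) + 4 * H := by ring
  have x2 : 2 * (P + 1) * H = 2 * (P * H) + 2 * H := by ring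
  have l1 : lo + 2 * (P * H) + 2 * H = N := by omega
  have l2 : P * N = P * lo + 2 * (P * (P * H)) + 2 * (P * H) := by rw [← l1]; ring
  have x3 : (P + 1) * N = P * N + N := by ring
  have x4 : (P + 1) * (N + 1) = P * N + N + P + 1 := by ring
  have x5 : P * (lo + P * H) = P * lo + P * (P * H) := by ring
  have x6 : (P + 2) * (C0 + (P + 1) * Y + (P + 1) + 2)
      = P * C0 + 2 * C0 + P * (P * Y) + 3 * (P * Y) + 2 * Y + P * P + 5 * P + 6 := by ring
  have x7 : (P + 1) * (M + 1) = (P + 1) * M + P + 1 := by ring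
  have u3 : 2 * lo ≤ P * lo := Nat.mul_le_mul_right lo hP
  have hMN : M ≤ N := by
    have : (P + 1) * M < (P + 1) * (N + 1) := by omega
    exact Nat.lt_succ_iff.1 (Nat.lt_of_mul_lt_mul_left this)
  have haM : a + 1 ≤ M := by
    have : (P + 1) * a < (P + 1) * M := by omega
    exact Nat.lt_of_mul_lt_mul_left this
  have hab : a + b + 1 = M := by omega
  have hWN : W ≤ N + Y + 1 := by
    have x8 : (P + 1) * (N + Y + 1) = P * N + N + P + 1 + P * Y + Y := by ring
    have : (P + 1) * W < (P + 1) * (N + Y + 1) := by omega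
    exact (Nat.lt_of_mul_lt_mul_left this).le
  refine ⟨by rw [hab]; omega, ?_, by omega, by omega, by omega, by omega, fun c hc => by omega,
    fun c hc => ?_, ?_, by omega⟩
  · rcases le_or_gt b (a + 1) with h | h
    · have : (P + 1) * (a + 1 - b) + (P + 1) * M = 2 * ((P + 1) * a) + 2 * P + 2 := by
        rw [← mul_add, show a + 1 - b + M = 2 * a + 2 by omega]; ring
      omega
    · rw [show a + 1 - b = 0 by omega]
      omega
  · by_contra hn
    have := Nat.mul_le_mul_right lo (show 4 * (P + 1) + 1 ≤ c by omega)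
    have x9 : (4 * (P + 1) + 1) * lo = 4 * (P * lo) + 5 * lo := by ring
    have x10 : P * N ≤ P * (2 * lo) := Nat.mul_le_mul_left P (by omega)
    have x11 : P * (2 * lo) = 2 * (P * lo) := by ring
    omega
  · have : 4 * (P + 1) ^ 2 * (H + 1) ≤ 4 * (P + 1) ^ 2 * (2 * H) := Nat.mul_le_mul_left _ (by omega)
    have x9 : 4 * (P + 1) ^ 2 * (2 * H) = 8 * (P + 1) ^ 2 * H := by ring
    omega

/-- POS: the good lines have share at least `δ(p)` on every coset. -/
theorem pos (p : ℕ) [hp : Fact p.Prime] [CharP k p] (hp3 : 3 ≤ p)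
    (box : ℕ → Finset k[X]) (hbox : ∀ n f, f ∈ box n ↔ f.degree < n) (pr : ℕ → Finset k[X])
    (hpr : ∀ d P, P ∈ pr d ↔ P.Monic ∧ Irreducible P ∧ P.natDegree = d)
    (hpi : ∀ d : ℕ, 1 ≤ d → (Fintype.card k : ℝ) ^ d ≤ 2 * d * (pr d).card) :
    ∃ δ : ℝ, 0 < δ ∧ δ ≤ 1 ∧ ∀ g C0 : ℕ, ∃ n0 : ℕ, ∀ n, n0 ≤ n → ∀ De y : k[X], De ≠ 0 → y ≠ 0 →
      De.natDegree ≤ g → y.natDegree ≤ g →
      ∀ m, n ≤ m + C0 → m ≤ n → ∀ f0 : k[X], f0.natDegree ≤ n →
      δ * (Fintype.card k : ℝ) ^ m ≤ (((box m).filter fun v => ∃ π C : k[X],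
        derivative ((f0 + De ^ p * v) * y) = π * C ∧ π.Monic ∧ Irreducible π ∧ ¬ π ∣ C ∧
        n / p ≤ 2 * π.natDegree ∧ 2 * π.natDegree ≤ 3 * (n / p) ∧
        ∀ r : k[X], Irreducible r → r ∣ C → r.natDegree + n / p / (4 * p ^ 2) ≤ n / p).card : ℝ) := by
  obtain ⟨P, rfl⟩ : ∃ P, p = P + 1 := ⟨p - 1, by omega⟩
  have hP : 2 ≤ P := by omega
  have q2 : (2 : ℝ) ≤ Fintype.card k := by exact_mod_cast Fintype.one_lt_card
  set q : ℝ := (Fintype.card k : ℝ) with hq
  have q1 : 1 ≤ q := by linarith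
  have q0 : 0 < q := by linarith
  set σ : ℝ := (1 / (16 * ((P : ℝ) + 1) ^ 2)) ^ P with hσ
  have σ0 : 0 < σ := by positivity
  have P1 : (1 : ℝ) ≤ (P : ℝ) + 1 := by linarith [Nat.cast_nonneg (α := ℝ) P]
  have σ1 : σ ≤ 1 := pow_le_one₀ (by positivity) (by
    rw [div_le_one (by positivity)]; nlinarith)
  set K : ℝ := (4 * ((P : ℝ) + 1)) ^ P with hK
  have K1 : 1 ≤ K := one_le_pow₀ (by linarith)
  refine ⟨σ / (2 * K), by positivity, by rw [div_le_one (by positivity)]; linarith,
    fun g C0 => ?_⟩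
  obtain ⟨Y, hY⟩ : ∃ Y, Y = (P + 1) * g + g := ⟨_, rfl⟩
  have gY : g ≤ (P + 1) * g := Nat.le_mul_of_pos_left g (by omega)
  obtain ⟨H0, hH0⟩ := pow_unbounded_of_one_lt (4 / σ) (one_lt_two (α := ℝ))
  set Hb := H0 + (P + 2) * (C0 + (P + 1) * Y + (P + 1) + 2) + Y with hHb
  refine ⟨(P + 1) * (4 * (P + 1) ^ 2 * Hb), fun n hn De y D0 y0 gD gy m h1 h2 f0 hf0 => ?_⟩
  set N := n / (P + 1) with hN
  set H := N / (4 * (P + 1) ^ 2) with hH
  have hHH : Hb ≤ H := by
    rw [hH, Nat.le_div_iff_mul_le (by positivity), hN, Nat.le_div_iff_mul_le (by positivity)]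
    refine le_trans (le_of_eq ?_) hn
    ring
  set lo := N - 2 * (P + 1) * H with hlo
  obtain ⟨a1, a2, a3, a4, a5, a6, a7, a8, a9, a10⟩ := arith P n m N H Y C0 lo _ _ hP hN hH hlo
    rfl rfl h1 (by omega) (by omega)
  set a := P * (lo + P * H) / (P + 1) with ha
  set b := (m - P * Y) / (P + 1) - a - 1 with hb
  have a1' : (P + 1) * (a + b + 1) + (P + 1 - 1) * y.natDegree ≤ m :=
    le_trans (Nat.add_le_add_left (Nat.mul_le_mul_left P (by omega)) _) a1
  -- tuples of primes
  let W : Fin P → Finset k[X] := fun i => (Ioc (lo + i * H) (lo + i * H + H)).biUnion pr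
  have iH : ∀ i : Fin P, (i : ℕ) * H + H ≤ P * H := fun i => by
    have := Nat.mul_le_mul_right H (Nat.succ_le_of_lt i.2)
    rwa [Nat.succ_mul] at this
  have hW : ∀ i, ∀ r ∈ W i, (r.Monic ∧ Irreducible r) ∧ lo + i * H < r.natDegree ∧
      r.natDegree ≤ lo + i * H + H := by
    intro i r hr
    obtain ⟨e, he, hr⟩ := Finset.mem_biUnion.1 hr
    obtain ⟨r1, r2, r3⟩ := (hpr _ _).1 hr
    rw [r3]
    exact ⟨⟨r1, r2⟩, Finset.mem_Ioc.1 he⟩
  have hWW : ∀ i j, ∀ r ∈ W i, r ∈ W j → i = j := by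
    intro i j r hi hj
    have h3 := (hW i r hi).2
    have h4 := (hW j r hj).2
    by_contra hij
    rcases lt_or_gt_of_ne (fun e => hij (Fin.ext e) : (i : ℕ) ≠ j) with h | h
    · have := Nat.mul_le_mul_right H (Nat.succ_le_of_lt h)
      rw [Nat.succ_mul] at this
      omega
    · have := Nat.mul_le_mul_right H (Nat.succ_le_of_lt h)
      rw [Nat.succ_mul] at this
      omega
  let T := Fintype.piFinset W
  have hT : ∀ τ ∈ T, ∀ i, τ i ∈ W i := fun τ h => Fintype.mem_piFinset.1 h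
  have tinj : ∀ τ ∈ T, Function.Injective τ := fun τ h i j e =>
    hWW i j _ (hT τ h i) (e ▸ hT τ h j)
  have dinj : Set.InjOn (fun τ : Fin P → k[X] => ∏ i, τ i) T := by
    intro τ h τ' h' e
    refine _root_.funext fun i => ?_
    have e' : ∏ i, τ i = ∏ i, τ' i := e
    have h3 : τ i ∣ ∏ i, τ' i := e' ▸ Finset.dvd_prod_of_mem τ (mem_univ i)
    obtain ⟨j, -, hj⟩ := ((hW i _ (hT τ h i)).1.2.prime.dvd_finsetProd_iff _).1 h3
    have h4 := mi_eq (hW i _ (hT τ h i)).1 (hW j _ (hT τ' h' j)).1 hj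
    have h5 : i = j := hWW i j _ (hT τ h i) (h4 ▸ hT τ' h' j)
    rw [h4, h5]
  have ddeg : ∀ τ ∈ T, (∏ i, τ i).natDegree = ∑ i, (τ i).natDegree := fun τ h =>
    natDegree_prod_of_monic _ _ fun i _ => (hW i _ (hT τ h i)).1.1
  have dlo : ∀ τ ∈ T, P * lo ≤ (∏ i, τ i).natDegree := by
    intro τ h
    have := Finset.card_nsmul_le_sum univ (fun i => (τ i).natDegree) lo fun i _ => by
      have := (hW i _ (hT τ h i)).2.1
      omega
    rw [ddeg τ h]
    simpa using this
  have dhi : ∀ τ ∈ T, (∏ i, τ i).natDegree ≤ P * (lo + P * H) := by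
    intro τ h
    have := Finset.sum_le_card_nsmul univ (fun i => (τ i).natDegree) (lo + P * H) fun i _ => by
      have := (hW i _ (hT τ h i)).2.2
      have := iH i
      omega
    rw [ddeg τ h]
    simpa using this
  let S := T.image fun τ => ∏ i, τ i
  have L := lev_main (P + 1) box hbox a b m (P * lo) De y (derivative (f0 * y)) a1' S (by
    intro d hd
    obtain ⟨τ, h, rfl⟩ := Finset.mem_image.1 hd
    refine ⟨monic_prod_of_monic _ _ fun i _ => (hW i _ (hT τ h i)).1.1, ?_, dlo τ h,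
      Nat.div_le_div_right (dhi τ h), IsCoprime.prod_left fun i _ => ?_⟩
    · exact Finset.squarefree_prod_of_pairwise_isCoprime
        (fun i _ j _ hij => (mi_cop (hW i _ (hT τ h i)).1 (hW j _ (hT τ h j)).1
          fun e => hij (tinj τ h e)).isRelPrime)
        fun i _ => (hW i _ (hT τ h i)).1.2.squarefree
    · refine (hW i _ (hT τ h i)).1.2.coprime_iff_not_dvd.2 fun e => ?_
      have := natDegree_le_of_dvd e (mul_ne_zero D0 y0)
      have := @natDegree_mul_le _ _ De y
      have := (hW i _ (hT τ h i)).2.1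
      omega)
  rw [Finset.sum_image dinj] at L
  have eB : ∀ v, derivative ((f0 + De ^ (P + 1) * v) * y)
      = derivative (f0 * y) + derivative (De ^ (P + 1) * v * y) := fun v => by rw [add_mul, map_add]
  simp only [← eB] at L
  set B : k[X] → k[X] := fun v => derivative ((f0 + De ^ (P + 1) * v) * y) with hB
  have small : 1 / q ^ H ≤ σ / 4 := by
    have h3 : (2 : ℝ) ^ H0 ≤ q ^ H :=
      (pow_le_pow_left₀ (by norm_num) q2 _).trans (pow_le_pow_right₀ q1 (by omega))
    rw [div_lt_iff₀ σ0] at hH0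
    rw [div_le_div_iff₀ (by positivity) (by norm_num)]
    nlinarith
  have L2 : q ^ (a + b + (P + 1) * (a + 1 - b)) / q ^ (P * lo) ≤ 1 / q ^ H := by
    rw [div_le_div_iff₀ (by positivity) (by positivity), one_mul, ← pow_add]
    exact pow_le_pow_right₀ q1 a2
  have N0 : 0 < N := by omega
  have main : σ ≤ ∑ τ ∈ T, 1 / q ^ (∏ i, τ i).natDegree := by
    have e : ∑ τ ∈ T, 1 / q ^ (∏ i, τ i).natDegree = ∏ i, ∑ r ∈ W i, 1 / q ^ r.natDegree := by
      rw [Finset.prod_univ_sum]
      refine Finset.sum_congr rfl fun τ h => ?_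
      rw [ddeg τ h, Finset.prod_div_distrib, Finset.prod_const_one, Finset.prod_pow_eq_pow_sum]
    rw [e, hσ, ← Fin.prod_const]
    refine Finset.prod_le_prod (fun _ _ => by positivity) fun i _ => ?_
    refine le_trans ?_ (win pr hpr hpi (lo + i * H) H N (by have := iH i; omega) N0)
    have h3 : (N : ℝ) ≤ 8 * ((P : ℝ) + 1) ^ 2 * H := by exact_mod_cast a9
    have h4 : (0 : ℝ) < N := by exact_mod_cast N0
    rw [div_le_div_iff₀ (by positivity) (by positivity)]
    linarith
  have lower : (σ - σ / 4) * q ^ m ≤ ∑ τ ∈ T, (((box m).filter fun z => (∏ i, τ i) ∣ B z).card : ℝ) := by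
    have h3 : ∑ τ ∈ T, 1 / q ^ (∏ i, τ i).natDegree
        - ∑ τ ∈ T, (((box m).filter fun z => (∏ i, τ i) ∣ B z).card : ℝ) / q ^ m ≤ σ / 4 := by
      rw [← Finset.sum_sub_distrib]
      refine le_trans (Finset.sum_le_sum fun τ _ => ?_) (L.trans (L2.trans small))
      rw [abs_sub_comm]
      exact le_abs_self _
    rw [← Finset.sum_div] at h3
    rw [← le_div_iff₀ (by positivity)]
    linarith
  have dB : ∀ v ∈ box m, (B v).natDegree ≤ n + Y := by
    intro v hv
    have h3 : v.natDegree ≤ m := natDegree_le_of_degree_le ((hbox _ _).1 hv).le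
    have h4 := @natDegree_mul_le _ _ (De ^ (P + 1)) v
    have h5 := @natDegree_pow_le _ _ De (P + 1)
    have h6 := natDegree_add_le f0 (De ^ (P + 1) * v)
    have h7 := @natDegree_mul_le _ _ (f0 + De ^ (P + 1) * v) y
    have h8 := natDegree_derivative_le ((f0 + De ^ (P + 1) * v) * y)
    have h10 := Nat.mul_le_mul_left (P + 1) gD
    have h9 : max f0.natDegree (De ^ (P + 1) * v).natDegree ≤ n + (P + 1) * g :=
      max_le (by omega) (by omega)
    simp only [hB]
    omega
  set G : k[X] → Prop := fun v => ∃ π C : k[X], B v = π * C ∧ π.Monic ∧ Irreducible π ∧ ¬ π ∣ C ∧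
    N ≤ 2 * π.natDegree ∧ 2 * π.natDegree ≤ 3 * N ∧
    ∀ r : k[X], Irreducible r → r ∣ C → r.natDegree + H ≤ N with hG
  have pt : ∀ v ∈ box m, (T.filter fun τ => (∏ i, τ i) ∣ B v).card
      ≤ (if B v = 0 then T.card else 0) + (if G v then (4 * (P + 1)) ^ P else 0) := by
    intro v hv
    by_cases b0 : B v = 0
    · rw [if_pos b0]
      exact (Finset.card_filter_le _ _).trans (Nat.le_add_right _ _)
    rw [if_neg b0, zero_add]
    rcases (T.filter fun τ => (∏ i, τ i) ∣ B v).eq_empty_or_nonempty with he | ⟨τ, hτ⟩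
    · rw [he]; exact Nat.zero_le _
    obtain ⟨h, c, hc⟩ := Finset.mem_filter.1 hτ
    have c0 : c ≠ 0 := fun e => b0 (by rw [hc, e, mul_zero])
    have d0 : (∏ i, τ i) ≠ 0 := fun e => b0 (by rw [hc, e, zero_mul])
    have dc : c.natDegree + P * lo ≤ n + Y := by
      have h3 := dB v hv
      rw [hc, natDegree_mul d0 c0] at h3
      have := dlo τ h
      omega
    have : Nontrivial (Fin P) := Fin.nontrivial_iff_two_le.2 hP
    have g : G v := by
      simp only [hG]
      rw [hc]
      refine good_of τ c c0 N H lo (tinj τ h) (fun i => ⟨(hW i _ (hT τ h i)).1, ?_⟩) a5 (a7 _ dc).1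
        (a7 _ dc).2 a6 (by omega)
      have := (hW i _ (hT τ h i)).2
      have := iH i
      omega
    rw [if_pos g]
    let R := (univ.biUnion W).filter fun r => r ∣ B v
    have hR : R.card ≤ 4 * (P + 1) := a8 _ ((card_primes _ b0 lo R fun r hr => by
      obtain ⟨r1, r2⟩ := Finset.mem_filter.1 hr
      obtain ⟨i, -, hi⟩ := Finset.mem_biUnion.1 r1
      have := (hW i r hi).2.1
      exact ⟨(hW i r hi).1, by omega, r2⟩).trans (dB v hv))
    have sub : (T.filter fun τ => (∏ i, τ i) ∣ B v) ⊆ Fintype.piFinset fun _ : Fin P => R := by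
      intro τ' hτ'
      obtain ⟨h', e⟩ := Finset.mem_filter.1 hτ'
      exact Fintype.mem_piFinset.2 fun i => Finset.mem_filter.2
        ⟨Finset.mem_biUnion.2 ⟨i, mem_univ i, hT τ' h' i⟩,
          (Finset.dvd_prod_of_mem τ' (mem_univ i)).trans e⟩
    refine (Finset.card_le_card sub).trans ?_
    rw [Fintype.card_piFinset_const]
    exact Nat.pow_le_pow_left hR _
  have cT : T.card ≤ Fintype.card k ^ (P * (lo + P * H) + 1) := by
    rw [← card_box _ _ (hbox _)]
    refine Finset.card_le_card_of_injOn _ (fun τ h => ?_) dinj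
    refine Finset.mem_coe.2 ((hbox _ _).2 (lt_of_le_of_lt degree_le_natDegree ?_))
    exact_mod_cast Nat.lt_succ_of_le (dhi τ h)
  have cZ := (card_zero (P + 1) box hbox m De y (derivative (f0 * y)) D0 y0).trans
    (Nat.pow_le_pow_right Fintype.card_pos (Nat.add_le_add_right
      (Nat.div_le_div_right (show m + y.natDegree ≤ m + Y by omega)) 1))
  simp only [← eB] at cZ
  have upper : ∑ τ ∈ T, ((box m).filter fun z => (∏ i, τ i) ∣ B z).card
      ≤ Fintype.card k ^ (P * (lo + P * H) + 1 + ((m + Y) / (P + 1) + 1))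
        + (4 * (P + 1)) ^ P * ((box m).filter G).card := by
    calc ∑ τ ∈ T, ((box m).filter fun z => (∏ i, τ i) ∣ B z).card
        = ∑ v ∈ box m, (T.filter fun τ => (∏ i, τ i) ∣ B v).card := by
          simp only [Finset.card_filter]
          exact Finset.sum_comm
      _ ≤ _ := Finset.sum_le_sum pt
      _ = T.card * ((box m).filter fun v => B v = 0).card
          + (4 * (P + 1)) ^ P * ((box m).filter G).card := by
          rw [Finset.sum_add_distrib, ← Finset.sum_filter, ← Finset.sum_filter, Finset.sum_const,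
            Finset.sum_const, smul_eq_mul, smul_eq_mul, mul_comm, mul_comm (card _) (_ ^ P)]
      _ ≤ _ := by
          rw [pow_add]
          exact Nat.add_le_add_right (Nat.mul_le_mul cT cZ) _
  have up2 : ∑ τ ∈ T, (((box m).filter fun z => (∏ i, τ i) ∣ B z).card : ℝ)
      ≤ q ^ (P * (lo + P * H) + 1 + ((m + Y) / (P + 1) + 1))
        + K * ((box m).filter G).card := by
    rw [hK, hq]
    exact_mod_cast upper
  have z2 : q ^ (P * (lo + P * H) + 1 + ((m + Y) / (P + 1) + 1)) ≤ σ / 4 * q ^ m := by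
    refine le_trans ?_ (mul_le_mul_of_nonneg_right small (by positivity))
    rw [one_div, inv_mul_eq_div, le_div_iff₀ (by positivity), ← pow_add]
    exact pow_le_pow_right₀ q1 a3
  change σ / (2 * K) * q ^ m ≤ (((box m).filter G).card : ℝ)
  rw [div_mul_eq_mul_div, div_le_iff₀ (by positivity)]
  linarith

end H4Lev

open Filter
open scoped BigOperators

noncomputable section
namespace Pool.Agent.H4O

variable {k : Type} [Field k] [Fintype k] {p : ℕ} [Fact p.Prime] [CharP k p]

theorem pos (h2 : p ≠ 2) : ∃ δ : ℝ, 0 < δ ∧ ∀ γ c : ℕ, ∀ᶠ n in atTop, ∀ y D f : k[X], y ≠ 0 →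
    y.natDegree ≤ γ → D ≠ 0 → D.natDegree ≤ γ → f ∈ mon k n →
      δ ≤ 𝔼 v ∈ box k (p * (n / p - c)),
        (if Good p n (derivative ((f + D ^ p * v) * y)) then (1 : ℝ) else 0) := by
  have pp : p.Prime := Fact.out
  have hp3 : 3 ≤ p := by have := pp.two_le; omega
  obtain ⟨δ, d0, -, h⟩ := H4Lev.pos (k := k) p hp3 (box k) (fun _ _ => mem_box) (prs k)
    (fun d P => by
      unfold prs
      rw [Finset.mem_filter, mem_mon]
      tauto)
    (fun d hd => card_prs hd)
  refine ⟨δ, d0, fun γ c => ?_⟩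
  obtain ⟨n0, h⟩ := h γ (p * c + p)
  refine eventually_atTop.2 ⟨n0, fun n hn y D f y0 hy D0 hD hf => ?_⟩
  have e1 := Nat.mul_div_le n p
  have e2 := Nat.lt_mul_div_succ n pp.pos
  have e3 : p * (n / p) ≤ p * (n / p - c + c) := Nat.mul_le_mul_left p (by omega)
  have e4 : p * (n / p - c) ≤ p * (n / p) := Nat.mul_le_mul_left p (Nat.sub_le _ _)
  rw [mul_add] at e2 e3
  have := h n hn D y D0 y0 hD hy (p * (n / p - c)) (by omega) (by omega) f (mem_mon.1 hf).2.le
  have q0 : 0 < qq k := lt_of_lt_of_le two_pos two_le_qq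
  rw [box_exp, le_div_iff₀ (by positivity), Finset.sum_boole]
  convert this using 3 <;> rfl

end Pool.Agent.H4O

end

end

section

set_option autoImplicit false

open Polynomial Finset
open scoped Classical BigOperators

noncomputable section
namespace Pool.Agent.H4O

section Fourier
variable {G : Type*} [AddCommGroup G] [Fintype G]

theorem lln_parseval (F : G → ℝ) :
    ∑ ψ : AddChar G ℂ, ‖∑ x, (F x : ℂ) * ψ x‖ ^ 2 = Fintype.card G * ∑ x, F x ^ 2 := by
  have h1 : ∀ ψ : AddChar G ℂ, ((‖∑ x, (F x : ℂ) * ψ x‖ ^ 2 : ℝ) : ℂ) =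
      ∑ x, ∑ y, (F x : ℂ) * (F y : ℂ) * ψ (x - y) := by
    intro ψ
    rw [← Complex.normSq_eq_norm_sq, ← Complex.mul_conj, map_sum, Finset.sum_mul_sum]
    refine Finset.sum_congr rfl fun x _ => Finset.sum_congr rfl fun y _ => ?_
    rw [map_mul, Complex.conj_ofReal, sub_eq_add_neg, AddChar.map_add_eq_mul,
      AddChar.map_neg_eq_conj]
    ring
  have h2 : ((∑ ψ : AddChar G ℂ, ‖∑ x, (F x : ℂ) * ψ x‖ ^ 2 : ℝ) : ℂ) =
      ((Fintype.card G * ∑ x, F x ^ 2 : ℝ) : ℂ) := by
    rw [Complex.ofReal_sum]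
    simp_rw [h1]
    rw [Finset.sum_comm]
    push_cast
    rw [Finset.mul_sum]
    refine Finset.sum_congr rfl fun x _ => ?_
    rw [Finset.sum_comm]
    simp_rw [← Finset.mul_sum, AddChar.sum_apply_eq_ite, sub_eq_zero]
    rw [Finset.sum_eq_single x]
    · simp only [if_true]; ring
    · intro y _ hy; rw [if_neg (Ne.symm hy), mul_zero]
    · intro h; exact absurd (mem_univ x) h
  exact_mod_cast h2

theorem lln_shift (F : G → ℝ) (ψ : AddChar G ℂ) (u : G) :
    ∑ x, (F x : ℂ) * ψ x = ψ u * ∑ x, (F (x + u) : ℂ) * ψ x := by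
  rw [← Equiv.sum_comp (Equiv.addRight u), Finset.mul_sum]
  refine Finset.sum_congr rfl fun x _ => ?_
  rw [Equiv.coe_addRight, AddChar.map_add_eq_mul]
  ring

/-- Almost orthogonality: `F j` is invariant under `U j`, has sum zero on translates of `Λ`,
and `Λ` lies in the sum of any `r + 1` of the `U j`. -/
theorem lln_sq {ι : Type*} [Fintype ι] (r : ℕ) (U : ι → Set G) (Λ : Finset G) (hΛ : Λ.Nonempty)
    (F : ι → G → ℝ) (hU : ∀ j, ∀ u ∈ U j, ∀ x, F j (x + u) = F j x)
    (h0 : ∀ j x, ∑ l ∈ Λ, F j (x + l) = 0)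
    (hs : ∀ S : Finset ι, #S = r + 1 → ∀ l ∈ Λ, ∃ u : ι → G, (∀ j, u j ∈ U j) ∧ l = ∑ j ∈ S, u j) :
    ∑ x, (∑ j, F j x) ^ 2 ≤ r * ∑ j, ∑ x, F j x ^ 2 := by
  have hc : (0 : ℝ) < Fintype.card G := by exact_mod_cast Fintype.card_pos
  have key : ∀ ψ : AddChar G ℂ, ‖∑ x, ((∑ j, F j x : ℝ) : ℂ) * ψ x‖ ^ 2 ≤
      r * ∑ j, ‖∑ x, (F j x : ℂ) * ψ x‖ ^ 2 := by
    intro ψ
    set a : ι → ℂ := fun j => ∑ x, (F j x : ℂ) * ψ x with ha
    have e1 : ∑ x, ((∑ j, F j x : ℝ) : ℂ) * ψ x = ∑ j, a j := by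
      simp only [ha]
      rw [Finset.sum_comm]
      refine Finset.sum_congr rfl fun x _ => ?_
      rw [Complex.ofReal_sum, Finset.sum_mul]
    set T : Finset ι := univ.filter fun j => a j ≠ 0 with hT
    have hTc : #T ≤ r := by
      by_contra hlt
      obtain ⟨S, hST, hS⟩ := Finset.exists_subset_card_eq (show r + 1 ≤ #T by omega)
      have h1 : ∀ j ∈ S, ∀ u ∈ U j, ψ u = 1 := by
        intro j hj u hu
        have hne : a j ≠ 0 := (mem_filter.1 (hST hj)).2
        have := lln_shift (F j) ψ u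
        simp only [hU j u hu] at this
        exact (mul_eq_right₀ hne).1 this.symm
      have h2 : ∀ l ∈ Λ, ψ l = 1 := by
        intro l hl
        obtain ⟨u, hu, rfl⟩ := hs S hS l hl
        have : ∀ S' : Finset ι, S' ⊆ S → ψ (∑ j ∈ S', u j) = 1 := by
          intro S'
          induction S' using Finset.induction_on with
          | empty => intro _; simp
          | insert j S' hj ih =>
            intro hsub
            rw [Finset.sum_insert hj, AddChar.map_add_eq_mul,
              h1 j (hsub (mem_insert_self _ _)) _ (hu j),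
              ih (fun i hi => hsub (mem_insert_of_mem hi)), one_mul]
        exact this S (Subset.refl _)
      obtain ⟨j, hj⟩ : S.Nonempty := Finset.card_pos.1 (by omega)
      have hne : a j ≠ 0 := (mem_filter.1 (hST hj)).2
      have h3 : (#Λ : ℂ) * a j = 0 := by
        have : ∀ l ∈ Λ, a j = ∑ x, (F j (x + l) : ℂ) * ψ x := by
          intro l hl
          have := lln_shift (F j) ψ l
          rw [h2 l hl, one_mul] at this
          exact this
        rw [← nsmul_eq_mul, ← Finset.sum_const, Finset.sum_congr rfl this, Finset.sum_comm]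
        refine Finset.sum_eq_zero fun x _ => ?_
        rw [← Finset.sum_mul, ← Complex.ofReal_sum, h0, Complex.ofReal_zero, zero_mul]
      have h4 : (#Λ : ℂ) ≠ 0 := by exact_mod_cast hΛ.card_pos.ne'
      exact hne ((mul_eq_zero.1 h3).resolve_left h4)
    have e2 : ∑ j, a j = ∑ j ∈ T, a j := by
      rw [hT, Finset.sum_filter_ne_zero]
    rw [e1, e2]
    calc ‖∑ j ∈ T, a j‖ ^ 2 ≤ (∑ j ∈ T, ‖a j‖) ^ 2 := by
          gcongr; exact norm_sum_le _ _
      _ ≤ #T * ∑ j ∈ T, ‖a j‖ ^ 2 := sq_sum_le_card_mul_sum_sq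
      _ ≤ r * ∑ j, ‖a j‖ ^ 2 := by
          gcongr
          exact subset_univ _
  have h := Finset.sum_le_sum fun ψ (_ : ψ ∈ (univ : Finset (AddChar G ℂ))) => key ψ
  rw [lln_parseval, ← Finset.mul_sum, Finset.sum_comm] at h
  simp_rw [lln_parseval] at h
  rw [← Finset.mul_sum, mul_left_comm] at h
  exact le_of_mul_le_mul_left h hc

end Fourier

section Coset
variable {A : Type*} [AddCommGroup A]

/-- `lln_sq` on a finite subgroup given as a finset `V` of an ambient group. -/
theorem lln_fin {ι : Type*} [Fintype ι] (V : Finset A) (hV0 : 0 ∈ V)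
    (hVs : ∀ a ∈ V, ∀ b ∈ V, a - b ∈ V) (r : ℕ) (U : ι → Set A) (hUV : ∀ j, ∀ u ∈ U j, u ∈ V)
    (Λ : Finset A) (hΛV : Λ ⊆ V) (hΛ : Λ.Nonempty) (F : ι → A → ℝ)
    (hU : ∀ j, ∀ u ∈ U j, ∀ x ∈ V, F j (x + u) = F j x)
    (h0 : ∀ j, ∀ x ∈ V, ∑ l ∈ Λ, F j (x + l) = 0)
    (hs : ∀ S : Finset ι, #S = r + 1 → ∀ l ∈ Λ, ∃ u : ι → A, (∀ j, u j ∈ U j) ∧ l = ∑ j ∈ S, u j) :
    ∑ x ∈ V, (∑ j, F j x) ^ 2 ≤ r * ∑ j, ∑ x ∈ V, F j x ^ 2 := by
  let H : AddSubgroup A :=
    { carrier := V
      zero_mem' := hV0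
      add_mem' := by
        intro a b ha hb
        have := hVs a ha _ (hVs 0 hV0 b hb)
        rwa [zero_sub, sub_neg_eq_add] at this
      neg_mem' := by
        intro a ha
        have := hVs 0 hV0 a ha
        rwa [zero_sub] at this }
  have hH : ∀ a, a ∈ H ↔ a ∈ V := fun a => Iff.rfl
  letI : Fintype H := Fintype.subtype V fun a => (hH a).symm
  have hsum : ∀ f : A → ℝ, ∑ x : H, f x = ∑ x ∈ V, f x := fun f =>
    (Finset.sum_subtype V (fun a => (hH a).symm) f).symm
  have hΛs : ∀ f : A → ℝ, ∑ l ∈ Λ.subtype (· ∈ H), f l = ∑ l ∈ Λ, f l := fun f =>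
    Finset.sum_subtype_of_mem f fun a ha => hΛV ha
  have := lln_sq (G := H) r (fun j => {u | (u : A) ∈ U j}) (Λ.subtype (· ∈ H))
    (by obtain ⟨l, hl⟩ := hΛ; exact ⟨⟨l, hΛV hl⟩, mem_subtype.2 hl⟩)
    (fun j x => F j x) (fun j u hu x => hU j u hu x x.2)
    (fun j x => by
      have := hΛs fun l => F j (x + l)
      rw [h0 j x x.2] at this
      exact this)
    (fun S hS l hl => by
      obtain ⟨u, hu, e⟩ := hs S hS l (mem_subtype.1 hl)
      refine ⟨fun j => ⟨u j, hUV j _ (hu j)⟩, hu, Subtype.ext ?_⟩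
      rw [e, AddSubgroup.val_finsetSum])
  rw [hsum fun x => (∑ j, F j x) ^ 2] at this
  simp_rw [show ∀ j, ∑ x : H, F j x ^ 2 = ∑ x ∈ V, F j x ^ 2 from
    fun j => hsum fun x => F j x ^ 2] at this
  exact this

/-- Law of large numbers for line-invariant weights. -/
theorem lln_one {ι : Type*} [Fintype ι] [Nonempty ι] (V : Finset A) (hV0 : 0 ∈ V)
    (hVs : ∀ a ∈ V, ∀ b ∈ V, a - b ∈ V) (r : ℕ) (U : ι → Set A) (hUV : ∀ j, ∀ u ∈ U j, u ∈ V)
    (Λ : Finset A) (hΛV : Λ ⊆ V) (hΛ : Λ.Nonempty) (W : ι → A → ℝ) {δ : ℝ} (hδ : 0 < δ)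
    (hδ1 : δ ≤ 1) (hW0 : ∀ j, ∀ x ∈ V, 0 ≤ W j x) (hW1 : ∀ j, ∀ x ∈ V, W j x ≤ 1 / δ)
    (hU : ∀ j, ∀ u ∈ U j, ∀ x ∈ V, W j (x + u) = W j x)
    (h1 : ∀ j, ∀ x ∈ V, 𝔼 l ∈ Λ, W j (x + l) = 1)
    (hs : ∀ S : Finset ι, #S = r + 1 → ∀ l ∈ Λ, ∃ u : ι → A, (∀ j, u j ∈ U j) ∧ l = ∑ j ∈ S, u j) :
    𝔼 x ∈ V, |1 - 𝔼 j, W j x| ≤ √(r / Fintype.card ι) / δ := by
  have hM : (0 : ℝ) < Fintype.card ι := by exact_mod_cast Fintype.card_pos
  have hVc : (0 : ℝ) < #V := by exact_mod_cast Finset.card_pos.2 ⟨0, hV0⟩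
  have hΛc : (0 : ℝ) < #Λ := by exact_mod_cast hΛ.card_pos
  have h := lln_fin V hV0 hVs r U hUV Λ hΛV hΛ (fun j x => 1 - W j x)
    (fun j u hu x hx => by simp only [hU j u hu x hx])
    (fun j x hx => by
      have := h1 j x hx
      rw [Finset.expect_eq_sum_div_card, div_eq_one_iff_eq hΛc.ne'] at this
      rw [Finset.sum_sub_distrib, this]; simp) hs
  have hb : ∑ j, ∑ x ∈ V, (1 - W j x) ^ 2 ≤ Fintype.card ι * (#V * (1 / δ) ^ 2) := by
    have hd : 1 ≤ 1 / δ := by rw [le_div_iff₀ hδ]; linarith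
    calc _ ≤ ∑ _j : ι, ∑ _x ∈ V, (1 / δ) ^ 2 := by
          refine Finset.sum_le_sum fun j _ => Finset.sum_le_sum fun x hx => ?_
          have := hW0 j x hx
          have := hW1 j x hx
          exact sq_le_sq' (by linarith) (by linarith)
      _ = _ := by simp
  have e : ∀ x, 1 - 𝔼 j, W j x = (∑ j, (1 - W j x)) / Fintype.card ι := by
    intro x
    rw [Finset.expect_eq_sum_div_card, Finset.sum_sub_distrib, card_univ]
    simp only [sum_const, card_univ, nsmul_eq_mul, mul_one]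
    field_simp
  have h2 : (∑ x ∈ V, |1 - 𝔼 j, W j x|) ^ 2 ≤ (#V * (√(r / Fintype.card ι) / δ)) ^ 2 := by
    refine sq_sum_le_card_mul_sum_sq.trans ?_
    simp_rw [sq_abs, e, div_pow]
    rw [← Finset.sum_div, mul_pow, div_pow, Real.sq_sqrt (by positivity)]
    have h3 := h.trans (mul_le_mul_of_nonneg_left hb (Nat.cast_nonneg r))
    calc (#V : ℝ) * ((∑ x ∈ V, (∑ j, (1 - W j x)) ^ 2) / (Fintype.card ι : ℝ) ^ 2)
        ≤ #V * ((r * (Fintype.card ι * (#V * (1 / δ) ^ 2))) / (Fintype.card ι : ℝ) ^ 2) := by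
          gcongr
      _ = _ := by field_simp
  rw [Finset.expect_eq_sum_div_card, div_le_iff₀ hVc, mul_comm]
  exact (pow_le_pow_iff_left₀ (Finset.sum_nonneg fun _ _ => abs_nonneg _) (by positivity)
    two_ne_zero).1 h2

end Coset

section Vand
variable {k : Type*} [Field k] [Fintype k] (p : ℕ) [Fact p.Prime] [CharP k p]

theorem vand_split (N : ℕ) (v : k[X]) (hv : v.degree < (p * N : ℕ)) :
    ∃ u : ℕ → k[X], (∀ t, (u t).degree < N) ∧ v = ∑ t ∈ range p, X ^ t * u t ^ p := by
  have hp : 0 < p := (Fact.out : p.Prime).pos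
  have hN : ∀ n, p * N ≤ n → v.coeff n = 0 := fun n hn =>
    coeff_eq_zero_of_degree_lt (hv.trans_le (by exact_mod_cast hn))
  have hrt : ∀ a : k, ∃ b : k, b ^ p = a := fun a => by
    obtain ⟨b, hb⟩ := (bijective_frobenius k p).2 a
    exact ⟨b, hb⟩
  choose rt hrt using hrt
  refine ⟨fun t => ∑ i ∈ range N, monomial i (rt (v.coeff (p * i + t))), fun t => ?_, ?_⟩
  · refine (degree_sum_le _ _).trans_lt ?_
    rw [Finset.sup_lt_iff (WithBot.bot_lt_coe _)]
    intro i hi
    exact (degree_monomial_le _ _).trans_lt (by exact_mod_cast mem_range.1 hi)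
  · have h1 : v = ∑ n ∈ range (p * N), monomial n (v.coeff n) := by
      ext n
      rw [finsetSum_coeff]
      simp only [coeff_monomial, Finset.sum_ite_eq', mem_range]
      split_ifs with h
      · rfl
      · exact hN n (by omega)
    have h2 : ∀ t, X ^ t * (∑ i ∈ range N, monomial i (rt (v.coeff (p * i + t)))) ^ p =
        ∑ i ∈ range N, monomial (p * i + t) (v.coeff (p * i + t)) := by
      intro t
      rw [sum_pow_char, Finset.mul_sum]
      refine Finset.sum_congr rfl fun i _ => ?_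
      rw [monomial_pow, hrt, X_pow_mul_monomial, mul_comm i p]
    simp_rw [h2]
    conv_lhs => rw [h1]
    rw [Finset.sum_comm, mul_comm p N]
    clear h1 hN hv h2
    induction N with
    | zero => simp
    | succ N ih =>
      rw [Finset.sum_range_succ, ← ih, Nat.succ_mul, Finset.sum_range_add]
      congr 1
      refine Finset.sum_congr rfl fun t _ => ?_
      rw [mul_comm N p]

omit [Fintype k] in
theorem vand_pow (c : k[X]) :
    (X - c ^ p) ^ (p - 1) = ∑ t ∈ range p, X ^ t * (c ^ (p - 1 - t)) ^ p ∨ X - c ^ p = 0 := by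
  have hp : 0 < p := (Fact.out : p.Prime).pos
  by_cases h : X - c ^ p = 0
  · exact Or.inr h
  left
  apply mul_right_cancel₀ h
  have e : ∀ t, (c ^ (p - 1 - t)) ^ p = (c ^ p) ^ (p - 1 - t) := fun t => by
    rw [← pow_mul, ← pow_mul, mul_comm]
  simp_rw [e]
  rw [Commute.geom_sum₂_mul (Commute.all _ _), ← pow_succ, Nat.sub_add_cancel hp, sub_pow_char]

omit [Fintype k] in
theorem vand_ne (c : k[X]) : (X - c ^ p : k[X]) ≠ 0 := by
  intro h
  have := congrArg derivative h
  rw [derivative_sub, derivative_X, derivative_pow, derivative_zero] at this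
  simp at this

omit [Fintype k] [CharP k p] in
theorem vand_solve {ι : Type*} (c : ι → k[X]) (hc : Function.Injective c) (S : Finset ι)
    (hS : #S = p) : ∃ D : k[X], D ≠ 0 ∧ ∃ a : ℕ → ι → k[X], ∀ t < p, ∀ t' < p,
      ∑ j ∈ S, c j ^ (p - 1 - t') * a t j = if t' = t then D else 0 := by
  let en : Fin p ≃ S := (S.equivFinOfCardEq hS).symm
  let A : Matrix (Fin p) (Fin p) k[X] := Matrix.vandermonde fun i => c (en i)
  have hD : A.det ≠ 0 := by
    rw [Ne, Matrix.det_vandermonde_eq_zero_iff]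
    rintro ⟨i, j, h, hij⟩
    exact hij (en.injective (Subtype.ext (hc h)))
  refine ⟨A.det, hD, fun t j => if h : j ∈ S ∧ t < p then
    A.adjugate ⟨p - 1 - t, by omega⟩ (en.symm ⟨j, h.1⟩) else 0, fun t ht t' ht' => ?_⟩
  have h := congrFun (congrFun (Matrix.adjugate_mul A) ⟨p - 1 - t, by omega⟩) ⟨p - 1 - t', by omega⟩
  rw [Matrix.mul_apply, Matrix.smul_apply, Matrix.one_apply] at h
  rw [← Finset.sum_coe_sort S, ← Equiv.sum_comp en]
  have e : ∀ i : Fin p, c (en i) ^ (p - 1 - t') * (if h : (en i : ι) ∈ S ∧ t < p then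
      A.adjugate ⟨p - 1 - t, by omega⟩ (en.symm ⟨en i, h.1⟩) else 0) =
      A.adjugate ⟨p - 1 - t, by omega⟩ i * A i ⟨p - 1 - t', by omega⟩ := by
    intro i
    rw [dif_pos ⟨(en i).2, ht⟩, mul_comm]
    simp [A, Matrix.vandermonde_apply]
  simp only [e]
  rw [h]
  by_cases htt : t' = t
  · subst htt; simp
  · rw [if_neg htt, if_neg, smul_zero]
    intro h'
    have := congrArg Fin.val h'
    simp only at this
    omega

/-- Any `p` of the lines `(X - c j ^ p) ^ (p - 1) * s ^ p` span the multiples of `e ^ p`. -/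
theorem vand {ι : Type*} [Fintype ι] (c : ι → k[X]) (hc : Function.Injective c) :
    ∃ e : k[X], e ≠ 0 ∧ ∃ C0 : ℕ, ∀ S : Finset ι, #S = p → ∀ (N : ℕ) (v : k[X]),
      v.degree < (p * N : ℕ) → ∃ s : ι → k[X], (∀ j, (s j).degree < (N + C0 : ℕ)) ∧
        e ^ p * v = ∑ j ∈ S, (X - c j ^ p) ^ (p - 1) * s j ^ p := by
  have h := fun (S : {S : Finset ι // #S = p}) => vand_solve p c hc S.1 S.2
  choose D hD a ha using h
  let b : {S : Finset ι // #S = p} → ℕ → ι → k[X] := fun S t j =>
    (∏ T ∈ univ.erase S, D T) * a S t j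
  refine ⟨∏ S, D S, Finset.prod_ne_zero_iff.2 fun S _ => hD S,
    univ.sup fun S => (range p).sup fun t => univ.sup fun j => (b S t j).natDegree,
    fun S hS N v hv => ?_⟩
  obtain ⟨u, hu, rfl⟩ := vand_split p N v hv
  refine ⟨fun j => ∑ t ∈ range p, b ⟨S, hS⟩ t j * u t, fun j => ?_, ?_⟩
  · refine (degree_sum_le _ _).trans_lt ?_
    rw [Finset.sup_lt_iff (WithBot.bot_lt_coe _)]
    intro t ht
    have h1 : (b ⟨S, hS⟩ t j).natDegree ≤
        univ.sup fun S => (range p).sup fun t => univ.sup fun j => (b S t j).natDegree :=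
      ((Finset.le_sup (f := fun j => (b ⟨S, hS⟩ t j).natDegree) (mem_univ j)).trans
        (Finset.le_sup (f := fun t => univ.sup fun j => (b ⟨S, hS⟩ t j).natDegree) ht)).trans
        (Finset.le_sup (f := fun S => (range p).sup fun t => univ.sup fun j =>
          (b S t j).natDegree) (mem_univ _))
    by_cases h0 : u t = 0
    · rw [h0, mul_zero, degree_zero]; exact WithBot.bot_lt_coe _
    have h2 : (u t).natDegree < N := (natDegree_lt_iff_degree_lt h0).2 (hu t)
    refine degree_le_natDegree.trans_lt ?_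
    have := natDegree_mul_le (p := b ⟨S, hS⟩ t j) (q := u t)
    exact_mod_cast (by omega)
  · have hb : ∀ t ∈ range p, ∀ t' ∈ range p, ∑ j ∈ S, c j ^ (p - 1 - t') * b ⟨S, hS⟩ t j =
        if t' = t then ∏ S, D S else 0 := by
      intro t ht t' ht'
      have := ha ⟨S, hS⟩ t (mem_range.1 ht) t' (mem_range.1 ht')
      simp only [b]
      simp_rw [mul_left_comm _ (∏ T ∈ univ.erase (⟨S, hS⟩ : {S : Finset ι // #S = p}), D T)]
      rw [← Finset.mul_sum, this]
      split_ifs
      · exact Finset.prod_erase_mul _ _ (mem_univ _)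
      · exact mul_zero _
    have hl : ∀ j, (X - c j ^ p) ^ (p - 1) * (∑ t ∈ range p, b ⟨S, hS⟩ t j * u t) ^ p =
        ∑ t' ∈ range p, X ^ t' *
          (∑ t ∈ range p, c j ^ (p - 1 - t') * b ⟨S, hS⟩ t j * u t) ^ p := by
      intro j
      rw [(vand_pow p (c j)).resolve_right (vand_ne p (c j)), Finset.sum_mul]
      refine Finset.sum_congr rfl fun t' _ => ?_
      rw [mul_assoc, ← mul_pow, Finset.mul_sum]
      simp_rw [mul_assoc]
    simp_rw [hl]
    rw [Finset.sum_comm, Finset.mul_sum]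
    refine Finset.sum_congr rfl fun t' ht' => ?_
    rw [← Finset.mul_sum, ← sum_pow_char, Finset.sum_comm]
    simp_rw [← Finset.sum_mul]
    rw [Finset.sum_congr rfl fun t ht => by rw [hb t ht t' ht']]
    simp only [ite_mul, zero_mul, Finset.sum_ite_eq, if_pos ht']
    ring

end Vand

end Pool.Agent.H4O

end

end

section

/-! h4o row WT: the weights (paper C) -/

set_option autoImplicit false

open Polynomial Finset Filter
open scoped Classical BigOperators

noncomputable section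
namespace Pool.Agent.H4O

variable {k : Type} [Field k] [Fintype k] {p : ℕ} [Fact p.Prime] [CharP k p]

omit [Fintype k] in
theorem wt_der (f y s : k[X]) :
    derivative ((f + y ^ (p - 1) * s ^ p) * y) = derivative (f * y) := by
  have hp : 0 < p := (Fact.out : p.Prime).pos
  have : (f + y ^ (p - 1) * s ^ p) * y = f * y + (y * s) ^ p := by
    rw [mul_pow, add_mul, mul_right_comm, ← pow_succ, Nat.sub_add_cancel hp]
  rw [this, derivative_add, derivative_pow]
  simp

omit [CharP k p] in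
theorem wt_line {n γ : ℕ} {y s : k[X]} (hy : y.natDegree ≤ γ) (hn : γ < n / p)
    (hs : s ∈ box k (n / p - γ)) : (y ^ (p - 1) * s ^ p).degree < n := by
  have hp : 0 < p := (Fact.out : p.Prime).pos
  by_cases h0 : s = 0
  · rw [h0, zero_pow hp.ne', mul_zero, degree_zero]; exact WithBot.bot_lt_coe _
  have h1 : s.natDegree < n / p - γ := (natDegree_lt_iff_degree_lt h0).2 (mem_box.1 hs)
  have h2 : (y ^ (p - 1) * s ^ p).natDegree ≤ (p - 1) * γ + p * s.natDegree :=
    natDegree_mul_le.trans (add_le_add (natDegree_pow_le.trans (Nat.mul_le_mul_left _ hy))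
      natDegree_pow_le)
  have h3 : p * (s.natDegree + γ + 1) ≤ n :=
    (Nat.mul_le_mul_left p (by omega)).trans (Nat.mul_div_le n p)
  have h4 : (p - 1) * γ ≤ p * γ := Nat.mul_le_mul_right _ (by omega)
  refine degree_le_natDegree.trans_lt ?_
  rw [mul_add, mul_add] at h3
  exact_mod_cast (by omega)

omit [CharP k p] in
theorem wt_lat {n γ c : ℕ} {e v : k[X]} (he : e.natDegree ≤ γ) (hc : γ ≤ c) (hn : c < n / p)
    (hv : v ∈ box k (p * (n / p - c))) : (e ^ p * v).degree < n := by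
  by_cases h0 : v = 0
  · rw [h0, mul_zero, degree_zero]; exact WithBot.bot_lt_coe _
  have h1 : v.natDegree < p * (n / p - c) := (natDegree_lt_iff_degree_lt h0).2 (mem_box.1 hv)
  have h2 : (e ^ p * v).natDegree ≤ p * γ + v.natDegree :=
    natDegree_mul_le.trans (add_le_add (natDegree_pow_le.trans (Nat.mul_le_mul_left _ he)) le_rfl)
  have h3 : p * (γ + (n / p - c)) ≤ n :=
    (Nat.mul_le_mul_left p (by omega)).trans (Nat.mul_div_le n p)
  refine degree_le_natDegree.trans_lt ?_
  rw [mul_add] at h3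
  exact_mod_cast (by omega)

theorem wt_mon {n : ℕ} {f t : k[X]} (hf : f ∈ mon k n) (ht : t.degree < n) : f + t ∈ mon k n := by
  obtain ⟨a, ha, rfl⟩ := mem_image.1 hf
  refine mem_image.2 ⟨a + t, mem_box.2 ?_, (add_assoc _ _ _).symm⟩
  exact (degree_add_le _ _).trans_lt (max_lt (mem_box.1 ha) ht)

theorem weights (k : Type) [Field k] [Fintype k] {p : ℕ} [Fact p.Prime] [CharP k p] (h2 : p ≠ 2)
    {ε : ℝ} (hε : 0 < ε) : ∃ (M γ : ℕ) (c : ℝ) (y : Fin M → k[X]), 0 < M ∧ 0 < c ∧
      (∀ j, (y j).Monic ∧ (y j).natDegree ≤ γ) ∧ ∀ᶠ n in atTop, ∃ W : Fin M → k[X] → ℝ,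
        (∀ j f, |W j f| ≤ 1) ∧ (∀ j, Wt p n γ (y j) (W j)) ∧
          𝔼 f ∈ mon k n, |1 - c * (∑ j, W j f) / M| ≤ ε := by
  have hpp : p.Prime := Fact.out
  have hp2 : 2 ≤ p := hpp.two_le
  have hev : Even (p - 1) := hpp.even_sub_one h2
  obtain ⟨δ0, hδ0, hpos⟩ := pos (k := k) h2
  set δ := min δ0 1 with hδd
  have hδ : 0 < δ := lt_min hδ0 one_pos
  have hδ1 : δ ≤ 1 := min_le_right _ _
  obtain ⟨M0, hM0⟩ := exists_nat_ge (((p - 1 : ℕ) : ℝ) / (ε * δ) ^ 2)
  let c : Fin (M0 + 1) → k[X] := fun j => X ^ ((j : ℕ) + 1)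
  have hc : Function.Injective c := fun i j h => by
    have := congrArg natDegree h
    simp only [c, natDegree_X_pow] at this
    exact Fin.ext (by omega)
  obtain ⟨e, he, C0, hv⟩ := vand p c hc
  let y : Fin (M0 + 1) → k[X] := fun j => c j ^ p - X
  have hy : ∀ j, (y j).Monic ∧ (y j).natDegree ≤ (M0 + 1) * p + e.natDegree := by
    intro j
    have hj := j.2
    have h1 : 1 < ((j : ℕ) + 1) * p := by nlinarith
    have h3 : ((j : ℕ) + 1) * p ≤ (M0 + 1) * p := Nat.mul_le_mul_right _ (by omega)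
    have e1 : y j = X ^ (((j : ℕ) + 1) * p) - X := by simp only [y, c, ← pow_mul]
    rw [e1]
    refine ⟨monic_X_pow_sub (by rw [degree_X]; exact_mod_cast h1), ?_⟩
    refine (natDegree_sub_le _ _).trans ?_
    rw [natDegree_X_pow, natDegree_X]
    omega
  set γ := (M0 + 1) * p + e.natDegree with hγ
  have heγ : e.natDegree ≤ γ := by omega
  refine ⟨M0 + 1, γ, 1 / δ, y, Nat.succ_pos _, by positivity, hy, ?_⟩
  have hev2 : ∀ᶠ n : ℕ in atTop, γ + C0 < n / p := by
    filter_upwards [eventually_ge_atTop ((γ + C0 + 1) * p)] with n hn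
    exact (Nat.le_div_iff_mul_le hpp.pos).2 hn
  filter_upwards [hpos γ (γ + C0), hev2] with n hn hbig
  set N := n / p - (γ + C0) with hN
  let G : Fin (M0 + 1) → k[X] → ℝ := fun j f =>
    if Good p n (derivative (f * y j)) then 1 else 0
  let m : Fin (M0 + 1) → k[X] → ℝ := fun j f => 𝔼 v ∈ box k (p * N), G j (f + e ^ p * v)
  have hG0 : ∀ j f, 0 ≤ G j f := fun j f => by simp only [G]; split_ifs <;> norm_num
  have hG1 : ∀ j f, G j f ≤ 1 := fun j f => by simp only [G]; split_ifs <;> norm_num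
  have hm : ∀ j, ∀ f ∈ mon k n, δ ≤ m j f := fun j f hf =>
    (min_le_left _ _).trans (hn (y j) e f (hy j).1.ne_zero (hy j).2 he heγ hf)
  have hGs : ∀ j f s, G j (f + y j ^ (p - 1) * s ^ p) = G j f := fun j f s => by
    simp only [G, wt_der]
  have hms : ∀ j f s, m j (f + y j ^ (p - 1) * s ^ p) = m j f := fun j f s => by
    simp only [m]
    refine Finset.expect_congr rfl fun v _ => ?_
    rw [add_right_comm, hGs]
  have hml : ∀ j f, ∀ v0 ∈ box k (p * N), m j (f + e ^ p * v0) = m j f := fun j f v0 hv0 => by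
    simp only [m]
    rw [← exp_box_shift (mem_box.1 hv0) fun v => G j (f + e ^ p * v)]
    refine Finset.expect_congr rfl fun v _ => ?_
    congr 1
    ring
  have hq0 : ∀ j, ∀ f ∈ mon k n, 0 ≤ G j f / m j f := fun j f hf =>
    div_nonneg (hG0 j f) (hδ.le.trans (hm j f hf))
  have hq1 : ∀ j, ∀ f ∈ mon k n, G j f / m j f ≤ 1 / δ := fun j f hf =>
    div_le_div₀ zero_le_one (hG1 j f) hδ (hm j f hf)
  have hX : ∀ x ∈ box k n, X ^ n + x ∈ mon k n := fun x hx => mem_image.2 ⟨x, hx, rfl⟩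
  refine ⟨fun j f => if f ∈ mon k n then δ * (G j f / m j f) else 0, fun j f => ?_,
    fun j => ⟨fun f hf s hs => ?_, fun f hf h => ?_⟩, ?_⟩
  · beta_reduce
    split_ifs with hf
    · rw [abs_of_nonneg (mul_nonneg hδ.le (hq0 j f hf))]
      have := mul_le_mul_of_nonneg_left (hq1 j f hf) hδ.le
      rwa [mul_one_div_cancel hδ.ne'] at this
    · simp
  · beta_reduce
    rw [if_pos hf, if_pos (wt_mon hf (wt_line (hy j).2 (by omega) hs)), hGs, hms]
  · by_contra hg
    apply h
    simp only [G, if_pos hf, if_neg hg, zero_div, mul_zero]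
  have hinj : Set.InjOn (fun v : k[X] => e ^ p * v) (box k (p * N)) := fun a _ b _ h =>
    mul_left_cancel₀ (pow_ne_zero _ he) h
  have key := lln_one (ι := Fin (M0 + 1)) (box k n) (mem_box.2 (by simp))
    (fun a ha b hb => mem_box.2 ((degree_sub_le _ _).trans_lt (max_lt (mem_box.1 ha) (mem_box.1 hb))))
    (p - 1) (fun j => {u | ∃ s ∈ box k (n / p - γ), u = y j ^ (p - 1) * s ^ p})
    (by
      rintro j u ⟨s, hs, rfl⟩
      exact mem_box.2 (wt_line (hy j).2 (by omega) hs))
    ((box k (p * N)).image fun v => e ^ p * v)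
    (fun l hl => by
      obtain ⟨v, hv, rfl⟩ := mem_image.1 hl
      exact mem_box.2 (wt_lat heγ (Nat.le_add_right γ C0) hbig hv))
    ((box_nonempty _).image _) (fun j x => G j (X ^ n + x) / m j (X ^ n + x)) hδ hδ1
    (fun j x hx => hq0 j _ (hX x hx)) (fun j x hx => hq1 j _ (hX x hx))
    (by
      rintro j u ⟨s, -, rfl⟩ x -
      simp only [← add_assoc, hGs, hms])
    (fun j x hx => by
      rw [Finset.expect_image hinj, Finset.expect_congr rfl fun v hv =>
        (show G j (X ^ n + (x + e ^ p * v)) / m j (X ^ n + (x + e ^ p * v)) =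
          G j (X ^ n + x + e ^ p * v) / m j (X ^ n + x) by rw [← add_assoc, hml j _ v hv]),
        ← Finset.expect_div]
      exact div_self (hδ.trans_le (hm j _ (hX x hx))).ne')
    (fun S hS l hl => by
      obtain ⟨v, hv0, rfl⟩ := mem_image.1 hl
      obtain ⟨s, hs, h⟩ := hv S (by omega) N v (mem_box.1 hv0)
      refine ⟨fun j => y j ^ (p - 1) * s j ^ p, fun j => ⟨s j, mem_box.2 ?_, rfl⟩, ?_⟩
      · rw [show n / p - γ = N + C0 by omega]; exact hs j
      · rw [h]
        refine Finset.sum_congr rfl fun j _ => ?_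
        rw [← neg_sub (c j ^ p) X, hev.neg_pow])
  have e1 : 𝔼 f ∈ mon k n, |1 - 1 / δ * (∑ j, if f ∈ mon k n then δ * (G j f / m j f) else 0) /
      ((M0 + 1 : ℕ) : ℝ)| = 𝔼 x ∈ box k n, |1 - 𝔼 j, G j (X ^ n + x) / m j (X ^ n + x)| := by
    rw [box_exp_mon, box_sum_mon, box_exp]
    congr 1
    refine Finset.sum_congr rfl fun x hx => ?_
    simp only [if_pos (hX x hx)]
    rw [← Finset.mul_sum, ← mul_assoc, one_div_mul_cancel hδ.ne', one_mul,
      Finset.expect_eq_sum_div_card, card_univ, Fintype.card_fin]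
  rw [e1]
  refine key.trans ?_
  rw [div_le_iff₀ hδ, Fintype.card_fin]
  refine Real.sqrt_le_iff.2 ⟨by positivity, ?_⟩
  rw [div_le_iff₀ (by positivity)] at hM0 ⊢
  have : (0 : ℝ) < (ε * δ) ^ 2 := by positivity
  push_cast
  nlinarith

end Pool.Agent.H4O

end

end

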