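import Pool.Agent.MP_a4a062_nt.H4O.B
import Pool.Agent.MP_a4a062_nt.H4O.C

/-! Chowla correlations over `k[X]` in odd characteristic: von Neumann step and assembly. -/

section

/-! Section D: the von Neumann argument along lines. -/

set_option autoImplicit false
open Polynomial Finset Filter Topology
open scoped Classical BigOperators

noncomputable section
namespace Pool.Agent.H4O

theorem vn_add {k : Type*} [Field k] {n : ℕ} {x t : k[X]} (hx : x.Monic ∧ x.natDegree = n)
    (ht : t.degree < n) : (x + t).Monic ∧ (x + t).natDegree = n := by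
  have h1 : t.degree < x.degree := by rwa [degree_eq_natDegree hx.1.ne_zero, hx.2]
  exact ⟨hx.1.add_of_left h1, by rw [natDegree_add_eq_left_of_degree_lt h1, hx.2]⟩

theorem vn_deg {k : Type*} [Field k] {p c t N : ℕ} (hp : 0 < p) {u v : k[X]} (hu : u.natDegree ≤ c)
    (hv : v.degree < t) (hN : c + p * t ≤ N) : (u * v ^ p).degree < N := by
  by_cases h0 : v = 0
  · simp [h0, hp.ne']
  · rw [← natDegree_lt_iff_degree_lt h0] at hv
    refine (degree_le_natDegree).trans_lt ?_
    have h1 : (u * v ^ p).natDegree ≤ c + p * v.natDegree :=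
      natDegree_mul_le.trans (add_le_add hu natDegree_pow_le)
    have h2 : p * v.natDegree < p * t := Nat.mul_lt_mul_of_pos_left hv hp
    exact_mod_cast (by omega : (u * v ^ p).natDegree < N)

theorem vn_exp (N : ℕ) (C : ℝ) (hC : 0 < C) : ∃ t0 : ℕ, ∀ t, t0 ≤ t → C * (t : ℝ) ^ N ≤ 2 ^ t := by
  have h := tendsto_pow_const_div_const_pow_of_one_lt N (r := (2 : ℝ)) one_lt_two
  obtain ⟨t0, ht⟩ := eventually_atTop.1 (h.eventually (ge_mem_nhds (inv_pos.2 hC)))
  refine ⟨t0, fun t h1 => ?_⟩
  have := ht t h1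
  rw [div_le_iff₀ (by positivity)] at this
  calc C * (t : ℝ) ^ N ≤ C * (C⁻¹ * 2 ^ t) := mul_le_mul_of_nonneg_left this hC.le
    _ = 2 ^ t := by field_simp

/-- the shift that fixes one factor -/
def vnT {k : Type*} [Field k] (p : ℕ) [Fact p.Prime] [CharP k p] (u w : k[X]) :
    k[X] →+ k[X] × k[X] where
  toFun v := (u * v ^ p, w * v ^ p)
  map_zero' := by simp [(Fact.out : p.Prime).ne_zero]
  map_add' a b := by simp [add_pow_char, mul_add]

/-- one direction -/
theorem vn_one {k ι : Type} [Field k] [Fintype ι] (p : ℕ) [Fact p.Prime] [CharP k p]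
    (mon box : ℕ → Finset k[X]) (hmon : ∀ n f, f ∈ mon n ↔ f.Monic ∧ f.natDegree = n)
    (hbox : ∀ n f, f ∈ box n ↔ f.degree < n) (l : k[X] → ℝ) (hl : ∀ f, |l f| ≤ 1)
    (i0 : ι) (r : ι → k[X]) (hr : ∀ i, i ≠ i0 → r i ≠ 0) (hr0 : r i0 = 0) {M : k[X]} (a : k[X])
    (hM : M ≠ 0) (g : k[X]) (φ u : k[X] → ℝ) (hφ : ∀ P, |φ P| ≤ 1) (hu : ∀ x, |u x| ≤ 1)
    {c t d n : ℕ} (hc : ∀ i, g.natDegree + p * (r i).natDegree ≤ c)
    (hcM : g.natDegree + p * M.natDegree ≤ c) (hd : c + p * t ≤ d) (hn : d ≤ n)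
    (hne : (mon d).Nonempty)
    (hi : ∀ x ∈ mon n, ∀ b : k[X], b.degree < d → u (x + g * b ^ p) = u x) {β : ℝ} (hβ : 0 ≤ β)
    (hB : ∀ S : Multiset k[X], S.card = 2 ^ Fintype.card ι → (∀ b ∈ S, b.degree < d) →
      (∃ b, S.count b = 1) → |𝔼 x ∈ mon n, u x ^ 2 ^ Fintype.card ι *
        (S.map fun b => l (x + g * b ^ p)).prod| ≤ β) :
    |𝔼 z ∈ mon n ×ˢ mon d, φ z.2 * (u z.1 *
        if M ∣ z.1 - a * z.2 then ∏ i, l (z.1 + z.2 * r i) else 0)| ^ 2 ^ Fintype.card ι ≤
      β + (2 ^ Fintype.card ι - 1) / #(box t) := by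
  have hp : 0 < p := (Fact.out : p.Prime).pos
  set K := Fintype.card ι
  let e : Fin K ≃ ι := (Fintype.equivFin ι).symm
  let ρ : ι → k[X] := fun i => if i = i0 then M else r i
  let σ : ι → k[X] := fun i => if i = i0 then 0 else -(g * r i ^ (p - 1))
  have hρ0 : ∀ i, ρ i ≠ 0 := fun i => by
    simp only [ρ]
    split_ifs with h
    exacts [hM, hr i h]
  have hρ : ∀ i, g.natDegree + p * (ρ i).natDegree ≤ c := fun i => by
    simp only [ρ]
    split_ifs
    exacts [hcM, hc i]
  have hσ : ∀ i, (σ i).natDegree ≤ c := fun i => by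
    simp only [σ]
    split_ifs
    · simp
    · rw [natDegree_neg]
      refine natDegree_mul_le.trans (le_trans (add_le_add le_rfl (natDegree_pow_le.trans ?_)) (hc i))
      exact Nat.mul_le_mul_right _ (Nat.sub_le _ _)
  have hg : ∀ i, (g * ρ i ^ p).natDegree ≤ c := fun i =>
    natDegree_mul_le.trans ((add_le_add le_rfl natDegree_pow_le).trans (hρ i))
  have hα : ∀ i, ∀ v ∈ box t, (ρ i * v).degree < d := fun i v hv => by
    have h1 : (ρ i).natDegree ≤ c :=
      (Nat.le_mul_of_pos_left _ hp).trans ((Nat.le_add_left _ _).trans (hρ i))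
    have := vn_deg (p := 1) (N := d) one_pos h1 ((hbox _ _).1 hv)
      (le_trans (add_le_add le_rfl (Nat.mul_le_mul_right _ hp)) hd)
    rwa [pow_one] at this
  let Ψ : k[X] → k[X] × k[X] → ℝ := fun b z =>
    if b.degree < d then u z.1 * l (z.1 + g * b ^ p) else 0
  let F : ι → k[X] × k[X] → ℝ := fun i z =>
    if i = i0 then φ z.2 * (if M ∣ z.1 - a * z.2 then 1 else 0) else l (z.1 + z.2 * r i)
  have key := vdc_list (mon n ×ˢ mon d) (box t) ⟨0, (hbox _ _).2 (by simp)⟩
    (fun v hv w hw => (hbox _ _).2 ((degree_sub_le v w).trans_lt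
      (max_lt ((hbox _ _).1 hv) ((hbox _ _).1 hw)))) Ψ
    (fun b z => by
      simp only [Ψ]
      split_ifs
      · rw [abs_mul]; exact mul_le_one₀ (hu _) (abs_nonneg _) (hl _)
      · simp) hβ K
    (fun i => vnT p (g * ρ (e i) ^ p) (σ (e i))) (fun i v => ρ (e i) * v) (fun i => F (e i)) [0]
    (fun i z hz v hv => by
      rw [mem_product, hmon, hmon] at hz ⊢
      exact ⟨vn_add hz.1 (vn_deg hp (hg _) ((hbox _ _).1 hv) (hd.trans hn)),
        vn_add hz.2 (vn_deg hp (hσ _) ((hbox _ _).1 hv) hd)⟩)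
    (fun i v _ w _ h => mul_left_cancel₀ (hρ0 _) h)
    (fun i b z hz v hv => by
      have h1 := hα (e i) v hv
      have h2 : (b + ρ (e i) * v).degree < d ↔ b.degree < d := by
        constructor
        · intro h
          have := (degree_sub_le _ _).trans_lt (max_lt h h1)
          rwa [add_sub_cancel_right] at this
        · exact fun h => (degree_add_le _ _).trans_lt (max_lt h h1)
      have h3 : (z + vnT p (g * ρ (e i) ^ p) (σ (e i)) v).1 = z.1 + g * (ρ (e i) * v) ^ p := by
        simp [vnT, mul_pow, mul_assoc]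
      simp only [Ψ, h2, h3]
      split_ifs
      · rw [hi _ (mem_product.1 hz).1 _ h1, add_pow_char]
        congr 2
        ring
      · rfl)
    (fun i z _ => by
      simp only [F]
      split_ifs
      · simpa using hφ _
      · simp
      · exact hl _)
    (fun i z _ v _ => by
      have h3 : (z + vnT p (g * ρ (e i) ^ p) (σ (e i)) v).1 = z.1 + g * ρ (e i) ^ p * v ^ p := rfl
      have h4 : (z + vnT p (g * ρ (e i) ^ p) (σ (e i)) v).2 = z.2 + σ (e i) * v ^ p := rfl
      simp only [F, h3, h4, ρ, σ]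
      by_cases h : e i = i0
      · simp only [if_pos h, zero_mul, add_zero]
        have h5 : M ∣ g * M ^ p * v ^ p :=
          ((dvd_pow_self M hp.ne').mul_left g).mul_right _
        have h6 : M ∣ z.1 + g * M ^ p * v ^ p - a * z.2 ↔ M ∣ z.1 - a * z.2 := by
          rw [add_sub_right_comm]
          exact dvd_add_left h5
        simp only [h6]
      · simp only [if_neg h]
        congr 1
        have : r (e i) ^ p = r (e i) ^ (p - 1) * r (e i) := by
          rw [← pow_succ, Nat.sub_add_cancel hp]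
        rw [this]
        ring)
    ⟨0, by simp⟩
    (fun T hT hs => by
      rw [List.length_singleton, mul_one] at hT
      by_cases hb : ∀ b ∈ T, b.degree < d
      · refine le_trans (le_of_eq ?_) (hB T (by simpa using hT) (by simpa using hb) (by
          obtain ⟨b, hb⟩ := hs
          exact ⟨b, by
            rw [Multiset.coe_count, ← hb]
            exact List.countP_congr fun x _ => by simp only [beq_iff_eq]⟩))
        congr 1
        simp only [Multiset.map_coe, Multiset.prod_coe]
        rw [expect_product]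
        refine expect_congr rfl fun x _ => ?_
        have : ∀ P : k[X], (T.map fun b => Ψ b (x, P)).prod =
            u x ^ 2 ^ K * (T.map fun b => l (x + g * b ^ p)).prod := fun P => by
          rw [List.map_congr_left (g := fun b => u x * l (x + g * b ^ p))
            (fun b h => if_pos (hb b h)), List.prod_map_mul, List.map_const', List.prod_replicate,
            hT]
        simp only [this]
        exact expect_const hne _
      · push Not at hb
        obtain ⟨b, h1, h2⟩ := hb
        rw [expect_eq_zero (fun z _ => List.prod_eq_zero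
          (List.mem_map.2 ⟨b, h1, if_neg (not_lt.2 h2)⟩)), abs_zero]
        exact hβ)
  rw [List.length_singleton, Nat.cast_one, mul_one] at key
  refine le_trans (le_of_eq ?_) key
  congr 2
  refine expect_congr rfl fun z _ => ?_
  rw [Equiv.prod_comp e (fun i => F i z), ← mul_prod_erase univ (fun i => F i z) (mem_univ i0),
    ← mul_prod_erase univ (fun i => l (z.1 + z.2 * r i)) (mem_univ i0),
    prod_congr rfl (f := fun i => F i z) (g := fun i => l (z.1 + z.2 * r i))
      (fun i hi => if_neg (ne_of_mem_erase hi))]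
  have h0 : (0 : k[X]).degree < d := by simp
  simp only [F, Ψ, if_pos, List.map_cons, List.map_nil, List.prod_cons, List.prod_nil, if_pos h0,
    hr0, zero_pow hp.ne', mul_zero, add_zero, mul_one]
  split_ifs <;> ring

end Pool.Agent.H4O

end

end

section

/-! h4o row VN1: von Neumann for one direction (paper D) -/

set_option autoImplicit false

open Polynomial Finset Filter
open scoped Classical BigOperators

noncomputable section
namespace Pool.Agent.H4O

variable {k : Type} [Field k] [Fintype k] {p : ℕ} [Fact p.Prime] [CharP k p]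

theorem vn1 (h2 : p ≠ 2) {ι : Type} [Fintype ι] (h : ι → k[X]) (hinj : Function.Injective h)
    (i₀ : ι) (h0 : h i₀ = 0) {M : k[X]} (a : k[X]) (hM : M ≠ 0) {y : k[X]} (hy : y.Monic) (γ : ℕ)
    {ε : ℝ} (hε : 0 < ε) : ∀ᶠ d in atTop, ∀ᶠ n in atTop, ∀ W : k[X] → ℝ, (∀ f, |W f| ≤ 1) →
      Wt p n γ y W → |∑ P ∈ prs k d, lam P ^ Fintype.card ι * ∑ x ∈ mon k n,
        W x * (if M ∣ x - a * P then ∏ i, lam (x + P * h i) else 0)| ≤
          ε * #(prs k d) * qq k ^ n := by
  have hp : 0 < p := (Fact.out : p.Prime).pos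
  have hq := two_le_qq (k := k)
  set K := Fintype.card ι
  obtain ⟨c, hc, hcM⟩ : ∃ c, (∀ i, (y ^ (p - 1)).natDegree + p * (h i).natDegree ≤ c) ∧
      (y ^ (p - 1)).natDegree + p * M.natDegree ≤ c :=
    ⟨(y ^ (p - 1)).natDegree + p * (univ.sup (fun i => (h i).natDegree) + M.natDegree),
      fun i => add_le_add le_rfl (Nat.mul_le_mul_left _ ((le_sup (f := fun i => (h i).natDegree)
        (mem_univ i)).trans (Nat.le_add_right _ _))),
      add_le_add le_rfl (Nat.mul_le_mul_left _ (Nat.le_add_left _ _))⟩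
  have hpc : (0 : ℝ) < (c : ℝ) + 2 * p := by positivity
  obtain ⟨t0, ht0⟩ := vn_exp (2 ^ K) (2 ^ K * (2 * ((c : ℝ) + 2 * p) / ε) ^ 2 ^ K) (by positivity)
  filter_upwards [eventually_ge_atTop (c + p * (t0 + 1))] with d hd
  set t := (d - c) / p with ht
  have h1 : t0 + 1 ≤ t := (Nat.le_div_iff_mul_le hp).2 (by rw [mul_comm]; omega)
  have h3 : c + p * t ≤ d := by
    have := Nat.mul_div_le (d - c) p
    rw [← ht] at this
    omega
  have h4 : d ≤ (c + 2 * p) * t := by
    have a1 := Nat.lt_mul_div_succ (d - c) hp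
    rw [← ht] at a1
    have a2 : c ≤ c * t := Nat.le_mul_of_pos_right _ (by omega)
    have a3 : p ≤ p * t := Nat.le_mul_of_pos_right _ (by omega)
    rw [mul_add, mul_one] at a1
    rw [add_mul, mul_assoc]
    omega
  have hd0 : 0 < d := by
    have : 0 < p * t := Nat.mul_pos hp (by omega)
    omega
  have hdr : (0 : ℝ) < d := by exact_mod_cast hd0
  have hβ : (0 : ℝ) < 1 / qq k ^ t := by positivity
  filter_upwards [lemB (k := k) h2 (2 ^ K) (γ + d + y.natDegree) hβ,
    eventually_ge_atTop (p * (d + γ))] with n hn hn' W hW hWt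
  have h5 : d + γ ≤ n / p := (Nat.le_div_iff_mul_le hp).2 (by rwa [mul_comm])
  have key := vn_one p (mon k) (box k) (fun _ _ => mem_mon) (fun _ _ => mem_box) lam
    (fun f => (abs_lam f).le) i₀ h (fun i hi e => hi (hinj (e.trans h0.symm))) h0 a hM
    (y ^ (p - 1)) (fun P => if Irreducible P then lam P ^ K else 0) W
    (fun P => by
      split_ifs
      · rw [abs_pow, abs_lam, one_pow]
      · simp) hW hc hcM h3
    ((Nat.le_add_right d γ).trans (h5.trans (Nat.div_le_self _ _))) (mon_nonempty d)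
    (fun x hx b hb => hWt.1 x hx b (box_mono (by omega) (mem_box.2 hb))) hβ.le
    (fun S h6 h7 h8 => hn y S (fun x => W x ^ 2 ^ K) hy (by omega) h6 h8
      (fun b hb => box_mono (by omega) (mem_box.2 (h7 b hb)))
      (fun f => by rw [abs_pow]; exact pow_le_one₀ (abs_nonneg _) (hW f))
      ⟨fun f hf s hs => congrArg (· ^ 2 ^ K)
          ((hWt.mono (γ' := γ + d + y.natDegree) (by omega)).1 f hf s hs),
        fun f hf e => hWt.2 f hf fun e' => e (by simp [e'])⟩)
  rw [card_box] at key
  have h6 : 1 / qq k ^ t + (2 ^ K - 1) / qq k ^ t ≤ (ε / (2 * d)) ^ 2 ^ K := by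
    rw [← add_div, add_sub_cancel, div_le_iff₀ (by positivity)]
    have a1 : (2 : ℝ) ^ t ≤ qq k ^ t := pow_le_pow_left₀ (by norm_num) hq t
    have a2 := (ht0 t (by omega)).trans a1
    have a3 : (d : ℝ) ≤ ((c : ℝ) + 2 * p) * t := by exact_mod_cast h4
    have a4 : 1 ≤ ε / (2 * d) * (2 * ((c : ℝ) + 2 * p) / ε * t) := by
      rw [show ε / (2 * d) * (2 * ((c : ℝ) + 2 * p) / ε * t) = ((c : ℝ) + 2 * p) * t / d by
        field_simp, le_div_iff₀ hdr, one_mul]
      exact a3
    have a5 := one_le_pow₀ (n := 2 ^ K) a4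
    rw [mul_pow, mul_pow] at a5
    calc (2 : ℝ) ^ K ≤ 2 ^ K * ((ε / (2 * d)) ^ 2 ^ K *
          ((2 * ((c : ℝ) + 2 * p) / ε) ^ 2 ^ K * (t : ℝ) ^ 2 ^ K)) :=
          le_mul_of_one_le_right (by positivity) a5
      _ = (ε / (2 * d)) ^ 2 ^ K *
          (2 ^ K * (2 * ((c : ℝ) + 2 * p) / ε) ^ 2 ^ K * (t : ℝ) ^ 2 ^ K) := by ring
      _ ≤ _ := mul_le_mul_of_nonneg_left a2 (by positivity)
  have h7 := le_of_pow_le_pow_left₀ (by positivity) (by positivity) (key.trans h6)
  rw [expect_eq_sum_div_card, card_product, Nat.cast_mul, card_mon, card_mon, abs_div,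
    abs_of_pos (by positivity : 0 < qq k ^ n * qq k ^ d), div_le_iff₀ (by positivity),
    sum_product_right] at h7
  have h8 : ∑ P ∈ prs k d, lam P ^ K * ∑ x ∈ mon k n,
      W x * (if M ∣ x - a * P then ∏ i, lam (x + P * h i) else 0) =
      ∑ P ∈ mon k d, ∑ x ∈ mon k n, (if Irreducible P then lam P ^ K else 0) *
        (W x * if M ∣ x - a * P then ∏ i, lam (x + P * h i) else 0) := by
    rw [prs, sum_filter]
    refine sum_congr rfl fun P _ => ?_
    split_ifs
    · rw [mul_sum]
    · simp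
  rw [h8]
  refine h7.trans ?_
  have h9 := card_prs (k := k) hd0
  calc ε / (2 * d) * (qq k ^ n * qq k ^ d) ≤ ε / (2 * d) * (qq k ^ n * (2 * d * #(prs k d))) := by
        gcongr
    _ = _ := by field_simp

end Pool.Agent.H4O

end

end

section

/-! h4o row VN: conclusion of paper D, in the form used by the entropy decrement -/

set_option autoImplicit false

open Polynomial Finset Filter
open scoped Classical BigOperators

noncomputable section
namespace Pool.Agent.H4O

variable {k : Type} [Field k] [Fintype k] {p : ℕ} [Fact p.Prime] [CharP k p]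

theorem vn (h2 : p ≠ 2) {ι : Type} [Fintype ι] [Nonempty ι] (h : ι → k[X])
    (hinj : Function.Injective h) {M : k[X]} (a : k[X]) (hM : M ≠ 0) :
    ∀ ε : ℝ, 0 < ε → ∃ d0 : ℕ, ∀ d, d0 ≤ d → ∃ n0 : ℕ, ∀ n, n0 ≤ n →
      |∑ P ∈ prs k d, lam P ^ Fintype.card ι *
          ∑ x ∈ mon k n, (if M ∣ x - a * P then ∏ i, lam (x + P * h i) else 0)|
        ≤ ε * (prs k d).card * (Fintype.card k : ℝ) ^ n := by
  intro ε hε
  have hq := two_le_qq (k := k)
  obtain ⟨i₀⟩ := ‹Nonempty ι›
  obtain ⟨m, γ, c, y, hm, hc, hy, hW⟩ := weights k h2 (half_pos hε)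
  have hmr : (0 : ℝ) < m := by exact_mod_cast hm
  obtain ⟨d0, hd0⟩ := eventually_atTop.1 (eventually_all.2 fun j : Fin m =>
    vn1 h2 (fun i => h i - h i₀) (fun i j e => hinj (sub_left_injective e)) i₀ (sub_self _)
      (a + h i₀) hM (hy j).1 γ (div_pos (half_pos hε) hc))
  refine ⟨d0, fun d hd => eventually_atTop.1 ?_⟩
  filter_upwards [eventually_all.2 (hd0 d hd), hW,
    eventually_gt_atTop (d + (h i₀).natDegree)] with n hn hW hn'
  obtain ⟨W, hW1, hWt, hL⟩ := hW
  set K := Fintype.card ι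
  set F : k[X] → k[X] → ℝ := fun P x =>
    if M ∣ x - (a + h i₀) * P then ∏ i, lam (x + P * (h i - h i₀)) else 0 with hF
  have hqn : 0 < qq k ^ n := by positivity
  have e1 : ∀ P ∈ prs k d,
      ∑ x ∈ mon k n, (if M ∣ x - a * P then ∏ i, lam (x + P * h i) else 0) =
        ∑ x ∈ mon k n, F P x := fun P hP => by
    have hdeg : (P * h i₀).degree < n := by
      refine degree_le_natDegree.trans_lt ?_
      have : (P * h i₀).natDegree ≤ d + (h i₀).natDegree :=
        natDegree_mul_le.trans (by rw [(mem_prs.1 hP).2.2])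
      exact_mod_cast this.trans_lt hn'
    have := exp_mon_shift hdeg (F P)
    rw [box_exp_mon, box_exp_mon, div_left_inj' hqn.ne'] at this
    rw [← this]
    refine sum_congr rfl fun x _ => ?_
    have a1 : x + P * h i₀ - (a + h i₀) * P = x - a * P := by ring
    have a2 : ∀ i, x + P * h i₀ + P * (h i - h i₀) = x + P * h i := fun i => by ring
    simp only [hF, a1, a2]
  have hF1 : ∀ P x, |F P x| ≤ 1 := fun P x => by
    simp only [hF]
    split_ifs
    · rw [abs_prod]; simp [abs_lam]
    · simp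
  rw [sum_congr rfl fun P hP => by rw [e1 P hP]]
  have e2 : ∑ P ∈ prs k d, lam P ^ K * ∑ x ∈ mon k n, F P x =
      ∑ P ∈ prs k d, lam P ^ K * ∑ x ∈ mon k n, (1 - c * (∑ j, W j x) / m) * F P x +
        c / m * ∑ j, ∑ P ∈ prs k d, lam P ^ K * ∑ x ∈ mon k n, W j x * F P x := by
    rw [sum_comm (s := univ), mul_sum, ← sum_add_distrib]
    refine sum_congr rfl fun P _ => ?_
    rw [← mul_sum, sum_comm (s := univ), mul_left_comm, ← mul_add]
    congr 1
    rw [mul_sum, ← sum_add_distrib]
    refine sum_congr rfl fun x _ => ?_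
    rw [← sum_mul]
    ring
  rw [box_exp_mon, div_le_iff₀ hqn] at hL
  have b1 : |∑ P ∈ prs k d, lam P ^ K * ∑ x ∈ mon k n, (1 - c * (∑ j, W j x) / m) * F P x| ≤
      #(prs k d) * (ε / 2 * qq k ^ n) := by
    rw [← nsmul_eq_mul]
    refine (abs_sum_le_sum_abs _ _).trans (sum_le_card_nsmul _ _ _ fun P _ => ?_)
    rw [abs_mul, abs_pow, abs_lam, one_pow, one_mul]
    refine (abs_sum_le_sum_abs _ _).trans (le_trans (sum_le_sum fun x _ => ?_) hL)
    rw [abs_mul]
    exact mul_le_of_le_one_right (abs_nonneg _) (hF1 P x)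
  have b2 : |∑ j, ∑ P ∈ prs k d, lam P ^ K * ∑ x ∈ mon k n, W j x * F P x| ≤
      m * (ε / 2 / c * #(prs k d) * qq k ^ n) := by
    refine (abs_sum_le_sum_abs _ _).trans ((sum_le_card_nsmul _ _ _ fun j _ =>
      hn j (W j) (hW1 j) (hWt j)).trans ?_)
    simp
  rw [e2]
  refine (abs_add_le _ _).trans ?_
  rw [abs_mul, abs_of_pos (div_pos hc hmr)]
  refine (add_le_add b1 (mul_le_mul_of_nonneg_left b2 (div_pos hc hmr).le)).trans (le_of_eq ?_)
  change _ = ε * #(prs k d) * qq k ^ n
  field_simp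
  ring

end Pool.Agent.H4O

end

end

section

/-! h4o assembly -/

set_option autoImplicit false

open Polynomial Finset Filter
open scoped Classical BigOperators

noncomputable section
namespace Pool.Agent.H4O

theorem main (k : Type) [Field k] [Finite k] (h2 : ringChar k ≠ 2) (H : Finset k[X])
    (hH : H.Nonempty) (M a : k[X]) (hM : M ≠ 0) (ε : ℝ) (hε : 0 < ε) :
    ∃ T₀ : ℕ, ∀ T, T₀ ≤ T → ∀ N : ℕ, ∑ n ∈ Finset.Ico N (N + T),
      |∑ᶠ f ∈ {f : k[X] | f.Monic ∧ f.natDegree = n ∧ M ∣ f - a},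
          ∏ h ∈ H, (-1 : ℝ) ^ (UniqueFactorizationMonoid.factors (f + h)).card| /
        (Nat.card k : ℝ) ^ n ≤ ε * T := by
  have := Fintype.ofFinite k
  obtain ⟨p, hp⟩ := CharP.exists k
  have : Fact p.Prime := ⟨CharP.char_is_prime k p⟩
  have hp2 : p ≠ 2 := by rwa [ringChar.eq k p] at h2
  have : Nonempty H := hH.to_subtype
  have hq := two_le_qq (k := k)
  obtain ⟨T₀, hT⟩ := decrement (fun i : H => (i : k[X])) a hM (by
    intro η hη
    obtain ⟨d0, hd⟩ := vn hp2 (fun i : H => (i : k[X])) Subtype.val_injective a hM η hη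
    filter_upwards [eventually_ge_atTop d0, eventually_gt_atTop 0] with d h1 h3
    obtain ⟨n0, hn⟩ := hd d h1
    filter_upwards [eventually_ge_atTop n0] with n h4
    have h5 := hn n h4
    have h6 : (0 : ℝ) < #(prs k d) := by
      have h7 := card_prs (k := k) h3
      have h8 : 0 < qq k ^ d := by positivity
      by_contra h9
      have h10 : (#(prs k d) : ℝ) = 0 := le_antisymm (not_lt.1 h9) (by positivity)
      rw [h10, mul_zero] at h7
      linarith
    have h7 : 0 < qq k ^ n := by positivity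
    simp only [box_exp_mon, ite_mul, one_mul, zero_mul, ← mul_div_assoc]
    rw [expect_eq_sum_div_card, ← sum_div, div_div, abs_div, abs_of_pos (mul_pos h7 h6),
      div_le_iff₀ (mul_pos h7 h6)]
    refine h5.trans (le_of_eq ?_)
    unfold qq
    ring) hε
  refine ⟨T₀, fun T hT' N => le_trans (le_of_eq (sum_congr rfl fun n _ => ?_)) (hT T hT' N)⟩
  have e : {f : k[X] | f.Monic ∧ f.natDegree = n ∧ M ∣ f - a} =
      ((mon k n).filter fun f => M ∣ f - a : Finset k[X]) := by
    ext f
    simp [mem_mon, and_assoc]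
  have h7 : 0 < qq k ^ n := by positivity
  rw [e, finsum_mem_coe_finset, cor, box_exp_mon, abs_div, abs_of_pos h7, sum_filter,
    Nat.card_eq_fintype_card]
  congr 2
  refine sum_congr rfl fun f _ => ?_
  rw [prod_coe_sort H fun h => lam (f + h), ite_mul, one_mul, zero_mul]
  rfl

end Pool.Agent.H4O

end

end

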